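import Pool.Agent.P.MP_3c2f8c_gt.Gl.Defs

/-!
Rational forms that are locally isometric to a fixed integral form, and the maps from their
unitary groups to the local groups and to the isometry group of hyperbolic space.
-/

namespace Pool.Agent.P.MP_3c2f8c_gt

open Matrix

variable {a b : ℤ} {ι : Type} [Fintype ι] [DecidableEq ι]

/-- Transport of unitary groups along an isometry. -/
def transp {A : Type} [Ring A] [StarRing A] {H₀ H : Matrix ι ι A} (φ : (Matrix ι ι A)ˣ)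
    (h : φ.1ᴴ * H₀ * φ.1 = H) : Un H →* Un H₀ :=
  ((MulAut.conj φ).toMonoidHom.comp (Un H).subtype).codRestrict _ fun g => by
    have hg : g.1.1ᴴ * H * g.1.1 = H := g.2
    show (φ.1 * g.1.1 * (φ⁻¹).1)ᴴ * H₀ * (φ.1 * g.1.1 * (φ⁻¹).1) = H₀
    calc (φ.1 * g.1.1 * (φ⁻¹).1)ᴴ * H₀ * (φ.1 * g.1.1 * (φ⁻¹).1)
        = (φ⁻¹).1ᴴ * (g.1.1ᴴ * (φ.1ᴴ * H₀ * φ.1) * g.1.1) * (φ⁻¹).1 := by
          simp only [conjTranspose_mul, Matrix.mul_assoc]
      _ = (φ⁻¹).1ᴴ * (φ.1ᴴ * H₀ * φ.1) * (φ⁻¹).1 := by rw [h, hg]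
      _ = (φ.1 * (φ⁻¹).1)ᴴ * H₀ * (φ.1 * (φ⁻¹).1) := by
          simp only [conjTranspose_mul, Matrix.mul_assoc]
      _ = H₀ := by rw [← Units.val_mul, mul_inv_cancel]; simp

theorem transp_val {A : Type} [Ring A] [StarRing A] {H₀ H : Matrix ι ι A} (φ : (Matrix ι ι A)ˣ)
    (h : φ.1ᴴ * H₀ * φ.1 = H) (g : Un H) : (transp φ h g).1 = φ * g.1 * φ⁻¹ := rfl

theorem locU_val {R S : Type} [CommRing R] [CommRing S] (φ : R →+* S) (H : Matrix ι ι (Q a b R))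
    (g : Un H) : (locU φ H g).1.1 = bc φ g.1.1 := rfl

/-- The cast from the integers. -/
abbrev ia (E : Type) [Ring E] : ℤ →+* E := Int.castRingHom E

/-- The local unitary groups of the integral form `H₀`. -/
abbrev Ul (H₀ : Matrix ι ι (Q a b ℤ)) (p : Nat.Primes) : Type := Un (bc (ia ℚ_[p]) H₀)

/-- The standard level. -/
noncomputable abbrev Kst (H₀ : Matrix ι ι (Q a b ℤ)) (p : Nat.Primes) : Subgroup (Ul H₀ p) :=
  K0 (bc (ia ℚ_[p]) H₀)

/-- A rational form with isometries to `H₀` at all places. -/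
structure Form (H₀ : Matrix ι ι (Q a b ℤ)) where
  H : Matrix ι ι (Q a b ℚ)
  φ : ∀ p : Nat.Primes, (Matrix ι ι (Q a b ℚ_[p]))ˣ
  φ' : (Matrix ι ι (Q a b ℝ))ˣ
  hφ : ∀ p, (φ p).1ᴴ * bc (ia ℚ_[p]) H₀ * (φ p).1 = bc (ra ℚ_[p]) H
  fin : {p | ¬ IntU (φ p)}.Finite
  hφ' : φ'.1ᴴ * bc (ia ℝ) H₀ * φ'.1 = bc (ra ℝ) H

variable {H₀ : Matrix ι ι (Q a b ℤ)}

/-- The map to the finite places. -/
noncomputable def Form.Φ (F : Form H₀) : Un F.H →* ∀ p, Ul H₀ p :=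
  MonoidHom.pi fun p => (transp (F.φ p) (F.hφ p)).comp (locU (ra ℚ_[p]) F.H)

/-- The map to the real place. -/
noncomputable def Form.real (F : Form H₀) : Un F.H →* Un (bc (ia ℝ) H₀) :=
  (transp F.φ' F.hφ').comp (locU (ra ℝ) F.H)

/-- An identification of the real unitary group of `H₀` with the Lorentz group, and the
projection of the Lorentz group to the isometry group. -/
structure RealId (H₀ : Matrix ι ι (Q a b ℤ)) (n : ℕ) where
  ψ : Matrix ι ι (Q a b ℝ) ≃ₐ[ℝ] Matrix (Fin (n + 1)) (Fin (n + 1)) ℝ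
  hψ : ∀ g, gᴴ * bc (ia ℝ) H₀ * g = bc (ia ℝ) H₀ ↔ ∀ u v, lor (ψ g *ᵥ u) (ψ g *ᵥ v) = lor u v
  det : ∀ g, (ψ g).det = nrd g
  tp : LorO n →* Oplus n
  htp : ∀ g : LorO n, (tp g).1 = g.1 ∨ (tp g).1 = -g.1

variable {n : ℕ}

/-- The real unitary group acts on hyperbolic space. -/
noncomputable def RealId.act (I : RealId H₀ n) : Un (bc (ia ℝ) H₀) →* Oplus n :=
  I.tp.comp (((Units.map (I.ψ : Matrix ι ι (Q a b ℝ) →+* Matrix (Fin (n + 1)) (Fin (n + 1)) ℝ).toMonoidHom).comp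
    (Un (bc (ia ℝ) H₀)).subtype).codRestrict (LorO n) fun g u v => (I.hψ g.1.1).1 g.2 u v)

/-- The rational unitary group acts on hyperbolic space. -/
noncomputable def Form.ρ (F : Form H₀) (I : RealId H₀ n) : Un F.H →* Oplus n := I.act.comp F.real

/-- The action of the rational unitary group on hyperbolic space. -/
@[reducible] noncomputable def Form.hAct (F : Form H₀) (I : RealId H₀ n) :
    MulAction (Un F.H) (Hyp n) := MulAction.compHom (Hyp n) (F.ρ I)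

/-- The standing hypotheses on the reference form and on a form in its genus. -/
structure Form.Good (F : Form H₀) (S : Finset Nat.Primes) : Prop where
  ram : Ram a b S
  skew₀ : H₀ᴴ = -H₀
  unit₀ : IsUnit (bc (ia ℚ) H₀)
  aniso : ∀ v, v ≠ 0 → hf F.H v v ≠ 0
  card : 3 ≤ Fintype.card ι

/-- A torsion-free compact open subgroup whose normaliser meets every coset of `fiRes`. -/
def GoodLev {G : Type} [Group G] [TopologicalSpace G] (K : Subgroup G) : Prop :=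
  CO K ∧ (∀ g : G, ∃ e ∈ fiRes G, e⁻¹ * g ∈ Subgroup.normalizer (K : Set G)) ∧
    ∀ g ∈ K, IsOfFinOrder g → g = 1

/-- `X` is tangent to `Γ` at the identity. -/
def Tan {p : ℕ} [Fact p.Prime] {κ : Type} [Fintype κ] [DecidableEq κ] {S : Matrix κ κ ℚ_[p]}
    (Γ : Subgroup (Ort S)) (X : Matrix κ κ ℚ_[p]) : Prop :=
  ∀ ε : ℝ, 0 < ε → ∃ k₀ : ℕ, ∀ k : ℕ, k₀ ≤ k → ∃ c ∈ Γ, ∀ i j,
    ‖(c.1.1 - 1 - (p : ℚ_[p]) ^ k • X) i j‖ ≤ ε * ‖(p : ℚ_[p]) ^ k‖

/-- The Eichler transformation. -/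
def eich {κ E : Type} [Fintype κ] [DecidableEq κ] [Field E] (S : Matrix κ κ E) (e w : κ → E) :
    Matrix κ κ E :=
  1 + vecMulVec w (e ᵥ* S) - vecMulVec e (w ᵥ* S) - (qf S w w / 2) • vecMulVec e (e ᵥ* S)

/-- `Γ` acts cocompactly on hyperbolic space through `ρ`. -/
def Cocpt {G : Type} [Group G] (ρ : G →* Oplus n) (Γ : Subgroup G) : Prop :=
  ∃ R : ℝ, ∀ x : Hyp n, ∃ g ∈ Γ, uu (orig n) (ρ g • x) ≤ R

end Pool.Agent.P.MP_3c2f8c_gt
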