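import Pool.Agent.P.MP_3c2f8c_gt.Gl.Abs1

/-! GL-3: a level with one class up to normalisers. -/

namespace Pool.Agent.P.MP_3c2f8c_gt

variable {P : Type} {U : P → Type} [∀ p, Group (U p)] [∀ p, TopologicalSpace (U p)]
  [∀ p, IsTopologicalGroup (U p)] {G G' : Type} [Group G] [Group G']
  {K₀ K₁ : ∀ p, Subgroup (U p)}

omit [∀ p, TopologicalSpace (U p)] [∀ p, IsTopologicalGroup (U p)] in
theorem exists_support {Φ : G →* ∀ p, U p} (hΦ : ∀ g, Φ g ∈ Ad K₁) (hf : FinCl Φ K₁)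
    (T : Finset P) (hwa : ∀ u : ∀ p, U p, ∃ g : G, ∀ p ∈ T,
      (Φ g p)⁻¹ * u p ∈ Subgroup.normalizer (K₁ p : Set (U p))) :
    ∃ T₁ : Finset P, ∀ u ∈ Ad K₁, ∃ g : G,
      (∀ p ∈ T, (Φ g p)⁻¹ * u p ∈ Subgroup.normalizer (K₁ p : Set (U p))) ∧
      ∀ p, p ∉ T₁ → (Φ g p)⁻¹ * u p ∈ K₁ p := by
  classical
  obtain ⟨s, hs, hcl⟩ := hf
  have hch : ∀ r : ∀ p, U p, ∃ v ∈ Ad K₁, ∃ g : G,
      (∃ v ∈ Ad K₁, (∀ p ∈ T, v p = 1) ∧ ∃ g : G, ∀ p, (r p)⁻¹ * (Φ g p)⁻¹ * v p ∈ K₁ p) →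
        (∀ p ∈ T, v p = 1) ∧ ∀ p, (r p)⁻¹ * (Φ g p)⁻¹ * v p ∈ K₁ p := by
    intro r
    by_cases h : ∃ v ∈ Ad K₁, (∀ p ∈ T, v p = 1) ∧
        ∃ g : G, ∀ p, (r p)⁻¹ * (Φ g p)⁻¹ * v p ∈ K₁ p
    · obtain ⟨v, hv, h1, g, hg⟩ := h
      exact ⟨v, hv, g, fun _ => ⟨h1, hg⟩⟩
    · exact ⟨1, one_mem _, 1, fun h' => absurd h' h⟩
  choose vr hvr gr hgr using hch
  have hfin : (⋃ r ∈ s, {p | vr r p ∉ K₁ p}).Finite := hs.biUnion fun r _ => hvr r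
  refine ⟨T ∪ hfin.toFinset, fun u hu => ?_⟩
  obtain ⟨g₁, hg₁⟩ := hwa u
  have hv : (Φ g₁)⁻¹ * u ∈ Ad K₁ := mul_mem (inv_mem (hΦ g₁)) hu
  let v' : ∀ p, U p := fun p => if p ∈ T then 1 else (Φ g₁ p)⁻¹ * u p
  have hv' : v' ∈ Ad K₁ := by
    refine Set.Finite.subset hv fun p hp => ?_
    by_cases h : p ∈ T
    · exact absurd (by simp only [v', if_pos h]; exact one_mem _) hp
    · intro h'
      exact hp (by simp only [v', if_neg h]; exact h')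
  obtain ⟨g, r, hr, hg⟩ := hcl v' hv'
  obtain ⟨h1, h2⟩ := hgr r ⟨v', hv', fun p hp => if_pos hp, g, hg⟩
  have h3 : ∀ p, (vr r p)⁻¹ * (Φ (gr r) p * (Φ g p)⁻¹ * v' p) ∈ K₁ p := fun p => by
    have := mul_mem (inv_mem (h2 p)) (hg p)
    simpa only [mul_inv_rev, inv_inv, mul_assoc, mul_inv_cancel_left] using this
  have e : ∀ p, (Φ (g₁ * g * (gr r)⁻¹) p)⁻¹ * u p =
      Φ (gr r) p * (Φ g p)⁻¹ * ((Φ g₁ p)⁻¹ * u p) := fun p => by
    simp only [map_mul, map_inv, Pi.mul_apply, Pi.inv_apply, mul_inv_rev, inv_inv, mul_assoc]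
  refine ⟨g₁ * g * (gr r)⁻¹, fun p hp => ?_, fun p hp => ?_⟩
  · rw [e]
    refine mul_mem (Subgroup.le_normalizer ?_) (hg₁ p hp)
    have := h3 p
    simpa only [h1 p hp, v', if_pos hp, inv_one, one_mul, mul_one] using this
  · rw [e]
    rw [Finset.mem_union, not_or] at hp
    have h4 : vr r p ∈ K₁ p := by
      by_contra h
      exact hp.2 (hfin.mem_toFinset.2 (Set.mem_biUnion hr h))
    have := mul_mem h4 (h3 p)
    simpa only [v', if_neg hp.1, mul_inv_cancel_left] using this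

namespace Abs2Aux

theorem oneCl_ind {Φ : G →* ∀ p, U p} {K : ∀ p, Subgroup (U p)} (hf : FinCl Φ K) (S : Finset P)
    (hS : ∀ p ∈ S, GoodLev (K p) ∧
      IsOpen (((Gam Φ K).map (cmp Φ p)).topologicalClosure : Set (U p)))
    (v : ∀ p, U p) (hv : ∀ p, p ∉ S → v p ∈ Subgroup.normalizer (K p : Set (U p))) :
    ∃ g : G, ∀ p, (Φ g p)⁻¹ * v p ∈ Subgroup.normalizer (K p : Set (U p)) := by
  classical
  induction S using Finset.induction_on generalizing v with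
  | empty => exact ⟨1, fun p => by simpa using hv p (Finset.notMem_empty p)⟩
  | insert p S hp ih =>
    obtain ⟨⟨hco, hres, -⟩, ho⟩ := hS p (Finset.mem_insert_self p S)
    obtain ⟨e, he, hev⟩ := hres (v p)
    obtain ⟨g, hg, hgp⟩ := strong_approx_one hf hco ho he
    obtain ⟨g', hg'⟩ := ih (fun p' hp' => hS p' (Finset.mem_insert_of_mem hp'))
      (fun p' => (Φ g p')⁻¹ * v p') (fun p' hp' => by
        by_cases h : p' = p
        · subst h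
          have := mul_mem (Subgroup.le_normalizer hgp) hev
          simpa only [mul_assoc, mul_inv_cancel_left] using this
        · exact mul_mem (inv_mem (Subgroup.le_normalizer (hg p' h)))
            (hv p' (by simp [h, hp'])))
    refine ⟨g * g', fun p' => ?_⟩
    simpa only [map_mul, Pi.mul_apply, mul_inv_rev, mul_assoc] using hg' p'

theorem oneCl_of {Φ : G →* ∀ p, U p} {K : ∀ p, Subgroup (U p)} (hf : FinCl Φ K)
    (had : Ad K = Ad K₁) (T T₁ S : Finset P)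
    (hS : ∀ p ∈ S, GoodLev (K p) ∧
      IsOpen (((Gam Φ K).map (cmp Φ p)).topologicalClosure : Set (U p)))
    (hK : ∀ p, p ∉ S → K p = K₁ p ∧ (p ∈ T ∨ p ∉ T₁))
    (h : ∀ u ∈ Ad K₁, ∃ g : G,
      (∀ p ∈ T, (Φ g p)⁻¹ * u p ∈ Subgroup.normalizer (K₁ p : Set (U p))) ∧
      ∀ p, p ∉ T₁ → (Φ g p)⁻¹ * u p ∈ K₁ p) : OneCl Φ K := by
  intro u hu
  obtain ⟨g, h1, h2⟩ := h u (had ▸ hu)
  obtain ⟨g', hg'⟩ := oneCl_ind hf S hS (fun p => (Φ g p)⁻¹ * u p) (fun p hp => by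
    obtain ⟨e, h3 | h3⟩ := hK p hp
    · rw [e]; exact h1 p h3
    · rw [e]; exact Subgroup.le_normalizer (h2 p h3))
  refine ⟨g * g', fun p' => ?_⟩
  simpa only [map_mul, Pi.mul_apply, mul_inv_rev, mul_assoc] using hg' p'

end Abs2Aux

theorem exists_good_level (h₁ : Level K₀ K₁) (Φ : G →* ∀ p, U p) (Φ' : G' →* ∀ p, U p)
    (hΦ : ∀ g, Φ g ∈ Ad K₀) (hΦ' : ∀ g, Φ' g ∈ Ad K₀) (T : Finset P) {q : P} (hq : q ∉ T)
    (hf : ∀ K, Level K₀ K → FinCl Φ K) (hf' : ∀ K, Level K₀ K → FinCl Φ' K)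
    (ho : ∀ K, Level K₀ K → ∀ p, p ∉ T →
      IsOpen (((Gam Φ K).map (cmp Φ p)).topologicalClosure : Set (U p)))
    (ho' : ∀ K, Level K₀ K → ∀ p, p ∉ T →
      IsOpen (((Gam Φ' K).map (cmp Φ' p)).topologicalClosure : Set (U p)))
    (hlev : ∀ p, p ∉ T → ∃ L : Subgroup (U p), GoodLev L)
    (hwa : ∀ u : ∀ p, U p, ∃ g : G, ∀ p ∈ T,
      (Φ g p)⁻¹ * u p ∈ Subgroup.normalizer (K₁ p : Set (U p)))
    (hwa' : ∀ u : ∀ p, U p, ∃ g : G', ∀ p ∈ T,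
      (Φ' g p)⁻¹ * u p ∈ Subgroup.normalizer (K₁ p : Set (U p))) :
    ∃ K, Level K₀ K ∧ (∀ p ∈ T, K p = K₁ p) ∧ (∀ g ∈ K q, IsOfFinOrder g → g = 1) ∧
      OneCl Φ K ∧ OneCl Φ' K := by
  classical
  obtain ⟨T₁, hT₁⟩ := exists_support (fun g => h₁.ad_eq ▸ hΦ g) (hf K₁ h₁) T hwa
  obtain ⟨T₂, hT₂⟩ := exists_support (fun g => h₁.ad_eq ▸ hΦ' g) (hf' K₁ h₁) T hwa'
  have hlev' : ∀ p, ∃ L : Subgroup (U p), p ∉ T → GoodLev L := fun p => by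
    by_cases h : p ∈ T
    · exact ⟨⊥, fun h' => absurd h h'⟩
    · obtain ⟨L, hL⟩ := hlev p h
      exact ⟨L, fun _ => hL⟩
  choose L hL using hlev'
  let S : Finset P := (insert q (T₁ ∪ T₂)) \ T
  let K : ∀ p, Subgroup (U p) := fun p => if p ∈ S then L p else K₁ p
  have hST : ∀ p ∈ S, p ∉ T := fun p hp => (Finset.mem_sdiff.1 hp).2
  have hKS : ∀ p ∈ S, GoodLev (K p) := fun p hp => by
    simp only [K, if_pos hp]
    exact hL p (hST p hp)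
  have hKn : ∀ p, p ∉ S → K p = K₁ p := fun p hp => if_neg hp
  have hK : Level K₀ K := by
    refine ⟨fun p => ?_, (h₁.2.union S.finite_toSet).subset fun p hp => ?_⟩
    · by_cases h : p ∈ S
      · exact (hKS p h).1
      · rw [hKn p h]; exact h₁.1 p
    · by_cases h : p ∈ S
      · exact Or.inr h
      · exact Or.inl (by rw [Set.mem_ofPred_eq, ← hKn p h]; exact hp)
  have had : Ad K = Ad K₁ := hK.ad_eq.trans h₁.ad_eq.symm
  have hn : ∀ p, p ∉ S → p ∈ T ∨ (p ∉ T₁ ∧ p ∉ T₂) := fun p hp => by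
    by_cases h : p ∈ T
    · exact Or.inl h
    · refine Or.inr ⟨fun h' => hp ?_, fun h' => hp ?_⟩ <;> simp [S, h, h']
  refine ⟨K, hK, fun p hp => hKn p fun h => hST p h hp, (hKS q (by simp [S, hq])).2.2, ?_, ?_⟩
  · exact Abs2Aux.oneCl_of (hf K hK) had T T₁ S (fun p hp => ⟨hKS p hp, ho K hK p (hST p hp)⟩)
      (fun p hp => ⟨hKn p hp, (hn p hp).imp_right And.left⟩) hT₁
  · exact Abs2Aux.oneCl_of (hf' K hK) had T T₂ S (fun p hp => ⟨hKS p hp, ho' K hK p (hST p hp)⟩)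
      (fun p hp => ⟨hKn p hp, (hn p hp).imp_right And.right⟩) hT₂

end Pool.Agent.P.MP_3c2f8c_gt
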