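import Pool.Agent.P.MP_3c2f8c_gt.Gl.FDefs
import Pool.Agent.P.MP_3c2f8c_gt.An.Moment

/-! GL-4: the set of adelic cosets. -/

namespace Pool.Agent.P.MP_3c2f8c_gt

variable {P : Type} {U : P → Type} [∀ p, Group (U p)] {G G' : Type} [Group G] [Group G']
  {K : ∀ p, Subgroup (U p)}

theorem zAct_smul_apply (Φ : G →* ∀ p, U p) (h : ∀ g, Φ g ∈ Ad K) (g : G) (z : Zs K) (p : P) :
    letI := zAct Φ K h
    (g • z).1 p = Φ g p • z.1 p := rfl

theorem exists_smul_z0 (z : Zs K) : ∃ u : Ad K, u • z0 K = z := by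
  classical
  refine ⟨⟨fun p => if z.1 p = ((1 : U p) : U p ⧸ K p) then 1 else (z.1 p).out,
    z.2.subset fun p hp h => hp ?_⟩, Subtype.ext (funext fun p => ?_)⟩
  · simp only [if_pos h]
    exact one_mem _
  · show (if z.1 p = ((1 : U p) : U p ⧸ K p) then 1 else (z.1 p).out) • ((1 : U p) : U p ⧸ K p) = _
    rw [MulAction.Quotient.smul_mk, smul_eq_mul, mul_one]
    split_ifs with h
    · exact h.symm
    · exact QuotientGroup.out_eq' _

theorem zAct_smul_eq_iff (Φ : G →* ∀ p, U p) (h : ∀ g, Φ g ∈ Ad K) (g : G) (u u' : Ad K) :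
    letI := zAct Φ K h
    g • (u • z0 K) = u' • z0 K ↔ ∀ p, (u'.1 p)⁻¹ * Φ g p * u.1 p ∈ K p := by
  refine (Subtype.ext_iff.trans funext_iff).trans (forall_congr' fun p => ?_)
  show Φ g p • u.1 p • ((1 : U p) : U p ⧸ K p) = u'.1 p • ((1 : U p) : U p ⧸ K p) ↔ _
  rw [MulAction.Quotient.smul_mk, MulAction.Quotient.smul_mk, MulAction.Quotient.smul_mk,
    eq_comm, QuotientGroup.eq]
  simp only [smul_eq_mul, mul_one, mul_assoc]

theorem stabilizer_z0 (Φ : G →* ∀ p, U p) (h : ∀ g, Φ g ∈ Ad K) :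
    letI := zAct Φ K h
    MulAction.stabilizer G (z0 K) = Gam Φ K := by
  letI := zAct Φ K h
  ext g
  have := zAct_smul_eq_iff Φ h g 1 1
  rw [one_smul] at this
  rw [MulAction.mem_stabilizer_iff, this]
  simp [Gam, Subgroup.mem_pi]

theorem OneCl.stabilizer {Φ : G →* ∀ p, U p} (h : ∀ g, Φ g ∈ Ad K) (h1 : OneCl Φ K) (z : Zs K) :
    letI := zAct Φ K h
    ∃ g : G, MulAction.stabilizer G z = MulAction.stabilizer G (g • z0 K) := by
  letI := zAct Φ K h
  obtain ⟨u, rfl⟩ := exists_smul_z0 z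
  obtain ⟨g, hg⟩ := h1 u.1 u.2
  refine ⟨g, Subgroup.ext fun x => ?_⟩
  rw [MulAction.mem_stabilizer_iff, MulAction.mem_stabilizer_iff, zAct_smul_eq_iff Φ h x u u]
  refine Iff.trans ?_ (zAct_smul_eq_iff Φ h x ⟨Φ g, h g⟩ ⟨Φ g, h g⟩).symm
  refine forall_congr' fun p => ?_
  rw [Subgroup.mem_normalizer_iff''.1 (hg p) ((Φ g p)⁻¹ * Φ x p * Φ g p)]
  simp [mul_assoc]

namespace Abs3Aux

open Classical in
/-- Change the component at `l`. -/
noncomputable def upd (l : P) (z : Zs K) (c : U l ⧸ K l) : Zs K :=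
  ⟨Function.update z.1 l c, (z.2.insert l).subset fun p hp => by
    by_cases h : p = l
    · exact Or.inl h
    · exact Or.inr (by simpa [Function.update_of_ne h] using hp)⟩

theorem upd_self (l : P) (z : Zs K) (c : U l ⧸ K l) : (upd l z c).1 l = c := by
  simp [upd]

theorem upd_ne {l p : P} (z : Zs K) (c : U l ⧸ K l) (h : p ≠ l) : (upd l z c).1 p = z.1 p := by
  classical
  simp [upd, Function.update_of_ne h]

theorem eq_upd {l : P} {z z' : Zs K} (h : ∀ p, p ≠ l → z.1 p = z'.1 p) :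
    upd l z (z'.1 l) = z' := by
  refine Subtype.ext (funext fun p => ?_)
  by_cases hp : p = l
  · subst hp
    exact upd_self _ _ _
  · rw [upd_ne _ _ hp, h p hp]

theorem ne_zero {l : P} {κ : U l ⧸ K l → U l ⧸ K l → ℕ} {z z' : Zs K}
    (h : kerAt K l κ z z' ≠ 0) : (∀ p, p ≠ l → z.1 p = z'.1 p) ∧ κ (z.1 l) (z'.1 l) ≠ 0 := by
  unfold kerAt at h
  split_ifs at h with h1
  · exact ⟨h1, h⟩
  · exact absurd rfl h

theorem kerAt_congr {l : P} {κ : U l ⧸ K l → U l ⧸ K l → ℕ} {z z' w w' : Zs K}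
    (h : ∀ p, w.1 p = w'.1 p ↔ z.1 p = z'.1 p)
    (h' : κ (w.1 l) (w'.1 l) = κ (z.1 l) (z'.1 l)) : kerAt K l κ w w' = kerAt K l κ z z' := by
  by_cases h1 : ∀ p, p ≠ l → z.1 p = z'.1 p
  · rw [kerAt, kerAt, if_pos h1, if_pos fun p hp => (h p).2 (h1 p hp), h']
  · rw [kerAt, kerAt, if_neg h1, if_neg fun h2 => h1 fun p hp => (h p).1 (h2 p hp)]

end Abs3Aux

theorem hk_kerAt (l : P) {κ : U l ⧸ K l → U l ⧸ K l → ℕ} (hκ : HK κ) : HK (kerAt K l κ) := by
  refine ⟨fun z => ((hκ.fin (z.1 l)).image (Abs3Aux.upd l z)).subset fun z' hz' => ?_,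
    fun f hf => funext fun z => ?_⟩
  · exact ⟨z'.1 l, (Abs3Aux.ne_zero hz').2, Abs3Aux.eq_upd (Abs3Aux.ne_zero hz').1⟩
  · have hinj : Function.Injective (Abs3Aux.upd l z) := fun c c' e => by
      rw [← Abs3Aux.upd_self l z c, e, Abs3Aux.upd_self]
    have := hκ.inj (fun c => f (Abs3Aux.upd l z c)) fun c => by
      rw [← hf (Abs3Aux.upd l z c)]
      have e : ∀ c', kerAt K l κ (Abs3Aux.upd l z c) (Abs3Aux.upd l z c') = κ c c' := fun c' => by
        rw [kerAt, if_pos fun p hp => by rw [Abs3Aux.upd_ne _ _ hp, Abs3Aux.upd_ne _ _ hp],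
          Abs3Aux.upd_self, Abs3Aux.upd_self]
      simp only [← e]
      rw [← finsum_mem_range (f := fun z' => (kerAt K l κ (Abs3Aux.upd l z c) z' : ℝ) * f z') hinj,
        finsum_mem_def, Set.indicator_eq_self.2]
      intro z' hz'
      have h1 : kerAt K l κ (Abs3Aux.upd l z c) z' ≠ 0 := fun h0 => hz' (by simp [h0])
      exact ⟨z'.1 l, Abs3Aux.eq_upd fun p hp => by
        rw [← (Abs3Aux.ne_zero h1).1 p hp, Abs3Aux.upd_ne _ _ hp]⟩
    have h2 := congrFun this (z.1 l)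
    rwa [Abs3Aux.eq_upd fun _ _ => rfl] at h2

theorem kerAt_smul (l : P) {κ : U l ⧸ K l → U l ⧸ K l → ℕ}
    (hinv : ∀ (g : U l) z z', κ (g • z) (g • z') = κ z z') (u : Ad K) (z z' : Zs K) :
    kerAt K l κ (u • z) (u • z') = kerAt K l κ z z' :=
  Abs3Aux.kerAt_congr (fun p => smul_left_cancel_iff (u.1 p)) (hinv _ _ _)

theorem chain_kerAt (l : P) {κ : U l ⧸ K l → U l ⧸ K l → ℕ} {m : ℕ} {z z' : Zs K}
    (h : Chain (kerAt K l κ) m z z') : Chain κ m (z.1 l) (z'.1 l) := by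
  induction m generalizing z with
  | zero => exact congrArg (fun w : Zs K => w.1 l) h
  | succ m ih =>
    obtain ⟨y, h1, h2⟩ := h
    exact ⟨y.1 l, (Abs3Aux.ne_zero h1).2, ih h2⟩

/-- Matching of two elements from adelic and real conjugators. -/
theorem matched_of {n : ℕ} (Φ : G →* ∀ p, U p) (Φ' : G' →* ∀ p, U p) (h : ∀ g, Φ g ∈ Ad K)
    (h' : ∀ g, Φ' g ∈ Ad K) (ρ : G →* Oplus n) (ρ' : G' →* Oplus n) (l : P)
    {κ : U l ⧸ K l → U l ⧸ K l → ℕ} (hinv : ∀ (g : U l) z z', κ (g • z) (g • z') = κ z z')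
    {γ : G} {γ' : G'} (τ : Subgroup.centralizer {γ} ≃* Subgroup.centralizer {γ'})
    (hτ : ∀ t : Subgroup.centralizer {γ}, (t : G) = γ → (τ t : G') = γ')
    (hc : ∀ t t' : Subgroup.centralizer {γ}, t * t' = t' * t) {u : ∀ p, U p} (hu : u ∈ Ad K)
    (ε : P → ℤ) (hε : ∀ p, ε p = 1 ∨ ε p = -1) (hε' : {p | ε p ≠ 1}.Finite) (hl : ε l = 1)
    (hu' : ∀ p (t : Subgroup.centralizer {γ}), Φ' (τ t) p * u p = u p * Φ t p ^ ε p)
    (g : Oplus n) (hg : ∀ t : Subgroup.centralizer {γ}, ρ' (τ t) * g = g * ρ t) :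
    letI := zAct Φ K h
    letI := zAct Φ' K h'
    letI := MulAction.compHom (Hyp n) ρ
    letI := MulAction.compHom (Hyp n) ρ'
    Matched (n := n) (kerAt K l κ) γ γ' := by
  letI := zAct Φ K h
  letI := zAct Φ' K h'
  letI := MulAction.compHom (Hyp n) ρ
  letI := MulAction.compHom (Hyp n) ρ'
  have key : ∀ p, ∃ ι : U p ⧸ K p ≃ U p ⧸ K p, (ε p = 1 → ∀ y, ι y = y) ∧
      ∀ (t : Subgroup.centralizer {γ}) y, ι (Φ t p • y) = (Φ t p ^ ε p) • ι y := fun p => by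
    rcases hε p with e | e
    · exact ⟨Equiv.refl _, fun _ _ => rfl, fun t y => by rw [e, zpow_one]; rfl⟩
    · letI := MulAction.compHom (U p ⧸ K p) ((cmp Φ p).comp (Subgroup.centralizer {γ}).subtype)
      obtain ⟨ι, hι⟩ := exists_inv_equiv (Y := U p ⧸ K p) hc
      refine ⟨ι, fun e' => absurd (e.symm.trans e') (by decide), fun t y => ?_⟩
      rw [e, zpow_neg_one]
      refine (hι t y).trans ?_
      show ((cmp Φ p).comp (Subgroup.centralizer {γ}).subtype) t⁻¹ • ι y = _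
      rw [map_inv]
      rfl
  choose ι h1 h2 using key
  let e : ∀ p, U p ⧸ K p ≃ U p ⧸ K p := fun p => (ι p).trans (MulAction.toPerm (u p))
  have he : ∀ p y, e p y = u p • ι p y := fun _ _ => rfl
  have hfix : ∀ p, p ∉ {p | u p ∉ K p} ∪ {p | ε p ≠ 1} →
      e p ((1 : U p) : U p ⧸ K p) = ((1 : U p) : U p ⧸ K p) := fun p hp => by
    simp only [Set.mem_union, Set.mem_setOf_eq, not_or, not_not] at hp
    rw [he, h1 p hp.2, MulAction.Quotient.smul_mk, smul_eq_mul, mul_one, QuotientGroup.eq]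
    simpa using hp.1
  have hfin : ({p | u p ∉ K p} ∪ {p | ε p ≠ 1}).Finite := Set.Finite.union hu hε'
  let Ψ : Zs K ≃ Zs K := Equiv.subtypeEquiv (Equiv.piCongrRight e) fun z =>
    ⟨fun hz => (hz.union hfin).subset fun p hp => by
      by_contra h0
      rw [Set.mem_union, not_or] at h0
      apply hp
      have h3 : z p = ((1 : U p) : U p ⧸ K p) := not_not.1 h0.1
      show e p (z p) = _
      rw [h3, hfix p h0.2],
    fun hz => (hz.union hfin).subset fun p hp => by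
      by_contra h0
      rw [Set.mem_union, not_or] at h0
      have h3 : e p (z p) = ((1 : U p) : U p ⧸ K p) := not_not.1 h0.1
      exact hp ((e p).injective (h3.trans (hfix p h0.2).symm))⟩
  have hΨ : ∀ z p, (Ψ z).1 p = e p (z.1 p) := fun _ _ => rfl
  refine ⟨τ, g, Ψ, hτ, fun t x => ?_, fun t z => Subtype.ext (funext fun p => ?_), fun z z' =>
    Abs3Aux.kerAt_congr (fun p => (e p).injective.eq_iff) ?_⟩
  · show g • ρ t • x = ρ' (τ t) • g • x
    rw [← mul_smul, ← mul_smul, hg]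
  · show e p (Φ t p • z.1 p) = Φ' (τ t) p • e p (z.1 p)
    rw [he, he, h2, ← mul_smul, ← mul_smul, hu']
  · rw [hΨ, hΨ, he, he, hinv, h1 l hl, h1 l hl]

end Pool.Agent.P.MP_3c2f8c_gt
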