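import Pool.Agent.P.MP_3c2f8c_gt.Qu.Nrd

/-! GL-1: integrality and finiteness. -/

set_option linter.unusedSectionVars false
set_option linter.unusedFintypeInType false

namespace Pool.Agent.P.MP_3c2f8c_gt

open Matrix

variable {a b : ℤ} {ι κ : Type} [Fintype ι] [Fintype κ]

theorem mem_intQ {p : ℕ} [Fact p.Prime] (z : Q a b ℚ_[p]) :
    z ∈ intQ a b p ↔ ‖z.re‖ ≤ 1 ∧ ‖z.imI‖ ≤ 1 ∧ ‖z.imJ‖ ≤ 1 ∧ ‖z.imK‖ ≤ 1 := by
  constructor
  · rintro ⟨w, rfl⟩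
    exact ⟨w.re.2, w.imI.2, w.imJ.2, w.imK.2⟩
  · rintro ⟨h1, h2, h3, h4⟩
    exact ⟨⟨⟨z.re, h1⟩, ⟨z.imI, h2⟩, ⟨z.imJ, h3⟩, ⟨z.imK, h4⟩⟩, rfl⟩

theorem IntM.conjTranspose {p : ℕ} [Fact p.Prime] {g : Matrix ι κ (Q a b ℚ_[p])} (hg : IntM g) :
    IntM gᴴ := fun i j => by
  have h := (mem_intQ _).1 (hg j i)
  rw [mem_intQ, conjTranspose_apply]
  simpa using h

theorem IntM.smul {p : ℕ} [Fact p.Prime] {g : Matrix ι κ (Q a b ℚ_[p])} (hg : IntM g)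
    {c : ℚ_[p]} (hc : ‖c‖ ≤ 1) : IntM (c • g) := fun i j => by
  obtain ⟨h1, h2, h3, h4⟩ := (mem_intQ _).1 (hg i j)
  have key : ∀ x : ℚ_[p], ‖x‖ ≤ 1 → ‖c * x‖ ≤ 1 := fun x hx => by
    rw [norm_mul]
    exact mul_le_one₀ hc (norm_nonneg _) hx
  exact (mem_intQ _).2 ⟨key _ h1, key _ h2, key _ h3, key _ h4⟩

theorem intM_bc_int (p : ℕ) [Fact p.Prime] (g : Matrix ι κ (Q a b ℤ)) :
    IntM (bc (Int.castRingHom ℚ_[p]) g) := fun _ _ =>
  (mem_intQ _).2 ⟨Padic.norm_int_le_one _, Padic.norm_int_le_one _, Padic.norm_int_le_one _,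
    Padic.norm_int_le_one _⟩

theorem exists_pow_smul_intM {p : ℕ} [Fact p.Prime] (g : Matrix ι κ (Q a b ℚ_[p])) :
    ∃ k : ℕ, IntM ((p : ℚ_[p]) ^ k • g) := by
  have key : ∀ x : ℚ_[p], ∀ᶠ k : ℕ in Filter.atTop, ‖(p : ℚ_[p]) ^ k * x‖ ≤ 1 := fun x => by
    have h := ((tendsto_pow_atTop_nhds_zero_of_norm_lt_one
      (Padic.norm_p_lt_one (p := p))).mul_const x).norm
    rw [zero_mul, norm_zero] at h
    exact h.eventually (ge_mem_nhds one_pos)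
  have h : ∀ᶠ k : ℕ in Filter.atTop, ∀ i j, ((p : ℚ_[p]) ^ k • g) i j ∈ intQ a b p :=
    Filter.eventually_all.2 fun i => Filter.eventually_all.2 fun j =>
      ((key (g i j).re).and ((key (g i j).imI).and ((key (g i j).imJ).and
        (key (g i j).imK)))).mono fun k hk => (mem_intQ _).2 hk
  exact h.exists

namespace FinAux

theorem eventually_norm_le (x : ℚ) :
    ∀ᶠ p : Nat.Primes in Filter.cofinite, ‖ra ℚ_[p] x‖ ≤ 1 := by
  rw [Filter.eventually_cofinite]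
  refine ((Set.finite_Iic x.den).preimage Subtype.val_injective.injOn).subset fun p hp => ?_
  by_contra h
  exact hp (Padic.norm_rat_le_one fun hd => h (Nat.le_of_dvd x.den_pos hd))

theorem exists_intCast {x : ℚ} (h : ∀ p : Nat.Primes, ‖ra ℚ_[p] x‖ ≤ 1) : ∃ n : ℤ, (n : ℚ) = x := by
  refine ⟨x.num, Rat.coe_int_num_of_den_eq_one ?_⟩
  by_contra hd
  obtain ⟨p, hp, hpd⟩ := Nat.exists_prime_and_dvd hd
  have := Fact.mk hp
  have h1 : ‖(x : ℚ_[p])‖ ≤ 1 := h ⟨p, hp⟩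
  have h2 : (x.num : ℚ_[p]) = (x : ℚ_[p]) * (x.den : ℚ_[p]) := by
    exact_mod_cast (Rat.mul_den_eq_num x).symm
  have h3 : ‖(x.num : ℚ_[p])‖ < 1 := by
    rw [h2, norm_mul]
    exact mul_lt_one_of_nonneg_of_lt_one_right h1 (norm_nonneg _)
      (Padic.norm_natCast_lt_one_iff.2 hpd)
  have h4 : p ∣ x.num.natAbs := Int.natCast_dvd.1 (Padic.norm_intCast_lt_one_iff.1 h3)
  exact hp.one_lt.ne' (Nat.eq_one_of_dvd_coprimes x.reduced h4 hpd)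

theorem finite_rat {M : ℕ} (hM : 0 < M) (C : ℝ) :
    {x : ℚ | (∀ p : Nat.Primes, ‖(M : ℚ_[p]) * ra ℚ_[p] x‖ ≤ 1) ∧ |ra ℝ x| ≤ C}.Finite := by
  refine ((Set.finite_Icc (-⌈M * C⌉) ⌈M * C⌉).image fun n : ℤ => (n : ℚ) / M).subset ?_
  rintro x ⟨h1, h2⟩
  obtain ⟨n, hn⟩ := exists_intCast (x := M * x) fun p => by simpa using h1 p
  have hM' : (M : ℚ) ≠ 0 := by positivity
  refine ⟨n, abs_le.1 ?_, by simp [hn, hM']⟩
  have h3 : (n : ℝ) = M * (x : ℝ) := by exact_mod_cast hn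
  have h4 : |(n : ℝ)| ≤ M * C := by
    rw [h3, abs_mul, Nat.abs_cast]
    exact mul_le_mul_of_nonneg_left h2 (Nat.cast_nonneg _)
  exact_mod_cast h4.trans (Int.le_ceil _)

theorem finite_quat {T : Set ℚ} (hT : T.Finite) :
    {z : Q a b ℚ | z.re ∈ T ∧ z.imI ∈ T ∧ z.imJ ∈ T ∧ z.imK ∈ T}.Finite := by
  refine ((hT.prod (hT.prod (hT.prod hT))).image fun x : ℚ × ℚ × ℚ × ℚ =>
    (⟨x.1, x.2.1, x.2.2.1, x.2.2.2⟩ : Q a b ℚ)).subset fun z hz => ?_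
  exact ⟨(z.re, z.imI, z.imJ, z.imK), hz, rfl⟩

/-- A bound for the coordinates of a quaternion. -/
def BQ (C : ℝ) (z : Q a b ℝ) : Prop := |z.re| ≤ C ∧ |z.imI| ≤ C ∧ |z.imJ| ≤ C ∧ |z.imK| ≤ C

theorem BQ.mono {C D : ℝ} {z : Q a b ℝ} (h : BQ C z) (hCD : C ≤ D) : BQ D z :=
  ⟨h.1.trans hCD, h.2.1.trans hCD, h.2.2.1.trans hCD, h.2.2.2.trans hCD⟩

theorem BQ.add {C D : ℝ} {x y : Q a b ℝ} (hx : BQ C x) (hy : BQ D y) : BQ (C + D) (x + y) :=
  ⟨(abs_add_le _ _).trans (add_le_add hx.1 hy.1), (abs_add_le _ _).trans (add_le_add hx.2.1 hy.2.1),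
    (abs_add_le _ _).trans (add_le_add hx.2.2.1 hy.2.2.1),
    (abs_add_le _ _).trans (add_le_add hx.2.2.2 hy.2.2.2)⟩

theorem BQ.sum {C : ℝ} {f : ι → Q a b ℝ} (h : ∀ k, BQ C (f k)) (s : Finset ι) :
    BQ (s.card * C) (∑ k ∈ s, f k) := by
  classical
  induction s using Finset.induction_on with
  | empty => simp [BQ]
  | insert k s hk ih =>
    rw [Finset.sum_insert hk, Finset.card_insert_of_notMem hk]
    refine ((h k).add ih).mono (le_of_eq ?_)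
    push_cast
    ring

theorem BQ.mul {C D : ℝ} {x y : Q a b ℝ} (hx : BQ C x) (hy : BQ D y) :
    BQ (4 * ((1 + |(a : ℝ)|) * (1 + |(b : ℝ)|) * (C * D))) (x * y) := by
  have ha := abs_nonneg (a : ℝ)
  have hb := abs_nonneg (b : ℝ)
  have key : ∀ c u v : ℝ, |c| ≤ (1 + |(a : ℝ)|) * (1 + |(b : ℝ)|) → |u| ≤ C → |v| ≤ D →
      |c * (u * v)| ≤ (1 + |(a : ℝ)|) * (1 + |(b : ℝ)|) * (C * D) := fun c u v hc hu hv => by
    rw [abs_mul, abs_mul]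
    exact mul_le_mul hc (mul_le_mul hu hv (abs_nonneg _) ((abs_nonneg _).trans hu))
      (by positivity) (by positivity)
  have k1 := fun u v => key 1 u v (by rw [abs_one]; nlinarith [mul_nonneg ha hb])
  have ka := fun u v => key a u v (by nlinarith [mul_nonneg ha hb])
  have kb := fun u v => key b u v (by nlinarith [mul_nonneg ha hb])
  have kab := fun u v => key (a * b) u v (by rw [abs_mul]; nlinarith)
  obtain ⟨x1, x2, x3, x4⟩ := hx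
  obtain ⟨y1, y2, y3, y4⟩ := hy
  refine ⟨abs_le.2 ?_, abs_le.2 ?_, abs_le.2 ?_, abs_le.2 ?_⟩
  · rw [QuaternionAlgebra.re_mul]
    constructor <;> linarith [abs_le.1 (k1 _ _ x1 y1), abs_le.1 (ka _ _ x2 y2),
      abs_le.1 (kb _ _ x3 y3), abs_le.1 (kab _ _ x4 y4)]
  · rw [QuaternionAlgebra.imI_mul]
    constructor <;> linarith [abs_le.1 (k1 _ _ x1 y2), abs_le.1 (k1 _ _ x2 y1),
      abs_le.1 (kb _ _ x3 y4), abs_le.1 (kb _ _ x4 y3)]
  · rw [QuaternionAlgebra.imJ_mul]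
    constructor <;> linarith [abs_le.1 (k1 _ _ x1 y3), abs_le.1 (k1 _ _ x3 y1),
      abs_le.1 (ka _ _ x2 y4), abs_le.1 (ka _ _ x4 y2)]
  · rw [QuaternionAlgebra.imK_mul]
    constructor <;> linarith [abs_le.1 (k1 _ _ x1 y4), abs_le.1 (k1 _ _ x4 y1),
      abs_le.1 (k1 _ _ x2 y3), abs_le.1 (k1 _ _ x3 y2)]

end FinAux

theorem finite_not_intM (g : Matrix ι κ (Q a b ℚ)) :
    {p : Nat.Primes | ¬ IntM (bc (ra ℚ_[p]) g)}.Finite := by
  rw [← Filter.eventually_cofinite]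
  exact Filter.eventually_all.2 fun i => Filter.eventually_all.2 fun j =>
    ((FinAux.eventually_norm_le (g i j).re).and ((FinAux.eventually_norm_le (g i j).imI).and
      ((FinAux.eventually_norm_le (g i j).imJ).and (FinAux.eventually_norm_le (g i j).imK)))).mono
      fun p hp => (mem_intQ _).2 hp

theorem exists_int (g : Matrix ι κ (Q a b ℚ)) (h : ∀ p : Nat.Primes, IntM (bc (ra ℚ_[p]) g)) :
    ∃ g₀ : Matrix ι κ (Q a b ℤ), bc (Int.castRingHom ℚ) g₀ = g := by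
  have key : ∀ i j, ∃ z : Q a b ℤ, qmap a b (Int.castRingHom ℚ) z = g i j := fun i j => by
    have h1 := fun p => (mem_intQ _).1 (h p i j)
    obtain ⟨n1, e1⟩ := FinAux.exists_intCast (x := (g i j).re) fun p => (h1 p).1
    obtain ⟨n2, e2⟩ := FinAux.exists_intCast (x := (g i j).imI) fun p => (h1 p).2.1
    obtain ⟨n3, e3⟩ := FinAux.exists_intCast (x := (g i j).imJ) fun p => (h1 p).2.2.1
    obtain ⟨n4, e4⟩ := FinAux.exists_intCast (x := (g i j).imK) fun p => (h1 p).2.2.2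
    exact ⟨⟨n1, n2, n3, n4⟩, QuaternionAlgebra.ext e1 e2 e3 e4⟩
  choose z hz using key
  exact ⟨Matrix.of z, Matrix.ext hz⟩

theorem finite_of_bounded {M : ℕ} (hM : 0 < M) (C : ℝ) :
    {g : Matrix ι κ (Q a b ℚ) | (∀ p : Nat.Primes, IntM ((M : ℚ_[p]) • bc (ra ℚ_[p]) g)) ∧
      BdR C (bc (ra ℝ) g)}.Finite := by
  refine (Set.Finite.pi' fun _ : ι => Set.Finite.pi' fun _ : κ =>
    FinAux.finite_quat (a := a) (b := b) (FinAux.finite_rat hM C)).subset ?_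
  rintro g ⟨h1, h2⟩ i j
  have h3 := fun p => (mem_intQ _).1 (h1 p i j)
  exact ⟨⟨fun p => (h3 p).1, (h2 i j).1⟩, ⟨fun p => (h3 p).2.1, (h2 i j).2.1⟩,
    ⟨fun p => (h3 p).2.2.1, (h2 i j).2.2.1⟩, fun p => (h3 p).2.2.2, (h2 i j).2.2.2⟩

theorem BdR.mul [DecidableEq ι] {C : ℝ} (h : Matrix ι ι (Q a b ℝ)) :
    ∃ C' : ℝ, ∀ g : Matrix ι ι (Q a b ℝ), BdR C g → BdR C' (g * h) ∧ BdR C' (h * g) ∧
      BdR C' gᴴ := by
  obtain ⟨D, hD⟩ := Finite.exists_le fun k : ι × ι => max (max |(h k.1 k.2).re| |(h k.1 k.2).imI|)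
    (max |(h k.1 k.2).imJ| |(h k.1 k.2).imK|)
  have hh : ∀ i j, FinAux.BQ D (h i j) := fun i j => by
    have := hD (i, j)
    simp only [max_le_iff] at this
    exact ⟨this.1.1, this.1.2, this.2.1, this.2.2⟩
  refine ⟨max (Fintype.card ι * (4 * ((1 + |(a : ℝ)|) * (1 + |(b : ℝ)|) * (C * D)))) C,
    fun g hg => ⟨fun i j => ?_, fun i j => ?_, fun i j => ?_⟩⟩
  · exact (FinAux.BQ.sum (fun k => FinAux.BQ.mul (hg i k) (hh k j)) Finset.univ).mono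
      (le_max_left _ _)
  · rw [mul_comm C D]
    exact (FinAux.BQ.sum (fun k => FinAux.BQ.mul (hh i k) (hg k j)) Finset.univ).mono
      (le_max_left _ _)
  · refine FinAux.BQ.mono (C := C) ?_ (le_max_right _ _)
    rw [conjTranspose_apply]
    simpa [FinAux.BQ] using hg j i

/-- A common denominator for finitely many primes. -/
theorem exists_denominator (P : Finset Nat.Primes) (k : Nat.Primes → ℕ) :
    ∃ M : ℕ, 0 < M ∧ ∀ p ∈ P, ‖(M : ℚ_[p])‖ ≤ ‖(p.1 : ℚ_[p]) ^ k p‖ := by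
  refine ⟨∏ q ∈ P, q.1 ^ k q, Finset.prod_pos fun q _ => pow_pos q.2.pos _, fun p hp => ?_⟩
  obtain ⟨c, hc⟩ := Finset.dvd_prod_of_mem (fun q : Nat.Primes => q.1 ^ k q) hp
  rw [hc, Nat.cast_mul, Nat.cast_pow, norm_mul]
  exact mul_le_of_le_one_right (norm_nonneg _) (by simpa using Padic.norm_int_le_one (c : ℤ))

end Pool.Agent.P.MP_3c2f8c_gt
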