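import Pool.Agent.P.MP_3c2f8c_gt.Gl.Hermite
import Pool.Agent.P.MP_3c2f8c_gt.Qu.Defs
import Pool.Agent.P.MP_3c2f8c_gt.NT.WA

/-! GL-6: short bases of lattices with a fixed bilinear form. -/

namespace Pool.Agent.P.MP_3c2f8c_gt

open Matrix

variable {κ : Type} [Fintype κ] [DecidableEq κ]

set_option linter.unusedSectionVars false

namespace ShortAux

theorem norm_nat_le {p : ℕ} [Fact p.Prime] (n : ℕ) : ‖(n : ℚ_[p])‖ ≤ 1 :=
  IsUltrametricDist.norm_natCast_le_one _ n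

theorem sum_le {p : ℕ} [Fact p.Prime] {a b : κ → ℚ_[p]} (ha : ∀ j, ‖a j‖ ≤ 1)
    (hb : ∀ j, ‖b j‖ ≤ 1) : ‖∑ j, a j * b j‖ ≤ 1 :=
  IsUltrametricDist.norm_sum_le_of_forall_le_of_nonneg zero_le_one fun j _ => by
    rw [norm_mul]
    exact mul_le_one₀ (ha j) (norm_nonneg _) (hb j)

theorem exists_pow {p : ℕ} [Fact p.Prime] (y : κ → ℚ_[p]) :
    ∃ k : ℕ, ∀ i, ‖((p ^ k : ℕ) : ℚ_[p]) * y i‖ ≤ 1 := by
  have h0 : 0 < ‖y‖ + 1 := by positivity
  obtain ⟨k, hk⟩ := PadicInt.exists_pow_neg_lt p (inv_pos.2 h0)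
  refine ⟨k, fun i => ?_⟩
  rw [norm_mul, Nat.cast_pow, Padic.norm_p_pow]
  have h1 : ‖y i‖ ≤ ‖y‖ + 1 := (norm_le_pi_norm y i).trans (by linarith)
  refine (mul_le_mul hk.le h1 (norm_nonneg _) (inv_pos.2 h0).le).trans ?_
  rw [inv_mul_cancel₀ h0.ne']

theorem exists_mult (y : ∀ q : Nat.Primes, κ → ℚ_[q])
    (hy : {q : Nat.Primes | ¬ ∀ i, ‖y q i‖ ≤ 1}.Finite) (T : Finset Nat.Primes) :
    ∃ D : ℕ, 0 < D ∧ (∀ p ∈ T, D.Coprime p) ∧
      ∀ q : Nat.Primes, q ∉ T → ∀ i, ‖(D : ℚ_[q]) * y q i‖ ≤ 1 := by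
  classical
  choose k hk using fun q : Nat.Primes => exists_pow (y q)
  refine ⟨∏ q ∈ hy.toFinset \ T, q.1 ^ k q, Finset.prod_pos fun q _ => pow_pos q.2.pos _,
    fun p hp => ?_, fun q hq i => ?_⟩
  · refine Nat.Coprime.prod_left fun q hq => Nat.Coprime.pow_left _ ?_
    refine (Nat.coprime_primes q.2 p.2).2 fun e => ?_
    exact (Finset.mem_sdiff.1 hq).2 (by rw [Subtype.ext e]; exact hp)
  · by_cases h : q ∈ hy.toFinset
    · rw [← Finset.prod_erase_mul _ _ (Finset.mem_sdiff.2 ⟨h, hq⟩), Nat.cast_mul, mul_assoc,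
        norm_mul]
      exact mul_le_one₀ (norm_nat_le _) (norm_nonneg _) (hk q i)
    · rw [Set.Finite.mem_toFinset, Set.mem_ofPred_eq, not_not] at h
      rw [norm_mul]
      exact mul_le_one₀ (norm_nat_le _) (norm_nonneg _) (h i)

theorem finite_bad (A : ∀ p : Nat.Primes, Matrix κ κ ℚ_[p])
    (hA : {p : Nat.Primes | ¬ ∀ i j, ‖A p i j‖ ≤ 1}.Finite) (v : κ → ℚ) :
    {q : Nat.Primes | ¬ ∀ i, ‖(A q *ᵥ fun j => (v j : ℚ_[q])) i‖ ≤ 1}.Finite := by
  have h1 : ∀ j, {q : Nat.Primes | q.1 ∣ (v j).den}.Finite := fun j =>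
    Set.Finite.of_finite_image (f := fun q : Nat.Primes => q.1)
      ((Set.finite_Iic (v j).den).subset (by
        rintro _ ⟨q, hq, rfl⟩
        exact Nat.le_of_dvd (v j).den_pos hq))
      (fun a _ b _ e => Subtype.ext e)
  refine (hA.union (Set.finite_iUnion h1)).subset fun q hq => ?_
  by_contra hc
  simp only [Set.mem_union, Set.mem_ofPred_eq, Set.mem_iUnion, not_or, not_not, not_exists] at hc
  exact hq fun i => sum_le (hc.1 i) fun j => Padic.norm_rat_le_one (hc.2 j)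

theorem mulVec_nat {R : Type} [Field R] [CharZero R] (A : Matrix κ κ R) (D : ℕ) (v : κ → ℚ)
    (i : κ) : (A *ᵥ fun j => (((D : ℚ) * v j : ℚ) : R)) i =
      (D : R) * (A *ᵥ fun j => (v j : R)) i := by
  simp only [mulVec, dotProduct, Rat.cast_mul, Rat.cast_natCast, Finset.mul_sum]
  exact Finset.sum_congr rfl fun j _ => by ring

theorem alg {R : Type} [Field R] [Algebra ℚ R] {β₀ β B W : Matrix κ κ ℚ} {G : Matrix κ κ ℤ}
    {D : ℚ} (hW : W * (β * B) = 1) (hG : β₀ * G.map (Int.castRingHom ℚ) = D • 1)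
    {A : Matrix κ κ R} (h : Aᵀ * β₀.map (ra R) * A = β.map (ra R)) :
    ∃ N : Matrix κ κ R, N * (A * B.map (ra R)) = 1 ∧ (A * B.map (ra R)) * N = 1 ∧
      ∀ i j, (A * (D • Wᵀ).map (ra R)) i j = ∑ l, N j l * (G l i : R) := by
  have h1 : W.map (ra R) * Aᵀ * β₀.map (ra R) * (A * B.map (ra R)) = 1 := by
    have := congrArg (fun X : Matrix κ κ ℚ => X.map (ra R)) hW
    simp only [Matrix.map_mul] at this
    rw [Matrix.map_one _ (map_zero _) (map_one _), ← h] at this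
    rw [← this]
    simp only [Matrix.mul_assoc]
  refine ⟨W.map (ra R) * Aᵀ * β₀.map (ra R), h1, mul_eq_one_comm.1 h1, fun i j => ?_⟩
  have h2 : β₀.map (ra R) * (G.map (Int.castRingHom ℚ)).map (ra R) = ra R D • 1 := by
    rw [← Matrix.map_mul, hG]
    ext a b
    by_cases hab : a = b
    · subst hab; simp
    · simp [hab]
  have h3 : W.map (ra R) * Aᵀ * β₀.map (ra R) * (G.map (Int.castRingHom ℚ)).map (ra R) =
      (A * (D • Wᵀ).map (ra R))ᵀ := by
    rw [Matrix.mul_assoc, h2, Matrix.mul_smul, Matrix.mul_one, transpose_mul, ← Matrix.smul_mul]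
    congr 1
    ext a b
    exact (map_mul (ra R) D (W a b)).symm
  have h4 := congrFun (congrFun h3 j) i
  rw [transpose_apply] at h4
  rw [← h4, Matrix.mul_apply]
  exact Finset.sum_congr rfl fun l _ => by simp

theorem exists_G {β₀ : Matrix κ κ ℚ} (hβ : IsUnit β₀) :
    ∃ (G : Matrix κ κ ℤ) (D : ℚ), D ≠ 0 ∧ β₀ * G.map (Int.castRingHom ℚ) = D • 1 := by
  obtain ⟨X, hX⟩ := hβ.exists_right_inv
  obtain ⟨b, hb⟩ := IsLocalization.exist_integer_multiples_of_finite (nonZeroDivisors ℤ)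
    (fun ij : κ × κ => X ij.1 ij.2)
  choose G hG using hb
  refine ⟨Matrix.of fun i j => G (i, j), ((b : ℤ) : ℚ),
    Int.cast_ne_zero.2 (nonZeroDivisors.coe_ne_zero b), ?_⟩
  have : (Matrix.of fun i j => G (i, j)).map (Int.castRingHom ℚ) = ((b : ℤ) : ℚ) • X := by
    ext i j
    have := hG (i, j)
    simpa using this
  rw [this, Matrix.mul_smul, hX]

/-- the lattice -/
def lat (A : ∀ p : Nat.Primes, Matrix κ κ ℚ_[p]) : AddSubgroup (κ → ℚ) where
  carrier := {v | ∀ (p : Nat.Primes) i, ‖(A p *ᵥ fun j => (v j : ℚ_[p])) i‖ ≤ 1}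
  zero_mem' := fun p i => by simp [mulVec, dotProduct]
  add_mem' := fun {v w} hv hw p i => by
    have e : (fun j => ((v + w) j : ℚ_[p])) =
        (fun j => (v j : ℚ_[p])) + fun j => (w j : ℚ_[p]) := by
      ext j; simp
    rw [e, mulVec_add, Pi.add_apply]
    exact (Padic.nonarchimedean _ _).trans (max_le (hv p i) (hw p i))
  neg_mem' := fun {v} hv p i => by
    have e : (fun j => ((-v) j : ℚ_[p])) = -fun j => (v j : ℚ_[p]) := by
      ext j; simp
    rw [e, mulVec_neg, Pi.neg_apply, norm_neg]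
    exact hv p i

/-- the real embedding -/
noncomputable def emb (A' : Matrix κ κ ℝ) : (κ → ℚ) →+ EuclideanSpace ℝ κ where
  toFun v := WithLp.toLp 2 (A' *ᵥ fun j => (v j : ℝ))
  map_zero' := by ext i; simp [mulVec, dotProduct]
  map_add' v w := by
    have e : (fun j => ((v + w) j : ℝ)) = (fun j => (v j : ℝ)) + fun j => (w j : ℝ) := by
      ext j; simp
    rw [e, mulVec_add]
    rfl

theorem emb_apply (A' : Matrix κ κ ℝ) (v : κ → ℚ) :
    emb A' v = WithLp.toLp 2 (A' *ᵥ fun j => (v j : ℝ)) := rfl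

theorem emb_inj {A' : Matrix κ κ ℝ} (h : IsUnit A') : Function.Injective (emb A') := by
  intro v w e
  rw [emb_apply, emb_apply] at e
  have := mulVec_injective_iff_isUnit.2 h (WithLp.toLp_injective 2 e)
  ext j
  exact_mod_cast congrFun this j

theorem span_top (A : ∀ p : Nat.Primes, Matrix κ κ ℚ_[p])
    (hA : {p : Nat.Primes | ¬ ∀ i j, ‖A p i j‖ ≤ 1}.Finite) {A' : Matrix κ κ ℝ} (h : IsUnit A') :
    Submodule.span ℝ ((lat A).map (emb A') : Set (EuclideanSpace ℝ κ)) = ⊤ := by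
  rw [eq_top_iff]
  rintro x -
  obtain ⟨y, hy⟩ := mulVec_surjective_iff_isUnit.2 h (WithLp.ofLp x)
  have e : x = ∑ j, y j • emb A' (Pi.single j 1) := by
    ext i
    rw [← hy]
    simp only [emb_apply, WithLp.ofLp_sum, Finset.sum_apply, WithLp.ofLp_smul, Pi.smul_apply,
      smul_eq_mul, mulVec, dotProduct]
    refine Finset.sum_congr rfl fun j _ => ?_
    rw [Finset.sum_eq_single j (fun b _ hb => by simp [hb]) (by simp)]
    simp [mul_comm]
  rw [e]
  refine Submodule.sum_mem _ fun j _ => Submodule.smul_mem _ _ ?_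
  obtain ⟨D, hD, -, h3⟩ := exists_mult _ (finite_bad A hA (Pi.single j 1)) ∅
  have hm : (fun l => (D : ℚ) * (Pi.single j 1 : κ → ℚ) l) ∈ lat A := fun p i => by
    rw [mulVec_nat]
    exact h3 p (Finset.notMem_empty _) i
  have e2 : emb A' (Pi.single j 1) =
      (D : ℝ)⁻¹ • emb A' (fun l => (D : ℚ) * (Pi.single j 1 : κ → ℚ) l) := by
    ext i
    have hD' : (D : ℝ) ≠ 0 := by exact_mod_cast hD.ne'
    simp only [emb_apply, WithLp.ofLp_smul, Pi.smul_apply, smul_eq_mul]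
    rw [mulVec_nat, ← mul_assoc, inv_mul_cancel₀ hD', one_mul]
  rw [e2]
  exact Submodule.smul_mem _ _ (Submodule.subset_span ⟨_, hm, rfl⟩)

end ShortAux

open ShortAux in
theorem lattice_dense (A : ∀ p : Nat.Primes, Matrix κ κ ℚ_[p])
    (hA : {p : Nat.Primes | ¬ ∀ i j, ‖A p i j‖ ≤ 1}.Finite) (p : Nat.Primes) (hp : IsUnit (A p))
    (w : κ → ℚ_[p]) (hw : ∀ i, ‖w i‖ ≤ 1) {ε : ℝ} (hε : 0 < ε) : ∃ v : κ → ℚ,
      (∀ (q : Nat.Primes) i, ‖(A q *ᵥ fun j => (v j : ℚ_[q])) i‖ ≤ 1) ∧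
      ∀ i, ‖(A p *ᵥ fun j => (v j : ℚ_[p])) i - w i‖ ≤ ε := by
  classical
  have hε' : 0 < min ε 1 := lt_min hε one_pos
  obtain ⟨u, hu⟩ := mulVec_surjective_iff_isUnit.2 hp w
  have hd : DenseRange (Pi.map fun (_ : κ) (x : ℚ) => (x : ℚ_[p])) :=
    DenseRange.piMap fun _ => Padic.denseRange_ratCast p
  have hc : Continuous fun x : κ → ℚ_[p] => A p *ᵥ x := continuous_const.matrix_mulVec continuous_id
  obtain ⟨v₀, hv₀⟩ := hd.exists_mem_open ((Metric.isOpen_ball (x := w) (ε := min ε 1)).preimage hc)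
    ⟨u, by rw [Set.mem_preimage, hu]; exact Metric.mem_ball_self hε'⟩
  have h0 : ∀ i, ‖(A p *ᵥ fun j => (v₀ j : ℚ_[p])) i - w i‖ ≤ min ε 1 := fun i => by
    rw [Set.mem_preimage, Metric.mem_ball, dist_eq_norm] at hv₀
    exact (norm_le_pi_norm (A p *ᵥ (fun j => (v₀ j : ℚ_[p])) - w) i).trans hv₀.le
  have h1 : ∀ i, ‖(A p *ᵥ fun j => (v₀ j : ℚ_[p])) i‖ ≤ 1 := fun i => by
    have := Padic.nonarchimedean ((A p *ᵥ fun j => (v₀ j : ℚ_[p])) i - w i) (w i)
    rw [sub_add_cancel] at this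
    exact this.trans (max_le ((h0 i).trans (min_le_right _ _)) (hw i))
  obtain ⟨D, hD, h2, h3⟩ := exists_mult _ (finite_bad A hA v₀) {p}
  obtain ⟨K, hK⟩ := PadicInt.exists_pow_neg_lt p hε
  have hcop : D.Coprime (p.1 ^ K) := Nat.Coprime.pow_right K (h2 p (Finset.mem_singleton_self p))
  have hmod := Nat.ModEq.pow_totient hcop
  obtain ⟨m, hm⟩ : ∃ m, (p.1 ^ K).totient = m + 1 :=
    ⟨_, (Nat.succ_pred_eq_of_pos (Nat.totient_pos.2 (pow_pos p.2.pos K))).symm⟩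
  rw [hm] at hmod
  have h4 : ‖((D ^ (m + 1) : ℕ) : ℚ_[p]) - 1‖ ≤ ε := by
    have h5 := (Padic.norm_int_le_pow_iff_dvd (p := p) (((D ^ (m + 1) : ℕ) : ℤ) - ((1 : ℕ) : ℤ))
      K).2 (by exact_mod_cast hmod.symm.dvd)
    rw [Int.cast_sub, Int.cast_natCast, Int.cast_natCast, Nat.cast_one] at h5
    exact h5.trans hK.le
  refine ⟨fun j => ((D ^ (m + 1) : ℕ) : ℚ) * v₀ j, fun q i => ?_, fun i => ?_⟩
  · rw [mulVec_nat]
    by_cases hq : q = p
    · subst hq
      rw [norm_mul]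
      exact mul_le_one₀ (norm_nat_le _) (norm_nonneg _) (h1 i)
    · rw [pow_succ, Nat.cast_mul, mul_assoc, norm_mul]
      exact mul_le_one₀ (norm_nat_le _) (norm_nonneg _) (h3 q (by simpa using hq) i)
  · rw [mulVec_nat]
    have e : ((D ^ (m + 1) : ℕ) : ℚ_[p]) * (A p *ᵥ fun j => (v₀ j : ℚ_[p])) i - w i =
        (((D ^ (m + 1) : ℕ) : ℚ_[p]) - 1) * (A p *ᵥ fun j => (v₀ j : ℚ_[p])) i +
          ((A p *ᵥ fun j => (v₀ j : ℚ_[p])) i - w i) := by ring
    rw [e]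
    refine (Padic.nonarchimedean _ _).trans (max_le ?_ ((h0 i).trans (min_le_left _ _)))
    rw [norm_mul]
    exact (mul_le_of_le_one_right (norm_nonneg _) (h1 i)).trans h4

open ShortAux in
theorem short_basis {β₀ : Matrix κ κ ℚ} (hβ : IsUnit β₀) {μ : ℝ} (hμ : 0 < μ) :
    ∃ C : ℝ, ∀ (β : Matrix κ κ ℚ) (A : ∀ p : Nat.Primes, Matrix κ κ ℚ_[p]) (A' : Matrix κ κ ℝ),
      (∀ p, IsUnit (A p)) → IsUnit A' →
      (∀ p : Nat.Primes, (A p)ᵀ * β₀.map (ra ℚ_[p]) * A p = β.map (ra ℚ_[p])) →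
      A'ᵀ * β₀.map (ra ℝ) * A' = β.map (ra ℝ) →
      {p : Nat.Primes | ¬ ∀ i j, ‖A p i j‖ ≤ 1}.Finite →
      (∀ v : κ → ℚ, v ≠ 0 → (∀ (p : Nat.Primes) i, ‖(A p *ᵥ fun j => (v j : ℚ_[p])) i‖ ≤ 1) →
        ∃ i, μ ≤ |(A' *ᵥ fun j => (v j : ℝ)) i|) →
      ∃ e : Matrix κ κ ℚ, IsUnit e ∧
        (∀ (p : Nat.Primes) i j, ‖(A p * e.map (ra ℚ_[p])) i j‖ ≤ 1) ∧
        ∀ i j, |(A' * e.map (ra ℝ)) i j| ≤ C := by
  obtain ⟨c, hc, hH⟩ := hermite (Fintype.card κ)
  obtain ⟨G, D, hD, hG⟩ := exists_G hβ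
  refine ⟨(c * μ)⁻¹ * ∑ i, ∑ l, |(G l i : ℝ)|, fun β A A' hA hA' hAp hAr hfin hmin => ?_⟩
  obtain ⟨e, he, hgen, hlow⟩ := hH (EuclideanSpace ℝ κ) (by simp) ((lat A).map (emb A')) μ hμ
    (span_top A hfin hA') (by
      rintro _ ⟨v, hv, rfl⟩ h0
      obtain ⟨i, hi⟩ := hmin v (fun e => h0 (by rw [e, map_zero])) hv
      exact hi.trans (PiLp.norm_apply_le (emb A' v) i))
  choose b hb hbe using he
  let σ := Fintype.equivFin κ
  let B : Matrix κ κ ℚ := Matrix.of fun i j => b (σ j) i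
  have hlow' : ∀ (x : κ → ℝ) (i : κ), c * μ * |x i| ≤
      ‖(WithLp.toLp 2 ((A' * B.map (ra ℝ)) *ᵥ x) : EuclideanSpace ℝ κ)‖ := by
    intro x i
    have := hlow (fun j => x (σ.symm j)) (σ i)
    rw [Equiv.symm_apply_apply, ← Equiv.sum_comp σ] at this
    refine this.trans (le_of_eq ?_)
    congr 1
    ext l
    simp only [← hbe, emb_apply, WithLp.ofLp_sum, Finset.sum_apply, WithLp.ofLp_smul,
      Pi.smul_apply, smul_eq_mul, mulVec, dotProduct, Matrix.mul_apply, Equiv.symm_apply_apply,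
      Matrix.map_apply, B, Matrix.of_apply, eq_ratCast]
    exact Finset.sum_congr rfl fun j _ => mul_comm _ _
  have hgen' : ∀ v ∈ lat A, ∃ k : κ → ℤ, ∀ i, v i = ∑ j, B i j * k j := by
    intro v hv
    obtain ⟨k, hk⟩ := hgen _ ⟨v, hv, rfl⟩
    simp only [← hbe, ← map_zsmul, ← map_sum] at hk
    refine ⟨fun j => k (σ j), fun i => ?_⟩
    rw [emb_inj hA' hk, ← Equiv.sum_comp σ, Finset.sum_apply]
    exact Finset.sum_congr rfl fun j _ => by simp [B, mul_comm]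
  have hcμ : 0 < c * μ := mul_pos hc hμ
  have hAB : IsUnit (A' * B.map (ra ℝ)) := by
    refine mulVec_injective_iff_isUnit.1 fun x y hxy => ?_
    ext i
    have := hlow' (x - y) i
    rw [mulVec_sub, hxy, sub_self, WithLp.toLp_zero, norm_zero] at this
    have h2 : |(x - y) i| ≤ 0 := by
      by_contra h3
      exact absurd (mul_pos hcμ (not_le.1 h3)) (not_lt.2 this)
    exact sub_eq_zero.1 (abs_nonpos_iff.1 h2)
  have hβB : IsUnit (β * B) := by
    have h1 : IsUnit ((β * B).map (ra ℝ)) := by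
      rw [Matrix.map_mul, ← hAr, Matrix.mul_assoc]
      exact ((isUnit_transpose _).2 hA' |>.mul (hβ.map (ra ℝ).mapMatrix)).mul hAB
    rw [Matrix.isUnit_iff_isUnit_det, isUnit_iff_ne_zero] at h1 ⊢
    intro h2
    apply h1
    have := (ra ℝ).map_det (β * B)
    rw [h2, map_zero] at this
    exact this.symm
  obtain ⟨W, hW⟩ := hβB.exists_left_inv
  refine ⟨D • Wᵀ, ?_, fun p i j => ?_, fun i j => ?_⟩
  · refine IsUnit.of_mul_eq_one (D⁻¹ • (β * B)ᵀ) ?_
    rw [Matrix.smul_mul, Matrix.mul_smul, smul_smul, mul_inv_cancel₀ hD, one_smul,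
      ← transpose_mul, mul_eq_one_comm.1 hW, transpose_one]
  · obtain ⟨N, h1, -, h3⟩ := alg hW hG (hAp p)
    rw [h3]
    refine sum_le (fun l => ?_) fun l => Padic.norm_int_le_one _
    have h0 : 0 < ‖N j‖ + 1 := by positivity
    obtain ⟨v, hv, hv'⟩ := lattice_dense A hfin p (hA p) (Pi.single l 1)
      (fun a => by
        by_cases ha : a = l
        · subst ha; simp
        · simp [ha]) (inv_pos.2 h0)
    obtain ⟨k, hk⟩ := hgen' v hv
    have e1 : (fun j => (v j : ℚ_[p])) = B.map (ra ℚ_[p]) *ᵥ fun j => (k j : ℚ_[p]) := by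
      ext a
      simp [hk a, mulVec, dotProduct]
    have e2 : N *ᵥ (A p *ᵥ fun j => (v j : ℚ_[p])) = fun j => (k j : ℚ_[p]) := by
      rw [e1, mulVec_mulVec, mulVec_mulVec, Matrix.mul_assoc, h1, one_mulVec]
    have e3 : N j l = (k j : ℚ_[p]) + -∑ a, N j a *
        ((A p *ᵥ fun j => (v j : ℚ_[p])) a - (Pi.single l 1 : κ → ℚ_[p]) a) := by
      have e4 := congrFun e2 j
      have e5 : ∑ a, N j a * (Pi.single l 1 : κ → ℚ_[p]) a = N j l := by
        rw [Finset.sum_eq_single l (fun a _ ha => by simp [ha]) (by simp)]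
        simp
      simp only [mul_sub, Finset.sum_sub_distrib, e5]
      rw [← e4]
      simp only [mulVec, dotProduct]
      ring
    rw [e3]
    refine (Padic.nonarchimedean _ _).trans (max_le (Padic.norm_int_le_one _) ?_)
    rw [norm_neg]
    refine IsUltrametricDist.norm_sum_le_of_forall_le_of_nonneg zero_le_one fun a _ => ?_
    rw [norm_mul]
    have h5 : ‖N j a‖ ≤ ‖N j‖ + 1 := (norm_le_pi_norm (N j) a).trans (by linarith)
    refine (mul_le_mul h5 (hv' a) (norm_nonneg _) h0.le).trans ?_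
    rw [mul_inv_cancel₀ h0.ne']
  · obtain ⟨N, -, h2, h3⟩ := alg hW hG hAr
    have hN : ∀ a l, |N a l| ≤ (c * μ)⁻¹ := fun a l => by
      have := hlow' (fun a => N a l) a
      have e1 : (A' * B.map (ra ℝ)) *ᵥ (fun a => N a l) = Pi.single l 1 := by
        ext a'
        have := congrFun (congrFun h2 a') l
        rw [Matrix.mul_apply, Matrix.one_apply] at this
        rw [Pi.single_apply, ← this]
        rfl
      rw [e1] at this
      have e2 : ‖(WithLp.toLp 2 (Pi.single l 1) : EuclideanSpace ℝ κ)‖ = 1 := by simp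
      rw [e2] at this
      rw [← mul_one (c * μ)⁻¹, le_inv_mul_iff₀ hcμ]
      exact this
    rw [h3]
    refine (Finset.abs_sum_le_sum_abs _ _).trans ?_
    refine le_trans (Finset.sum_le_sum fun l _ => (abs_mul _ _).le.trans
      (mul_le_mul_of_nonneg_right (hN j l) (abs_nonneg _))) ?_
    rw [← Finset.mul_sum]
    refine mul_le_mul_of_nonneg_left ?_ (inv_pos.2 hcμ).le
    exact Finset.single_le_sum (f := fun i => ∑ l, |(G l i : ℝ)|)
      (fun _ _ => Finset.sum_nonneg fun _ _ => abs_nonneg _) (Finset.mem_univ i)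

end Pool.Agent.P.MP_3c2f8c_gt
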