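import Pool.Agent.P.MP_3c2f8c_gt.Lo.Top

/-! GL-2: levels and strong approximation at one place. -/

namespace Pool.Agent.P.MP_3c2f8c_gt

variable {P : Type} {U : P → Type} [∀ p, Group (U p)] [∀ p, TopologicalSpace (U p)]
  [∀ p, IsTopologicalGroup (U p)] {G : Type} [Group G] {K₀ K K' : ∀ p, Subgroup (U p)}

omit [∀ p, TopologicalSpace (U p)] [∀ p, IsTopologicalGroup (U p)] in
theorem mem_Gam (Φ : G →* ∀ p, U p) (K : ∀ p, Subgroup (U p)) (g : G) :
    g ∈ Gam Φ K ↔ ∀ p, Φ g p ∈ K p := by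
  simp [Gam, Subgroup.mem_pi]

omit [∀ p, IsTopologicalGroup (U p)] in
theorem Level.ad_eq (h : Level K₀ K) : Ad K = Ad K₀ := by
  ext u
  show {p | u p ∉ K p}.Finite ↔ {p | u p ∉ K₀ p}.Finite
  constructor
  · intro hu
    refine (hu.union h.2).subset fun p hp => ?_
    by_cases hk : K p = K₀ p
    · left
      show u p ∉ K p
      rw [hk]
      exact hp
    · right
      exact hk
  · intro hu
    refine (hu.union h.2).subset fun p hp => ?_
    by_cases hk : K p = K₀ p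
    · left
      show u p ∉ K₀ p
      rw [← hk]
      exact hp
    · right
      exact hk

omit [∀ p, IsTopologicalGroup (U p)] in
theorem Level.update [DecidableEq P] (h : Level K₀ K) (l : P) {L : Subgroup (U l)} (hL : CO L) :
    Level K₀ (Function.update K l L) := by
  refine ⟨fun p => ?_, ?_⟩
  · by_cases hp : p = l
    · subst hp
      rw [Function.update_self]
      exact hL
    · rw [Function.update_of_ne hp]
      exact h.1 p
  · refine (h.2.union (Set.finite_singleton l)).subset fun p hp => ?_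
    by_cases hpl : p = l
    · right
      exact hpl
    · left
      have hp' : Function.update K l L p ≠ K₀ p := hp
      rw [Function.update_of_ne hpl] at hp'
      exact hp'

namespace Abs1Aux

theorem relIndex_ne_zero (h : Level K₀ K) (h' : Level K₀ K') (Φ : G →* ∀ p, U p) :
    (Gam Φ K).relIndex (Gam Φ K') ≠ 0 := by
  have hT : {p | K p ≠ K' p}.Finite := by
    refine (h.2.union h'.2).subset fun p hp => ?_
    by_contra hc
    simp only [Set.mem_union, Set.mem_ofPred_eq, not_or, not_not] at hc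
    exact hp (hc.1.trans hc.2.symm)
  have : Finite {p | K p ≠ K' p} := hT.to_subtype
  have h1 : (⨅ p : {p | K p ≠ K' p}, (K p.1).comap (cmp Φ p.1)).relIndex (Gam Φ K') ≠ 0 := by
    refine Subgroup.relIndex_iInf_ne_zero fun p => ?_
    rw [Subgroup.relIndex_comap]
    refine mt (Subgroup.relIndex_eq_zero_of_le_right (L := K' p.1) ?_)
      ((h.1 p.1).relIndex_ne_zero (h'.1 p.1))
    rintro _ ⟨g, hg, rfl⟩
    exact (mem_Gam Φ K' g).1 hg p.1
  rw [← Subgroup.inf_relIndex_right] at h1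
  refine mt (Subgroup.relIndex_eq_zero_of_le_left ?_) h1
  intro g hg
  rw [mem_Gam]
  intro p
  by_cases hp : K p = K' p
  · rw [hp]
    exact (mem_Gam Φ K' g).1 hg.2 p
  · exact (Subgroup.mem_iInf.1 hg.1 ⟨p, hp⟩ :)

end Abs1Aux

theorem Level.commensurable (h : Level K₀ K) (h' : Level K₀ K') (Φ : G →* ∀ p, U p) :
    Subgroup.Commensurable (Gam Φ K) (Gam Φ K') :=
  ⟨Abs1Aux.relIndex_ne_zero h h' Φ, Abs1Aux.relIndex_ne_zero h' h Φ⟩

theorem Level.conj (h : Level K₀ K) {u : ∀ p, U p} (hu : u ∈ Ad K₀) :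
    Level K₀ fun p => (K p).map (MulAut.conj (u p)).toMonoidHom := by
  refine ⟨fun p => (h.1 p).conj (u p), ?_⟩
  have hu' : {p | u p ∉ K₀ p}.Finite := hu
  refine (h.2.union hu').subset fun p hp => ?_
  by_contra hc
  simp only [Set.mem_union, Set.mem_ofPred_eq, not_or, not_not] at hc
  apply hp
  show (K p).map (MulAut.conj (u p)).toMonoidHom = K₀ p
  rw [hc.1]
  ext x
  rw [Subgroup.mem_map]
  constructor
  · rintro ⟨y, hy, rfl⟩
    exact mul_mem (mul_mem hc.2 hy) (inv_mem hc.2)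
  · intro hx
    refine ⟨(u p)⁻¹ * x * u p, mul_mem (mul_mem (inv_mem hc.2) hx) hc.2, ?_⟩
    show u p * ((u p)⁻¹ * x * u p) * (u p)⁻¹ = x
    group

theorem Level.exists_pow (h : Level K₀ K) {Φ : G →* ∀ p, U p} (hΦ : ∀ g, Φ g ∈ Ad K₀) (g : G) :
    ∃ m : ℕ, 0 < m ∧ ∀ γ ∈ Gam Φ K, g * γ ^ m * g⁻¹ ∈ Gam Φ K := by
  have h' := h.conj (hΦ g⁻¹)
  have h1 := Abs1Aux.relIndex_ne_zero h' h Φ
  refine ⟨Nat.factorial _, Nat.factorial_pos
    ((Gam Φ fun p => (K p).map (MulAut.conj (Φ g⁻¹ p)).toMonoidHom).relIndex (Gam Φ K)),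
    fun γ hγ => ?_⟩
  have h2 := (Subgroup.pow_mem_of_relIndex_ne_zero_of_dvd h1 hγ
    fun m hm hle => Nat.dvd_factorial hm hle).1
  rw [mem_Gam]
  intro p
  obtain ⟨y, hy, hy'⟩ := (mem_Gam _ _ _).1 h2 p
  have hy'' : Φ g⁻¹ p * y * (Φ g⁻¹ p)⁻¹ = Φ (γ ^ _) p := hy'
  rw [map_mul, map_mul, Pi.mul_apply, Pi.mul_apply, ← hy'', map_inv, Pi.inv_apply]
  have : Φ g p * ((Φ g p)⁻¹ * y * (Φ g p)⁻¹⁻¹) * (Φ g p)⁻¹ = y := by group
  rw [this]
  exact hy

theorem strong_approx_one {Φ : G →* ∀ p, U p} (hf : FinCl Φ K) {p : P} (hp : CO (K p))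
    (ho : IsOpen (((Gam Φ K).map (cmp Φ p)).topologicalClosure : Set (U p))) {e : U p}
    (he : e ∈ fiRes (U p)) :
    ∃ g : G, (∀ p', p' ≠ p → Φ g p' ∈ K p') ∧ (Φ g p)⁻¹ * e ∈ K p := by
  classical
  let Γ : Subgroup G := (Subgroup.pi {p' | p' ≠ p} K).comap Φ
  have hΓ : ∀ g, g ∈ Γ ↔ ∀ p', p' ≠ p → Φ g p' ∈ K p' := fun g => Iff.rfl
  let C : Subgroup (U p) := (Γ.map (cmp Φ p)).topologicalClosure
  have hCo : IsOpen (C : Set (U p)) := by
    refine Subgroup.isOpen_mono ?_ ho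
    refine Subgroup.topologicalClosure_mono (Subgroup.map_mono ?_)
    intro g hg
    exact (hΓ g).2 fun p' _ => (mem_Gam Φ K g).1 hg p'
  have ha : ∀ r : ∀ p, U p, ∃ a : U p, ∀ g : G,
      (∀ p', p' ≠ p → (r p')⁻¹ * (Φ g p')⁻¹ ∈ K p') → ∃ c ∈ C, Φ g p * r p = c * a := by
    intro r
    by_cases hex : ∃ g₀ : G, ∀ p', p' ≠ p → (r p')⁻¹ * (Φ g₀ p')⁻¹ ∈ K p'
    · obtain ⟨g₀, hg₀⟩ := hex
      refine ⟨Φ g₀ p * r p, fun g hg => ⟨Φ (g * g₀⁻¹) p, ?_, ?_⟩⟩
      · refine Subgroup.le_topologicalClosure _ ⟨g * g₀⁻¹, (hΓ _).2 fun p' hp' => ?_, rfl⟩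
        have := mul_mem (inv_mem (hg p' hp')) (hg₀ p' hp')
        rw [map_mul, map_inv, Pi.mul_apply, Pi.inv_apply]
        have e1 : ((r p')⁻¹ * (Φ g p')⁻¹)⁻¹ * ((r p')⁻¹ * (Φ g₀ p')⁻¹)
            = Φ g p' * (Φ g₀ p')⁻¹ := by group
        rwa [e1] at this
      · rw [map_mul, map_inv, Pi.mul_apply, Pi.inv_apply]
        group
    · exact ⟨1, fun g hg => (hex ⟨g, hg⟩).elim⟩
  choose a ha using ha
  obtain ⟨s, hs, hcl⟩ := hf
  have hB : IsCompact (⋃ r ∈ s, (fun k : U p => (a r * k)⁻¹) '' (K p : Set (U p))) :=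
    hs.isCompact_biUnion fun r _ => hp.1.image (by fun_prop)
  obtain ⟨t, ht⟩ := finite_cosets hB hCo
  have hfin : Finite (U p ⧸ C) := by
    refine Set.finite_univ_iff.1
      ((t.finite_toSet.image fun x : U p => (x : U p ⧸ C)).subset fun z _ => ?_)
    obtain ⟨u, rfl⟩ := QuotientGroup.mk_surjective z
    have hu : Pi.mulSingle p u⁻¹ ∈ Ad K := by
      refine (Set.finite_singleton p).subset fun p' hp' => ?_
      by_contra hne
      apply hp'
      rw [Pi.mulSingle_eq_of_ne hne]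
      exact one_mem _
    obtain ⟨g, r, hr, hg⟩ := hcl _ hu
    obtain ⟨c, hc, hc'⟩ := ha r g fun p' hp' => by
      have := hg p'
      rwa [Pi.mulSingle_eq_of_ne hp', mul_one] at this
    have hk := hg p
    rw [Pi.mulSingle_eq_same] at hk
    obtain ⟨x, hx, hx'⟩ := ht ((a r * ((r p)⁻¹ * (Φ g p)⁻¹ * u⁻¹))⁻¹)
      (Set.mem_biUnion hr ⟨_, hk, rfl⟩)
    refine ⟨x, hx, ?_⟩
    rw [QuotientGroup.eq]
    have e1 : a r = c⁻¹ * (Φ g p * r p) := by rw [hc']; group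
    have e2 : x⁻¹ * u = x⁻¹ * (a r * ((r p)⁻¹ * (Φ g p)⁻¹ * u⁻¹))⁻¹ * c⁻¹ := by
      rw [e1]; group
    rw [e2]
    exact mul_mem hx' (inv_mem hc)
  have hfi : C.FiniteIndex := Subgroup.finiteIndex_of_finite_quotient
  have heC : e ∈ C := Subgroup.mem_iInf.1 (Subgroup.mem_iInf.1 he C) hfi
  have hop : IsOpen {x : U p | x⁻¹ * e ∈ K p} :=
    hp.2.preimage (f := fun x : U p => x⁻¹ * e) (by fun_prop)
  obtain ⟨x, hx, g, hg, rfl⟩ := mem_closure_iff.1 heC _ hop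
    (by show e⁻¹ * e ∈ K p; rw [inv_mul_cancel]; exact one_mem _)
  exact ⟨g, (hΓ g).1 hg, hx⟩

theorem commensurable_map {G' : Type} [Group G'] (f : G →* G') {A B : Subgroup G}
    (h : Subgroup.Commensurable A B) : Subgroup.Commensurable (A.map f) (B.map f) := by
  constructor
  · rw [← Subgroup.relIndex_comap]
    exact mt (Subgroup.relIndex_eq_zero_of_le_left (Subgroup.le_comap_map f A)) h.1
  · rw [← Subgroup.relIndex_comap]
    exact mt (Subgroup.relIndex_eq_zero_of_le_left (Subgroup.le_comap_map f B)) h.2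

end Pool.Agent.P.MP_3c2f8c_gt
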