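import Mathlib

/-! GL-5: Hermite's reduced bases. -/

namespace Pool.Agent.P.MP_3c2f8c_gt

namespace HermiteAux

theorem split {V : Type} [NormedAddCommGroup V] [InnerProductSpace ℝ V] {v : V} (hv : v ≠ 0) :
    ∃ (Q : V →ₗ[ℝ] (ℝ ∙ v)ᗮ) (τ : V →ₗ[ℝ] ℝ), Function.Surjective Q ∧ Q v = 0 ∧ τ v = 1 ∧
      ∀ w, ‖w‖ ^ 2 = ‖Q w‖ ^ 2 + τ w ^ 2 * ‖v‖ ^ 2 := by
  have hn : ‖v‖ ^ 2 ≠ 0 := pow_ne_zero 2 (norm_ne_zero_iff.2 hv)
  let τ : V →ₗ[ℝ] ℝ := (‖v‖ ^ 2)⁻¹ • innerₗ V v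
  have hτ : ∀ w, τ w = (‖v‖ ^ 2)⁻¹ * inner ℝ v w := fun w => rfl
  have hm : ∀ w, inner ℝ v (w - τ w • v) = 0 := fun w => by
    rw [inner_sub_right, inner_smul_right, real_inner_self_eq_norm_sq, hτ]
    field_simp
    ring
  have h1 : τ v = 1 := by rw [hτ, real_inner_self_eq_norm_sq, inv_mul_cancel₀ hn]
  refine ⟨LinearMap.codRestrict _ (LinearMap.id - τ.smulRight v) fun w =>
    Submodule.mem_orthogonal_singleton_iff_inner_right.2 (hm w), τ, fun y => ⟨y.1, Subtype.ext ?_⟩,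
    Subtype.ext ?_, h1, fun w => ?_⟩
  · change y.1 - τ y.1 • v = y.1
    rw [hτ, Submodule.mem_orthogonal_singleton_iff_inner_right.1 y.2, mul_zero, zero_smul, sub_zero]
  · change v - τ v • v = 0
    rw [h1, one_smul, sub_self]
  · change _ = ‖w - τ w • v‖ ^ 2 + _
    have := norm_add_sq_real (w - τ w • v) (τ w • v)
    rw [sub_add_cancel, inner_smul_right, real_inner_comm, hm, norm_smul, mul_pow, Real.norm_eq_abs,
      sq_abs] at this
    linarith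

end HermiteAux

theorem hermite (d : ℕ) : ∃ c : ℝ, 0 < c ∧ ∀ (V : Type) [NormedAddCommGroup V]
    [InnerProductSpace ℝ V] [FiniteDimensional ℝ V], Module.finrank ℝ V = d →
    ∀ (L : AddSubgroup V) (μ : ℝ), 0 < μ → Submodule.span ℝ (L : Set V) = ⊤ →
    (∀ v ∈ L, v ≠ 0 → μ ≤ ‖v‖) → ∃ e : Fin d → V, (∀ j, e j ∈ L) ∧
      (∀ v ∈ L, ∃ k : Fin d → ℤ, v = ∑ j, k j • e j) ∧
      ∀ (x : Fin d → ℝ) (i : Fin d), c * μ * |x i| ≤ ‖∑ j, x j • e j‖ := by
  induction d with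
  | zero =>
    refine ⟨1, one_pos, fun V _ _ _ hd L μ _ _ _ => ⟨Fin.elim0, fun j => j.elim0, fun v _ => ?_,
      fun x i => i.elim0⟩⟩
    have := Module.finrank_zero_iff.1 hd
    exact ⟨Fin.elim0, Subsingleton.elim _ _⟩
  | succ d ih =>
    obtain ⟨c, hc, ih⟩ := ih
    refine ⟨c / (2 + c + d), by positivity, fun V _ _ _ hd L μ hμ hL hm => ?_⟩
    obtain ⟨v, hv, hv0, hvm⟩ : ∃ v ∈ L, v ≠ 0 ∧ ∀ w ∈ L, w ≠ 0 → ‖v‖ ≤ 3 / 2 * ‖w‖ := by
      have hne : {r : ℝ | ∃ v ∈ L, v ≠ 0 ∧ r = ‖v‖}.Nonempty := by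
        by_contra h
        have h1 : Submodule.span ℝ (L : Set V) = ⊥ := Submodule.span_eq_bot.2 fun v hv => by
          by_contra h0
          exact h ⟨_, v, hv, h0, rfl⟩
        rw [← finrank_top, ← hL, h1, finrank_bot] at hd
        omega
      have hb : ∀ r ∈ {r : ℝ | ∃ v ∈ L, v ≠ 0 ∧ r = ‖v‖}, μ ≤ r := by
        rintro _ ⟨v, h1, h2, rfl⟩; exact hm v h1 h2
      have h1 := le_csInf hne hb
      obtain ⟨_, ⟨v, h2, h3, rfl⟩, h4⟩ := exists_lt_of_csInf_lt hne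
        (show _ < 3 / 2 * sInf {r : ℝ | ∃ v ∈ L, v ≠ 0 ∧ r = ‖v‖} by linarith)
      refine ⟨v, h2, h3, fun w h5 h6 => ?_⟩
      have := csInf_le ⟨μ, hb⟩ (show ‖w‖ ∈ {r : ℝ | ∃ v ∈ L, v ≠ 0 ∧ r = ‖v‖} from ⟨w, h5, h6, rfl⟩)
      linarith
    obtain ⟨Q, τ, hQ, hQv, hτ, hp⟩ := HermiteAux.split hv0
    have red : ∀ w ∈ L, ∃ n : ℤ, w - n • v ∈ L ∧ Q (w - n • v) = Q w ∧ |τ (w - n • v)| ≤ 1 / 2 :=
      fun w hw => ⟨round (τ w), sub_mem hw (zsmul_mem hv _), by simp [hQv],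
        by simpa [hτ] using abs_sub_round (τ w)⟩
    have key : ∀ w ∈ L, w ≠ 0 → |τ w| ≤ 1 / 2 → μ / 2 ≤ ‖Q w‖ := fun w hw h0 h1 => by
      have h2 : τ w ^ 2 ≤ (1 / 2) ^ 2 := by rw [← sq_abs]; gcongr
      have h3 : ‖v‖ ^ 2 ≤ (3 / 2 * ‖w‖) ^ 2 := by have := hvm w hw h0; gcongr
      have h4 : μ ^ 2 ≤ ‖w‖ ^ 2 := by have := hm w hw h0; gcongr
      have h5 := mul_le_mul h2 h3 (sq_nonneg _) (sq_nonneg _)
      refine (pow_le_pow_iff_left₀ (by positivity) (norm_nonneg _) two_ne_zero).1 ?_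
      have := hp w
      nlinarith
    have : Fact (Module.finrank ℝ V = d + 1) := ⟨hd⟩
    obtain ⟨e', h1, h2, h3⟩ := ih (ℝ ∙ v)ᗮ (Submodule.finrank_orthogonal_span_singleton hv0)
      (L.map Q.toAddMonoidHom) (μ / 2) (by positivity) (by
        change Submodule.span ℝ (Q '' (L : Set V)) = ⊤
        rw [Submodule.span_image, hL, Submodule.map_top, LinearMap.range_eq_top.2 hQ]) (by
        rintro _ ⟨w, hw, rfl⟩ h0
        obtain ⟨n, a1, a2, a3⟩ := red w hw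
        refine (key _ a1 (fun h => h0 ?_) a3).trans_eq (congrArg _ a2)
        exact a2.symm.trans (by rw [h, map_zero]))
    have h4 : ∀ j, ∃ w ∈ L, Q w = e' j ∧ |τ w| ≤ 1 / 2 := fun j => by
      obtain ⟨w, hw, e⟩ := h1 j
      obtain ⟨n, a1, a2, a3⟩ := red w hw
      exact ⟨_, a1, a2.trans e, a3⟩
    choose e e1 e2 e3 using h4
    refine ⟨Fin.cons v e, fun j => Fin.cases hv e1 j, fun w hw => ?_, fun x i => ?_⟩
    · obtain ⟨k, hk⟩ := h2 (Q w) ⟨w, hw, rfl⟩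
      obtain ⟨n, a1, a2, a3⟩ := red (w - ∑ j, k j • e j)
        (sub_mem hw (sum_mem fun j _ => zsmul_mem (e1 j) _))
      have a4 : Q (w - ∑ j, k j • e j) = 0 := by simp [e2, ← hk]
      have a5 : w - ∑ j, k j • e j - n • v = 0 := by
        by_contra h0
        have := key _ a1 h0 a3
        rw [a2, a4, norm_zero] at this
        linarith
      refine ⟨Fin.cons n k, ?_⟩
      rw [Fin.sum_univ_succ]
      simp only [Fin.cons_zero, Fin.cons_succ]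
      rw [← sub_eq_zero, ← a5]
      abel
    · rw [Fin.sum_univ_succ]
      simp only [Fin.cons_zero, Fin.cons_succ]
      generalize hs : x 0 • v + ∑ j, x (Fin.succ j) • e j = s
      have b1 : Q s = ∑ j, x (Fin.succ j) • e' j := by simp [← hs, hQv, e2]
      have b2 : τ s = x 0 + ∑ j, x (Fin.succ j) * τ (e j) := by simp [← hs, hτ]
      have b3 : ‖Q s‖ ≤ ‖s‖ := (pow_le_pow_iff_left₀ (norm_nonneg _) (norm_nonneg _)
        two_ne_zero).1 (by rw [hp s]; exact le_add_of_nonneg_right (by positivity))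
      have b4 : |τ s| * ‖v‖ ≤ ‖s‖ := (pow_le_pow_iff_left₀ (by positivity) (norm_nonneg _)
        two_ne_zero).1 (by rw [hp s, mul_pow, sq_abs]; exact le_add_of_nonneg_left (sq_nonneg _))
      have b5 : ∀ j, c * (μ / 2) * |x (Fin.succ j)| ≤ ‖s‖ := fun j =>
        (h3 (fun j => x (Fin.succ j)) j).trans (b1 ▸ b3)
      have b6 := norm_nonneg s
      have b7 : (0 : ℝ) ≤ d := Nat.cast_nonneg d
      rw [div_mul_eq_mul_div, div_mul_eq_mul_div, div_le_iff₀ (by positivity)]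
      refine Fin.cases ?_ (fun j => ?_) i
      · have c1 : |x 0| ≤ |τ s| + ∑ j, |x (Fin.succ j)| / 2 := by
          have : x 0 = τ s - ∑ j, x (Fin.succ j) * τ (e j) := by rw [b2]; ring
          rw [this]
          refine (abs_sub _ _).trans (add_le_add le_rfl ((Finset.abs_sum_le_sum_abs _ _).trans
            (Finset.sum_le_sum fun j _ => ?_)))
          rw [abs_mul, div_eq_mul_one_div]
          exact mul_le_mul_of_nonneg_left (e3 j) (abs_nonneg _)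
        have c2 : c * μ * ∑ j, |x (Fin.succ j)| / 2 ≤ d * ‖s‖ := by
          rw [Finset.mul_sum]
          refine (Finset.sum_le_sum fun j _ => le_of_eq_of_le (by ring) (b5 j)).trans (by simp)
        have c3 : |τ s| * μ ≤ ‖s‖ :=
          (mul_le_mul_of_nonneg_left (hm v hv hv0) (abs_nonneg _)).trans b4
        have c4 := mul_le_mul_of_nonneg_left c1 (mul_pos hc hμ).le
        have c5 := mul_le_mul_of_nonneg_left c3 hc.le
        nlinarith
      · have := b5 j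
        nlinarith [mul_nonneg b6 hc.le, mul_nonneg b6 b7]

end Pool.Agent.P.MP_3c2f8c_gt
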