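import Pool.Agent.P.MP_3c2f8c_gt.Qu.Defs
import Pool.Agent.P.MP_3c2f8c_gt.An.Defs

/-!
Definitions for the adelic part: levels, restricted products, the set `Zs` of adelic cosets.
-/

namespace Pool.Agent.P.MP_3c2f8c_gt

variable {P : Type} {U : P → Type} [∀ p, Group (U p)]

/-- A family of compact open subgroups, equal to `K₀ p` for almost all `p`. -/
def Level [∀ p, TopologicalSpace (U p)] (K₀ K : ∀ p, Subgroup (U p)) : Prop :=
  (∀ p, CO (K p)) ∧ {p | K p ≠ K₀ p}.Finite

/-- The restricted product. -/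
def Ad (K : ∀ p, Subgroup (U p)) : Subgroup (∀ p, U p) where
  carrier := {u | {p | u p ∉ K p}.Finite}
  one_mem' := by simp
  mul_mem' := fun {u v} hu hv => (Set.Finite.union hu hv).subset fun p hp => by
    by_contra h
    simp only [Set.mem_union, Set.mem_ofPred_eq, not_or, not_not] at h
    exact hp (mul_mem h.1 h.2)
  inv_mem' := fun {u} hu => by simpa using hu

/-- The cosets of the restricted product modulo the product of the `K p`. -/
def Zs (K : ∀ p, Subgroup (U p)) : Type :=
  {z : ∀ p, U p ⧸ K p // {p | z p ≠ ((1 : U p) : U p ⧸ K p)}.Finite}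

/-- The base point. -/
def z0 (K : ∀ p, Subgroup (U p)) : Zs K := ⟨fun p => ((1 : U p) : U p ⧸ K p), by simp⟩

instance adAction (K : ∀ p, Subgroup (U p)) : MulAction (Ad K) (Zs K) where
  smul u z := ⟨fun p => u.1 p • z.1 p, (Set.Finite.union u.2 z.2).subset fun p hp => by
    by_contra h
    simp only [Set.mem_union, Set.mem_ofPred_eq, not_or, not_not] at h
    apply hp
    show u.1 p • z.1 p = _
    rw [h.2, MulAction.Quotient.smul_mk, smul_eq_mul, mul_one, QuotientGroup.eq]
    simpa using h.1⟩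
  one_smul z := Subtype.ext (funext fun p => one_smul _ _)
  mul_smul u v z := Subtype.ext (funext fun p => mul_smul _ _ _)

theorem ad_smul_apply {K : ∀ p, Subgroup (U p)} (u : Ad K) (z : Zs K) (p : P) :
    (u • z).1 p = u.1 p • z.1 p := rfl

variable {G : Type} [Group G]

/-- The elements of `G` whose image lies in `K p` for all `p`. -/
def Gam (Φ : G →* ∀ p, U p) (K : ∀ p, Subgroup (U p)) : Subgroup G :=
  (Subgroup.pi Set.univ K).comap Φ

/-- The component at `p`. -/
def cmp (Φ : G →* ∀ p, U p) (p : P) : G →* U p := (Pi.evalMonoidHom U p).comp Φ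

/-- Finite class number. -/
def FinCl (Φ : G →* ∀ p, U p) (K : ∀ p, Subgroup (U p)) : Prop :=
  ∃ s : Set (∀ p, U p), s.Finite ∧ ∀ u ∈ Ad K, ∃ g : G, ∃ r ∈ s,
    ∀ p, (r p)⁻¹ * (Φ g p)⁻¹ * u p ∈ K p

/-- Every adelic point is a rational point times an element normalising the level. -/
def OneCl (Φ : G →* ∀ p, U p) (K : ∀ p, Subgroup (U p)) : Prop :=
  ∀ u ∈ Ad K, ∃ g : G, ∀ p, (Φ g p)⁻¹ * u p ∈ Subgroup.normalizer (K p : Set (U p))

/-- The action of `G` on the adelic cosets. -/
@[reducible] def zAct (Φ : G →* ∀ p, U p) (K : ∀ p, Subgroup (U p)) (h : ∀ g, Φ g ∈ Ad K) :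
    MulAction G (Zs K) := MulAction.compHom (Zs K) (Φ.codRestrict (Ad K) h)

open Classical in
/-- The kernel on `Zs K` given by a kernel at the place `l`. -/
noncomputable def kerAt (K : ∀ p, Subgroup (U p)) (l : P) (κ : U l ⧸ K l → U l ⧸ K l → ℕ)
    (z z' : Zs K) : ℕ :=
  if ∀ p, p ≠ l → z.1 p = z'.1 p then κ (z.1 l) (z'.1 l) else 0

end Pool.Agent.P.MP_3c2f8c_gt
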