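import Pool.Agent.P.MP_3c2f8c_gt.Gl.Abs1
import Pool.Agent.P.MP_3c2f8c_gt.Qu.Real
import Pool.Agent.P.MP_3c2f8c_gt.Lo.WA

/-! GL-8: basic properties of forms, the real place, weak approximation. -/

namespace Pool.Agent.P.MP_3c2f8c_gt

open Matrix

variable {a b : ℤ} [NeZero a] [NeZero b] {ι : Type} [Fintype ι] [DecidableEq ι]
  {H₀ : Matrix ι ι (Q a b ℤ)} {S : Finset Nat.Primes} {n : ℕ}

namespace Form1Aux

omit [NeZero a] [NeZero b] in
theorem bdR_psi {n : ℕ} (ψ : Matrix ι ι (Q a b ℝ) ≃ₐ[ℝ] Matrix (Fin n) (Fin n) ℝ) (C : ℝ) :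
    ∃ C' : ℝ, (∀ g, (∀ i j, |ψ g i j| ≤ C) → BdR C' g) ∧
      ∀ g, BdR C g → ∀ i j, |ψ g i j| ≤ C' := by
  let c : Matrix ι ι (Q a b ℝ) ≃ₗ[ℝ] ι → ι → Fin 4 → ℝ :=
    (ofLinearEquiv ℝ).symm.trans (LinearEquiv.piCongrRight fun _ => LinearEquiv.piCongrRight
      fun _ => QuaternionAlgebra.linearEquivTuple _ _ _)
  let T : (ι → ι → Fin 4 → ℝ) ≃L[ℝ] Fin n → Fin n → ℝ :=
    ((c.symm.trans ψ.toLinearEquiv).trans (ofLinearEquiv ℝ).symm).toContinuousLinearEquiv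
  have hT : ∀ g i j, T (c g) i j = ψ g i j := fun g i j => by simp [T]
  have n1 := norm_nonneg (T : (ι → ι → Fin 4 → ℝ) →L[ℝ] Fin n → Fin n → ℝ)
  have n2 := norm_nonneg (T.symm : (Fin n → Fin n → ℝ) →L[ℝ] ι → ι → Fin 4 → ℝ)
  have n3 := abs_nonneg C
  refine ⟨‖(T : (ι → ι → Fin 4 → ℝ) →L[ℝ] Fin n → Fin n → ℝ)‖ * |C| +
    ‖(T.symm : (Fin n → Fin n → ℝ) →L[ℝ] ι → ι → Fin 4 → ℝ)‖ * |C|, fun g hg i j => ?_,
    fun g hg i j => ?_⟩
  · have h1 : ‖T (c g)‖ ≤ |C| := (pi_norm_le_iff_of_nonneg n3).2 fun i =>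
      (pi_norm_le_iff_of_nonneg n3).2 fun j => by
        rw [hT]
        exact (hg i j).trans (le_abs_self C)
    have h2 := (T.symm : (Fin n → Fin n → ℝ) →L[ℝ] ι → ι → Fin 4 → ℝ).le_opNorm_of_le h1
    rw [ContinuousLinearEquiv.coe_coe, T.symm_apply_apply] at h2
    have h3 := fun k => (((norm_le_pi_norm (c g i j) k).trans (norm_le_pi_norm (c g i) j)).trans
      ((norm_le_pi_norm (c g) i).trans h2)).trans (le_add_of_nonneg_left (mul_nonneg n1 n3))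
    exact ⟨h3 0, h3 1, h3 2, h3 3⟩
  · have h1 : ‖c g‖ ≤ |C| := (pi_norm_le_iff_of_nonneg n3).2 fun i =>
      (pi_norm_le_iff_of_nonneg n3).2 fun j => (pi_norm_le_iff_of_nonneg n3).2 fun k => by
        refine le_trans ?_ (le_abs_self C)
        fin_cases k
        exacts [(hg i j).1, (hg i j).2.1, (hg i j).2.2.1, (hg i j).2.2.2]
    have h2 := (T : (ι → ι → Fin 4 → ℝ) →L[ℝ] Fin n → Fin n → ℝ).le_opNorm_of_le h1
    rw [← hT]
    exact (((norm_le_pi_norm (T (c g) i) j).trans (norm_le_pi_norm (T (c g)) i)).trans h2).trans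
      (le_add_of_nonneg_right (mul_nonneg n2 n3))

omit [NeZero a] [NeZero b] in
theorem locU_injective {R R' : Type} [CommRing R] [CommRing R'] {φ : R →+* R'}
    (hφ : Function.Injective φ) (H : Matrix ι ι (Q a b R)) : Function.Injective (locU φ H) := by
  intro g h e
  have e1 : bc φ g.1.1 = bc φ h.1.1 := congrArg (fun u : Un (bc φ H) => u.1.1) e
  exact Subtype.ext (Units.ext (bc_injective hφ e1))

omit [NeZero a] [NeZero b] [Fintype ι] [DecidableEq ι] in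
theorem bc_neg {R R' : Type} [CommRing R] [CommRing R'] (φ : R →+* R')
    (g : Matrix ι ι (Q a b R)) : bc φ (-g) = -bc φ g :=
  Matrix.map_neg _ (map_neg _) _

theorem nrd_conj {R : Type} [CommRing R] [Algebra ℚ R] (φ : (Matrix ι ι (Q a b R))ˣ)
    (g : Matrix ι ι (Q a b R)) : nrd (φ.1 * g * (φ⁻¹).1) = nrd g := by
  rw [nrd_mul, nrd_mul, mul_right_comm, ← nrd_mul, ← Units.val_mul, mul_inv_cancel, Units.val_one,
    nrd_one, one_mul]

theorem nrd_un {E : Type} [Field E] [CharZero E] {H : Matrix ι ι (Q a b E)} (hu : IsUnit H)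
    (g : Un H) : nrd g.1.1 = 1 ∨ nrd g.1.1 = -1 := by
  have h : g.1.1ᴴ * H * g.1.1 = H := g.2
  have h1 := congrArg nrd h
  rw [nrd_mul, nrd_mul, nrd_conjTranspose] at h1
  have h2 := (isUnit_iff_nrd H).1 hu
  refine mul_self_eq_one_iff.1 (mul_left_cancel₀ h2 ?_)
  linear_combination h1

theorem nhds_coset {G : Type} [Group G] [TopologicalSpace G] [IsTopologicalGroup G]
    {K : Subgroup G} (hK : CO K) (v : G) : {x | x⁻¹ * v ∈ K} ∈ nhds v := by
  refine (hK.2.preimage (continuous_inv.mul continuous_const)).mem_nhds ?_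
  change v⁻¹ * v ∈ K
  rw [inv_mul_cancel]
  exact one_mem _

theorem mem_norm {G : Type} [Group G] {K : Subgroup G} {g v u : G} (h1 : g⁻¹ * v ∈ K)
    (h2 : v⁻¹ * u ∈ Subgroup.normalizer (K : Set G)) :
    g⁻¹ * u ∈ Subgroup.normalizer (K : Set G) := by
  have e : g⁻¹ * u = (g⁻¹ * v) * (v⁻¹ * u) := by group
  rw [e]
  exact mul_mem (Subgroup.le_normalizer h1) h2

theorem pull {R : Type} [CommRing R] [Algebra ℚ R] [TopologicalSpace R] [IsTopologicalRing R]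
    {H₁ H : Matrix ι ι (Q a b R)} (φ : (Matrix ι ι (Q a b R))ˣ) (h : φ.1ᴴ * H₁ * φ.1 = H)
    (u : Un H₁) (V : Set (Un H₁)) :
    ∃ (u' : Un H) (V' : Set (Un H)), nrd u'.1.1 = nrd u.1.1 ∧ (V ∈ nhds u → V' ∈ nhds u') ∧
      ∀ g ∈ V', transp φ h g ∈ V := by
  obtain ⟨e, he⟩ := exists_transp_equiv φ h
  obtain ⟨u', rfl⟩ := e.surjective u
  refine ⟨u', e ⁻¹' V, ?_, fun hV => e.continuous.continuousAt.preimage_mem_nhds hV,
    fun g hg => ?_⟩
  · rw [he]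
    exact (nrd_conj φ _).symm
  · rw [← he]
    exact hg

end Form1Aux

open Form1Aux

omit [NeZero a] [NeZero b] in
theorem level_Kst : Level (Kst H₀) (Kst H₀) := ⟨fun _ => co_K0 _, by simp⟩

omit [NeZero a] [NeZero b] in
theorem Form.val_Φ (F : Form H₀) (g : Un F.H) (p : Nat.Primes) :
    (F.Φ g p).1.1 = (F.φ p).1 * bc (ra ℚ_[p]) g.1.1 * ((F.φ p)⁻¹).1 := rfl

omit [NeZero a] [NeZero b] in
theorem Form.val_real (F : Form H₀) (g : Un F.H) :
    (F.real g).1.1 = F.φ'.1 * bc (ra ℝ) g.1.1 * (F.φ'⁻¹).1 := rfl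

omit [NeZero a] [NeZero b] in
theorem Form.mem_Ad (F : Form H₀) (g : Un F.H) : F.Φ g ∈ Ad (Kst H₀) := by
  refine ((F.fin.union (finite_not_intM g.1.1)).union (finite_not_intM (g⁻¹).1.1)).subset
    fun p hp => ?_
  by_contra h
  simp only [Set.mem_union, Set.mem_ofPred_eq, not_or, not_not] at h
  obtain ⟨⟨h1, h2⟩, h3⟩ := h
  refine hp ⟨(h1.1.mul h2).mul h1.2, ?_⟩
  have e : ((F.Φ g p).1⁻¹).1 = (F.Φ g⁻¹ p).1.1 := by
    rw [map_inv]
    rfl
  rw [e]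
  exact (h1.1.mul h3).mul h1.2

omit [NeZero a] [NeZero b] in
theorem Form.cmp_injective (F : Form H₀) (p : Nat.Primes) :
    Function.Injective (cmp F.Φ p) :=
  (transp_bijective (F.φ p) (F.hφ p)).1.comp (locU_injective (ra ℚ_[p]).injective F.H)

omit [NeZero a] [NeZero b] in
theorem Form.real_injective (F : Form H₀) : Function.Injective F.real :=
  (transp_bijective F.φ' F.hφ').1.comp (locU_injective (ra ℝ).injective F.H)

omit [NeZero a] [NeZero b] in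
theorem Form.countable (F : Form H₀) : Countable (Un F.H) := by
  have : Countable (Q a b ℚ) := countable_Q
  have : Countable (Matrix ι ι (Q a b ℚ)) := inferInstanceAs (Countable (ι → ι → Q a b ℚ))
  have hinj : Function.Injective fun g : Un F.H => g.1.1 := fun g h e =>
    Subtype.ext (Units.ext e)
  exact hinj.countable

omit [NeZero a] [NeZero b] in
theorem Form.Good.skew_bc {F : Form H₀} (hG : F.Good S) {R : Type} [CommRing R] :
    (bc (ia R) H₀)ᴴ = -bc (ia R) H₀ := by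
  rw [← bc_conjTranspose, hG.skew₀, bc_neg]

omit [NeZero a] [NeZero b] in
theorem Form.Good.unit_bc {F : Form H₀} (hG : F.Good S) {R : Type} [CommRing R] [Algebra ℚ R] :
    IsUnit (bc (ia R) H₀) := by
  have h := hG.unit₀.map (qmap a b (ra R)).mapMatrix
  have e : (qmap a b (ra R)).mapMatrix (bc (ia ℚ) H₀) = bc (ia R) H₀ := by
    change bc (ra R) (bc (ia ℚ) H₀) = _
    rw [bc_bc, RingHom.eq_intCast' ((ra R).comp (ia ℚ))]
  rwa [e] at h

omit [NeZero a] [NeZero b] in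
theorem Form.Good.skew {F : Form H₀} (hG : F.Good S) : F.Hᴴ = -F.H := by
  refine bc_injective (ra ℝ).injective ?_
  rw [bc_conjTranspose, bc_neg, ← F.hφ', conjTranspose_mul, conjTranspose_mul,
    conjTranspose_conjTranspose, hG.skew_bc, Matrix.neg_mul, Matrix.mul_neg, Matrix.mul_assoc]

theorem Form.Good.unit {F : Form H₀} (hG : F.Good S) : IsUnit F.H := by
  have h1 : IsUnit (bc (ra ℝ) F.H) := by
    rw [← F.hφ']
    exact ((F.φ'.isUnit.star).mul hG.unit_bc).mul F.φ'.isUnit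
  rw [isUnit_iff_nrd, nrd_bc] at h1
  rw [isUnit_iff_nrd]
  intro h0
  exact h1 (by rw [h0, map_zero])

theorem Form.Good.nrd_Φ {F : Form H₀} (hG : F.Good S) (g : Un F.H) (p : Nat.Primes) :
    nrd (F.Φ g p).1.1 = 1 := by
  rw [F.val_Φ, nrd_conj, nrd_bc, nrd_eq_one_of_div hG.ram.div_rat hG.skew hG.unit, map_one]

theorem Form.Good.nrd_real {F : Form H₀} (hG : F.Good S) (g : Un F.H) :
    nrd (F.real g).1.1 = 1 := by
  rw [F.val_real, nrd_conj, nrd_bc, nrd_eq_one_of_div hG.ram.div_rat hG.skew hG.unit, map_one]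

theorem Form.regP_iff (F : Form H₀) (g : Un F.H) (p : Nat.Primes) :
    RegP (rchar (F.Φ g p).1.1) ↔ RegP (rchar g.1.1) := by
  have e : rchar (bc (ra ℚ_[p]) g.1.1) = rchar (F.Φ g p).1.1 := by
    refine rchar_of_conj (F.φ p).isUnit ?_
    rw [F.val_Φ, Matrix.mul_assoc, ← Units.val_mul, inv_mul_cancel, Units.val_one, Matrix.mul_one]
  rw [← e, rchar_bc, regP_map]

omit [NeZero a] [NeZero b] in
theorem RealId.act_val (I : RealId H₀ n) (h : Un (bc (ia ℝ) H₀)) :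
    (I.act h).1.1 = I.ψ h.1.1 ∨ (I.act h).1.1 = -I.ψ h.1.1 := by
  rcases I.htp (((Units.map (I.ψ : Matrix ι ι (Q a b ℝ) →+*
      Matrix (Fin (n + 1)) (Fin (n + 1)) ℝ).toMonoidHom).comp
    (Un (bc (ia ℝ) H₀)).subtype).codRestrict (LorO n) (fun g u v => (I.hψ g.1.1).1 g.2 u v) h)
    with e | e
  · exact Or.inl (congrArg Units.val e)
  · exact Or.inr (congrArg Units.val e)

omit [NeZero a] [NeZero b] in
theorem RealId.exists_act (I : RealId H₀ n) (g : Oplus n) :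
    ∃ h : Un (bc (ia ℝ) H₀), I.act h = g ∧ I.ψ h.1.1 = g.1.1 := by
  let u : (Matrix ι ι (Q a b ℝ))ˣ := Units.map (I.ψ.symm : Matrix (Fin (n + 1)) (Fin (n + 1)) ℝ →+*
    Matrix ι ι (Q a b ℝ)).toMonoidHom g.1
  have hu : I.ψ u.1 = g.1.1 := I.ψ.apply_symm_apply g.1.1
  have hm : u ∈ Un (bc (ia ℝ) H₀) := (I.hψ u.1).2 (by rw [hu]; exact g.2.1)
  refine ⟨⟨u, hm⟩, ?_, hu⟩
  rcases I.act_val ⟨u, hm⟩ with e | e
  · exact Subtype.ext (Units.ext (e.trans hu))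
  · exfalso
    refine neg_notMem_Oplus g ?_
    have e1 : (I.act ⟨u, hm⟩).1 = -g.1 := Units.ext (by rw [e, Units.val_neg, ← hu])
    rw [← e1]
    exact (I.act ⟨u, hm⟩).2

omit [NeZero a] [NeZero b] in
theorem RealId.bdd (I : RealId H₀ n) (C : ℝ) : ∃ C' : ℝ, ∀ h : Un (bc (ia ℝ) H₀),
    (BdR C h.1.1 → uu (orig n) (I.act h • orig n) ≤ C') ∧
    (uu (orig n) (I.act h • orig n) ≤ C → BdR C' h.1.1) := by
  obtain ⟨C', h1, h2⟩ := bdR_psi I.ψ C
  have habs : ∀ (h : Un (bc (ia ℝ) H₀)) i j, |(I.act h).1.1 i j| = |I.ψ h.1.1 i j| := by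
    intro h i j
    rcases I.act_val h with e | e
    · rw [e]
    · rw [e, Matrix.neg_apply, abs_neg]
  refine ⟨C', fun h => ⟨fun hb => ?_, fun hb => h1 _ fun i j => ?_⟩⟩
  · rw [uu_orig_smul_orig]
    exact (le_abs_self _).trans ((habs h 0 0).trans_le (h2 _ hb 0 0))
  · rw [← habs]
    exact (abs_entry_le _ i j).trans hb

theorem Form.Good.wa {F : Form H₀} (hG : F.Good S) (T : Finset Nat.Primes) (u : ∀ p, Ul H₀ p)
    (h1 : ∀ p ∈ T, nrd (u p).1.1 = 1) (V : ∀ p, Set (Ul H₀ p)) (hV : ∀ p ∈ T, V p ∈ nhds (u p)) :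
    ∃ g : Un F.H, ∀ p ∈ T, F.Φ g p ∈ V p := by
  choose u' V' h2 h3 h4 using fun p : Nat.Primes => pull (F.φ p) (F.hφ p) (u p) (V p)
  obtain ⟨γ, hγ⟩ := wa_unitary hG.skew hG.unit hG.card T u'
    (fun p hp => (h2 p).trans (h1 p hp)) V' (fun p hp => h3 p (hV p hp))
  exact ⟨γ, fun p hp => h4 p _ (hγ p hp)⟩

theorem Form.Good.wa_normalizer {F : Form H₀} (hG : F.Good S) {K : ∀ p, Subgroup (Ul H₀ p)}
    (hK : ∀ p, CO (K p)) {l : Nat.Primes} {w : Ul H₀ l}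
    (hw : w ∈ Subgroup.normalizer (K l : Set (Ul H₀ l))) (hw' : nrd w.1.1 = -1)
    (u : ∀ p, Ul H₀ p) : ∃ g : Un F.H, ∀ p ∈ insert l S,
      (F.Φ g p)⁻¹ * u p ∈ Subgroup.normalizer (K p : Set (Ul H₀ p)) := by
  have hex : ∀ p, ∃ v : Ul H₀ p, p ∈ insert l S → nrd v.1.1 = 1 ∧
      v⁻¹ * u p ∈ Subgroup.normalizer (K p : Set (Ul H₀ p)) := by
    intro p
    rcases nrd_un hG.unit_bc (u p) with h | h
    · exact ⟨u p, fun _ => ⟨h, by rw [inv_mul_cancel]; exact one_mem _⟩⟩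
    · by_cases hp : p = l
      · subst hp
        refine ⟨u p * w, fun _ => ⟨?_, ?_⟩⟩
        · change nrd ((u p).1.1 * w.1.1) = 1
          rw [nrd_mul, h, hw']
          ring
        · rw [_root_.mul_inv_rev, inv_mul_cancel_right]
          exact inv_mem hw
      · refine ⟨u p, fun hm => ⟨?_, by rw [inv_mul_cancel]; exact one_mem _⟩⟩
        exact nrd_eq_one_of_div ((hG.ram.div p).1 ((Finset.mem_insert.1 hm).resolve_left hp))
          hG.skew_bc hG.unit_bc _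
  choose v hv using hex
  obtain ⟨g, hg⟩ := hG.wa (insert l S) v (fun p hp => (hv p hp).1)
    (fun p => {x | x⁻¹ * v p ∈ K p}) (fun p _ => nhds_coset (hK p) (v p))
  exact ⟨g, fun p hp => mem_norm (hg p hp) (hv p hp).2⟩

end Pool.Agent.P.MP_3c2f8c_gt
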