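import Pool.Agent.P.MP_3c2f8c_gt.Gl.Short
import Pool.Agent.P.MP_3c2f8c_gt.Gl.FDefs
import Pool.Agent.P.MP_3c2f8c_gt.Gl.Fin

/-! GL-7: the compactness criterion. -/

namespace Pool.Agent.P.MP_3c2f8c_gt

open Matrix

variable {a b : ℤ} [NeZero a] [NeZero b] {ι : Type} [Fintype ι] [DecidableEq ι]

namespace GodeAux

section Coord

variable {R S : Type} [CommRing R] [CommRing S] {ν : Type}

/-- The coordinates of a quaternion. -/
def tup (z : Q a b R) : Fin 4 → R := ![z.re, z.imI, z.imJ, z.imK]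

/-- The matrix of the left multiplication. -/
def lm (z : Q a b R) : Matrix (Fin 4) (Fin 4) R :=
  !![z.re, a * z.imI, b * z.imJ, -(a * b * z.imK); z.imI, z.re, b * z.imK, -(b * z.imJ);
    z.imJ, -(a * z.imK), z.re, a * z.imI; z.imK, -z.imJ, z.imI, z.re]

/-- The columns in coordinates. -/
def cm (X : Matrix ι ν (Q a b R)) : Matrix (ι × Fin 4) ν R :=
  Matrix.of fun x k => tup (X x.1 k) x.2

/-- The columns from their coordinates. -/
def mc (a b : ℤ) (Y : Matrix (ι × Fin 4) ν R) : Matrix ι ν (Q a b R) :=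
  Matrix.of fun i k => ⟨Y (i, 0) k, Y (i, 1) k, Y (i, 2) k, Y (i, 3) k⟩

/-- A matrix of quaternions as a linear map in coordinates. -/
def co (g : Matrix ι ι (Q a b R)) : Matrix (ι × Fin 4) (ι × Fin 4) R :=
  Matrix.of fun x y => lm (g x.1 y.1) x.2 y.2

/-- The matrix of the form `re (star x * y)`. -/
def tm (a b : ℤ) (ι R : Type) [DecidableEq ι] [CommRing R] : Matrix (ι × Fin 4) (ι × Fin 4) R :=
  diagonal fun x => ![(1 : R), -a, -b, a * b] x.2

omit [NeZero a] [NeZero b]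

theorem tup_mul (z y : Q a b R) (s : Fin 4) : tup (z * y) s = ∑ t, lm z s t * tup y t := by
  fin_cases s <;> simp [tup, lm, Fin.sum_univ_four] <;> ring

omit [DecidableEq ι] in
theorem tup_sum (f : ι → Q a b R) (s : Fin 4) : tup (∑ j, f j) s = ∑ j, tup (f j) s := by
  fin_cases s
  exacts [map_sum (QuaternionAlgebra.reₗ _ _ _) f _, map_sum (QuaternionAlgebra.imIₗ _ _ _) f _,
    map_sum (QuaternionAlgebra.imJₗ _ _ _) f _, map_sum (QuaternionAlgebra.imKₗ _ _ _) f _]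

theorem tup_smul (c : R) (z : Q a b R) (s : Fin 4) : tup (c • z) s = c * tup z s := by
  fin_cases s <;> simp [tup]

theorem tup_ext {z y : Q a b R} (h : ∀ s, tup z s = tup y s) : z = y :=
  QuaternionAlgebra.ext (h 0) (h 1) (h 2) (h 3)

omit [Fintype ι] [DecidableEq ι] in
theorem cm_mc (Y : Matrix (ι × Fin 4) ν R) : cm (mc a b Y) = Y := by
  ext ⟨i, s⟩ k
  fin_cases s <;> rfl

omit [DecidableEq ι] in
theorem co_mul_cm (g : Matrix ι ι (Q a b R)) (X : Matrix ι ν (Q a b R)) :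
    co g * cm X = cm (g * X) := by
  ext ⟨i, s⟩ k
  simp only [Matrix.mul_apply, cm, co, of_apply, Fintype.sum_prod_type, tup_sum, tup_mul]

theorem co_mul (g h : Matrix ι ι (Q a b R)) : co (g * h) = co g * co h := by
  have e : ∀ u : Matrix ι ι (Q a b R), co u = cm (u * mc a b (1 : Matrix (ι × Fin 4) (ι × Fin 4) R)) := fun u => by
    rw [← co_mul_cm, cm_mc, Matrix.mul_one]
  rw [e (g * h), e h, co_mul_cm, Matrix.mul_assoc]

theorem co_one : co (1 : Matrix ι ι (Q a b R)) = 1 := by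
  rw [← Matrix.mul_one (co 1), ← cm_mc (a := a) (b := b) 1, co_mul_cm, Matrix.one_mul]

theorem isUnit_co {g : Matrix ι ι (Q a b R)} (hg : IsUnit g) : IsUnit (co g) := by
  obtain ⟨u, rfl⟩ := hg
  exact ⟨⟨co u.1, co (u⁻¹).1, by rw [← co_mul, Units.mul_inv, co_one],
    by rw [← co_mul, Units.inv_mul, co_one]⟩, rfl⟩

omit [Fintype ι] [DecidableEq ι] in
theorem cm_bc (φ : R →+* S) (X : Matrix ι ν (Q a b R)) : cm (bc φ X) = (cm X).map φ := by
  ext ⟨i, s⟩ k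
  fin_cases s <;> rfl

omit [Fintype ι] [DecidableEq ι] in
theorem co_bc (φ : R →+* S) (g : Matrix ι ι (Q a b R)) : co (bc φ g) = (co g).map φ := by
  ext ⟨i, s⟩ ⟨j, t⟩
  fin_cases s <;> fin_cases t <;> simp [co, lm, qmap]

omit [Fintype ι] in
theorem tm_map (φ : R →+* S) : (tm a b ι R).map φ = tm a b ι S := by
  rw [tm, diagonal_map (map_zero φ)]
  congr 1
  funext ⟨i, s⟩
  fin_cases s <;> simp

theorem tm_mul (g : Matrix ι ι (Q a b R)) : (co g)ᵀ * tm a b ι R = tm a b ι R * co gᴴ := by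
  ext ⟨i, s⟩ ⟨j, t⟩
  rw [tm, mul_diagonal, diagonal_mul]
  fin_cases s <;> fin_cases t <;> simp [co, lm] <;> ring

theorem gram_co (g H : Matrix ι ι (Q a b R)) :
    (co g)ᵀ * (tm a b ι R * co H) * co g = tm a b ι R * co (gᴴ * H * g) := by
  rw [← Matrix.mul_assoc, tm_mul, co_mul, co_mul]
  simp only [Matrix.mul_assoc]

theorem gram_map (φ : R →+* S) (H : Matrix ι ι (Q a b R)) :
    (tm a b ι R * co H).map φ = tm a b ι S * co (bc φ H) := by
  rw [Matrix.map_mul, tm_map, co_bc]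

omit [Fintype ι] [DecidableEq ι] in
theorem intM_iff {p : ℕ} [Fact p.Prime] (X : Matrix ι ν (Q a b ℚ_[p])) :
    IntM X ↔ ∀ x k, ‖cm X x k‖ ≤ 1 := by
  constructor
  · rintro h ⟨i, s⟩ k
    obtain ⟨h1, h2, h3, h4⟩ := (mem_intQ _).1 (h i k)
    fin_cases s
    exacts [h1, h2, h3, h4]
  · intro h i k
    exact (mem_intQ _).2 ⟨h (i, 0) k, h (i, 1) k, h (i, 2) k, h (i, 3) k⟩

omit [Fintype ι] [DecidableEq ι] in
theorem bdR_of {C : ℝ} {X : Matrix ι ν (Q a b ℝ)} (h : ∀ x k, |cm X x k| ≤ C) : BdR C X :=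
  fun i k => ⟨h (i, 0) k, h (i, 1) k, h (i, 2) k, h (i, 3) k⟩

omit [DecidableEq ι] in
theorem norm_co_le {p : ℕ} [Fact p.Prime] {g : Matrix ι ι (Q a b ℚ_[p])} (hg : IntM g) (x y) :
    ‖co g x y‖ ≤ 1 := by
  classical
  have h : IntM (g * bc (ia ℚ_[p]) (mc a b (1 : Matrix (ι × Fin 4) (ι × Fin 4) ℤ))) :=
    fun i k => by
      rw [Matrix.mul_apply]
      exact sum_mem fun j _ => mul_mem (hg i j) (intM_bc_int p _ j k)
  have h1 := (intM_iff _).1 h x y
  rwa [← co_mul_cm, cm_bc, cm_mc, Matrix.map_one _ (map_zero _) (map_one _), Matrix.mul_one] at h1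

end Coord

omit [NeZero a] [NeZero b] [DecidableEq ι] in
theorem exists_bd (h : Matrix ι ι (Q a b ℝ)) : ∃ K : ℝ, 0 ≤ K ∧ ∀ (C : ℝ)
    (u : Matrix ι ι (Q a b ℝ)), BdR C u → BdR (K * (C * C)) (uᴴ * h * u) := by
  obtain ⟨D, hD⟩ := Finite.exists_le fun k : ι × ι => max (max |(h k.1 k.2).re| |(h k.1 k.2).imI|)
    (max |(h k.1 k.2).imJ| |(h k.1 k.2).imK|)
  have hh : ∀ i j, FinAux.BQ |D| (h i j) := fun i j => by
    have := (hD (i, j)).trans (le_abs_self D)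
    simp only [max_le_iff] at this
    exact ⟨this.1.1, this.1.2, this.2.1, this.2.2⟩
  refine ⟨(Fintype.card ι * (4 * ((1 + |(a : ℝ)|) * (1 + |(b : ℝ)|)))) ^ 2 * |D|, by positivity,
    fun C u hu i j => ?_⟩
  have h1 : ∀ i j, FinAux.BQ C (uᴴ i j) := fun i j => by
    rw [conjTranspose_apply]
    simpa [FinAux.BQ] using hu j i
  refine (FinAux.BQ.sum (fun k => FinAux.BQ.mul (FinAux.BQ.sum
    (fun l => FinAux.BQ.mul (h1 i l) (hh l k)) Finset.univ) (hu k j)) Finset.univ).mono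
    (le_of_eq ?_)
  rw [Finset.card_univ]
  ring

omit [NeZero a] [NeZero b] [DecidableEq ι] in
theorem bc_gram {E : Type} [CommRing E] [Algebra ℚ E] {H₀ φ : Matrix ι ι (Q a b E)}
    {H : Matrix ι ι (Q a b ℚ)} (h : φᴴ * H₀ * φ = bc (ra E) H) (g : Matrix ι ι (Q a b ℚ)) :
    bc (ra E) (gᴴ * H * g) = (φ * bc (ra E) g)ᴴ * H₀ * (φ * bc (ra E) g) := by
  rw [conjTranspose_mul, ← bc_conjTranspose]
  calc bc (ra E) (gᴴ * H * g) = bc (ra E) gᴴ * bc (ra E) H * bc (ra E) g := by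
        simp only [bc, Matrix.map_mul]
    _ = _ := by simp only [← h, Matrix.mul_assoc]

omit [NeZero a] [NeZero b] [DecidableEq ι] in
theorem exists_den (X : Matrix ι ι (Q a b ℚ)) :
    ∃ M : ℕ, 0 < M ∧ ∀ p : Nat.Primes, IntM ((M : ℚ_[p]) • bc (ra ℚ_[p]) X) := by
  choose k hk using fun p : Nat.Primes => exists_pow_smul_intM (bc (ra ℚ_[p]) X)
  obtain ⟨M, hM, h⟩ := exists_denominator (finite_not_intM X).toFinset k
  refine ⟨M, hM, fun p => ?_⟩
  by_cases hp : IntM (bc (ra ℚ_[p]) X)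
  · exact hp.smul (by simpa using Padic.norm_int_le_one (M : ℤ))
  · have h0 : (p.1 : ℚ_[p]) ^ k p ≠ 0 := pow_ne_zero _ (Nat.cast_ne_zero.2 p.2.ne_zero)
    have h1 := (hk p).smul (c := (M : ℚ_[p]) / (p.1 : ℚ_[p]) ^ k p) (by
      rw [norm_div]
      exact div_le_one_of_le₀ (h p (by simpa using hp)) (norm_nonneg _))
    rwa [smul_smul, div_mul_cancel₀ _ h0] at h1

end GodeAux

open GodeAux

theorem exists_unit_of_span (hdiv : ¬ IsNm (a : ℚ) (b : ℚ)) {κ : Type} [Fintype κ]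
    (e : κ → ι → Q a b ℚ) (he : ∀ v : ι → Q a b ℚ, ∃ t : κ → ℚ, v = ∑ j, t j • e j) :
    ∃ f : ι → κ, IsUnit (Matrix.of fun i k => e (f k) i) := by
  have hsp : Submodule.span (Q a b ℚ) (Set.range fun j => star (e j)) = ⊤ := by
    refine eq_top_iff.2 fun v _ => ?_
    obtain ⟨t, ht⟩ := he (star v)
    have h1 : v = ∑ j, algebraMap ℚ (Q a b ℚ) (t j) • star (e j) := by
      rw [← star_star v, ht, star_sum]
      refine Finset.sum_congr rfl fun j _ => ?_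
      funext i
      ext <;> simp [-eq_ratCast]
    rw [h1]
    exact Submodule.sum_mem _ fun j _ => Submodule.smul_mem _ _ (Submodule.subset_span ⟨j, rfl⟩)
  let _ : DivisionRing (Q a b ℚ) := DivisionRing.ofIsUnitOrEqZero fun x => by
    by_cases hx : x = 0
    exacts [Or.inr hx, Or.inl (isUnit_of_div hdiv hx)]
  obtain ⟨κ', c, hc, h1, h2⟩ := exists_linearIndependent' (Q a b ℚ) fun j => star (e j)
  have : Finite κ' := Finite.of_injective c hc
  have := Fintype.ofFinite κ'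
  rw [hsp] at h1
  have h3 : Fintype.card ι = Fintype.card κ' := by
    rw [← Module.finrank_eq_card_basis (Module.Basis.mk h2 h1.ge),
      Module.finrank_fintype_fun_eq_card]
  let σ := Fintype.equivOfCardEq h3
  have h4 : ∀ i : ι, ∃ X : ι → Q a b ℚ, ∑ k, X k • star (e (c (σ k))) = Pi.single i 1 := fun i => by
    obtain ⟨X, hX⟩ := (Submodule.mem_span_range_iff_exists_fun _).1
      (h1.ge (Submodule.mem_top (x := Pi.single i 1)))
    exact ⟨X ∘ σ, (σ.sum_comp fun k => X k • star (e (c k))).trans hX⟩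
  choose X hX using h4
  refine ⟨c ∘ σ, (isUnit_iff_nrd _).2 fun h0 => ?_⟩
  have h5 : Matrix.of X * (Matrix.of fun i k => e ((c ∘ σ) k) i)ᴴ = 1 := by
    refine Matrix.ext fun i j => ?_
    have h6 := congrFun (hX i) j
    rw [Finset.sum_apply, Pi.single_apply] at h6
    rw [Matrix.mul_apply, Matrix.one_apply, if_congr eq_comm rfl rfl]
    exact h6
  have h7 := congrArg nrd h5
  rw [nrd_mul, nrd_conjTranspose, h0, mul_zero, nrd_one] at h7
  exact zero_ne_one h7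

theorem short_frame (hdiv : ¬ IsNm (a : ℚ) (b : ℚ)) {H₀ : Matrix ι ι (Q a b ℤ)}
    (hu : IsUnit (bc (ia ℚ) H₀)) : ∃ C : ℝ, ∀ F : Form H₀, (∀ v, v ≠ 0 → hf F.H v v ≠ 0) →
      ∃ g : Matrix ι ι (Q a b ℚ), IsUnit g ∧
        (∀ p : Nat.Primes, IntM ((F.φ p).1 * bc (ra ℚ_[p]) g)) ∧
        BdR C (F.φ'.1 * bc (ra ℝ) g) := by
  obtain ⟨K, hK, hb⟩ := exists_bd (bc (ia ℝ) H₀)
  have ht : IsUnit (tm a b ι ℚ) := by
    rw [tm, isUnit_diagonal, Pi.isUnit_iff]
    rintro ⟨i, s⟩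
    fin_cases s <;> simp [NeZero.ne a, NeZero.ne b]
  have hμ : 0 < 1 / (K + 2) := by positivity
  obtain ⟨C, hC⟩ := short_basis (ht.mul (isUnit_co hu)) hμ
  refine ⟨C, fun F han => ?_⟩
  have hbc : ∀ (E : Type) [CommRing E] [Algebra ℚ E],
      bc (ra E) (bc (ia ℚ) H₀) = bc (ia E) H₀ := fun E _ _ => by
    rw [bc_bc, RingHom.ext_int ((ra E).comp (ia ℚ)) (ia E)]
  obtain ⟨e, he, h1, h2⟩ := hC (tm a b ι ℚ * co F.H) (fun p => co (F.φ p).1) (co F.φ'.1)
    (fun p => isUnit_co (F.φ p).isUnit) (isUnit_co F.φ'.isUnit)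
    (fun p => by rw [gram_map, gram_map, gram_co, hbc, F.hφ])
    (by rw [gram_map, gram_map, gram_co, hbc, F.hφ'])
    (F.fin.subset fun p hp hi => hp (norm_co_le hi.1)) (fun v hv hi => by
      by_contra hc
      simp only [not_exists, not_le] at hc
      set V : Matrix ι ι (Q a b ℚ) := mc a b (Matrix.of fun x _ => v x) with hV
      have e1 : ∀ (E : Type) [Field E] [Algebra ℚ E] (φ : Matrix ι ι (Q a b E)) x k,
          cm (φ * bc (ra E) V) x k = (co φ *ᵥ fun j => (v j : E)) x := fun E _ _ φ x k => by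
        rw [← co_mul_cm, cm_bc, hV, cm_mc]
        simp [Matrix.mul_apply, mulVec, dotProduct]
      obtain ⟨X, hX⟩ := exists_int (Vᴴ * F.H * V) fun p => by
        have h3 : IntM ((F.φ p).1 * bc (ra ℚ_[p]) V) := (intM_iff _).2 fun x k => by
          rw [e1]
          exact hi p x
        rw [bc_gram (F.hφ p)]
        exact (h3.conjTranspose.mul (intM_bc_int _ _)).mul h3
      have h4 := hb _ _ (bdR_of (C := 1 / (K + 2)) (X := F.φ'.1 * bc (ra ℝ) V) fun x k => by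
        rw [e1]
        exact (hc x).le)
      rw [← bc_gram F.hφ', ← hX] at h4
      have h5 : K * (1 / (K + 2) * (1 / (K + 2))) < 1 := by
        rw [div_mul_div_comm, one_mul, mul_one_div, div_lt_one (by positivity)]
        nlinarith
      have h6 : ∀ n : ℤ, |ra ℝ (Int.castRingHom ℚ n)| ≤ K * (1 / (K + 2) * (1 / (K + 2))) →
          n = 0 := fun n hn => by
        have h7 := hn.trans_lt h5
        simp only [eq_intCast, map_intCast] at h7
        exact Int.abs_lt_one_iff.1 (by exact_mod_cast h7)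
      obtain ⟨⟨i, s⟩, hs⟩ := Function.ne_iff.1 hv
      refine han (fun j => V j i) (fun h0 => hs ?_) ?_
      · have h8 : cm V (i, s) i = v (i, s) := by rw [hV, cm_mc, of_apply]
        rw [← h8, cm, of_apply, show V i i = 0 from congrFun h0 i]
        fin_cases s <;> rfl
      · have h8 : X i i = 0 := QuaternionAlgebra.ext (h6 _ (h4 i i).1) (h6 _ (h4 i i).2.1)
          (h6 _ (h4 i i).2.2.1) (h6 _ (h4 i i).2.2.2)
        have h9 := congrFun (congrFun hX i) i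
        rw [bc, map_apply, h8, map_zero, Matrix.mul_assoc] at h9
        exact h9.symm)
  obtain ⟨f, hf⟩ := exists_unit_of_span hdiv (fun j i => mc a b e i j) fun v => by
    obtain ⟨t, ht⟩ := mulVec_surjective_iff_isUnit.2 he fun x => tup (v x.1) x.2
    refine ⟨t, funext fun i => tup_ext fun s => ?_⟩
    rw [Finset.sum_apply, tup_sum, ← congrFun ht (i, s)]
    refine Finset.sum_congr rfl fun j _ => ?_
    rw [Pi.smul_apply, tup_smul, mul_comm]
    exact congrArg (t j * ·) (congrFun (congrFun (cm_mc (a := a) (b := b) e) (i, s)) j).symm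
  have e2 : ∀ (E : Type) [Field E] [Algebra ℚ E] (φ : Matrix ι ι (Q a b E)) x k,
      cm (φ * bc (ra E) (Matrix.of fun i k => mc a b e i (f k))) x k =
        (co φ * e.map (ra E)) x (f k) := fun E _ _ φ x k => by
    conv_rhs => rw [← cm_mc (a := a) (b := b) e, ← cm_bc, co_mul_cm]
    rfl
  refine ⟨_, hf, fun p => (intM_iff _).2 fun x k => ?_, bdR_of fun x k => ?_⟩
  · rw [e2]
    exact h1 p _ _
  · rw [e2]
    exact h2 _ _

theorem godement (hdiv : ¬ IsNm (a : ℚ) (b : ℚ)) {H₀ : Matrix ι ι (Q a b ℤ)}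
    (hu : IsUnit (bc (ia ℚ) H₀)) {H : Matrix ι ι (Q a b ℚ)} (han : ∀ v, v ≠ 0 → hf H v v ≠ 0) :
    ∃ (C : ℝ) (M : ℕ), 0 < M ∧ ∀ F : Form H₀, F.H = H → ∃ g : Un H,
      (∀ p : Nat.Primes, IntM ((M : ℚ_[p]) • ((F.φ p).1 * bc (ra ℚ_[p]) g.1.1))) ∧
      BdR C (F.φ'.1 * bc (ra ℝ) g.1.1) := by
  classical
  obtain ⟨C, hC⟩ := short_frame hdiv hu
  obtain ⟨K, -, hb⟩ := exists_bd (bc (ia ℝ) H₀)
  have hfin := finite_of_bounded (a := a) (b := b) (ι := ι) (κ := ι) one_pos (K * (C * C))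
  have hr : ∀ X : Matrix ι ι (Q a b ℚ), ∃ r : (Matrix ι ι (Q a b ℚ))ˣ,
      (∃ g : (Matrix ι ι (Q a b ℚ))ˣ, g.1ᴴ * H * g.1 = X) → r.1ᴴ * H * r.1 = X := fun X => by
    by_cases h : ∃ g : (Matrix ι ι (Q a b ℚ))ˣ, g.1ᴴ * H * g.1 = X
    · exact ⟨h.choose, fun _ => h.choose_spec⟩
    · exact ⟨1, fun h' => absurd h' h⟩
  choose r hr using hr
  choose M hM hM' using fun X => exists_den ((r X)⁻¹).1
  choose D hD using fun X => BdR.mul (C := C) (bc (ra ℝ) ((r X)⁻¹).1)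
  obtain ⟨D₀, hD₀⟩ := (hfin.image D).bddAbove
  refine ⟨D₀, ∏ X ∈ hfin.toFinset, M X, Finset.prod_pos fun X _ => hM X, fun F hF => ?_⟩
  obtain ⟨g, ⟨g, rfl⟩, h1, h2⟩ := hC F (by rwa [hF])
  have hX : g.1ᴴ * H * g.1 ∈ hfin.toFinset := by
    rw [Set.Finite.mem_toFinset, ← hF]
    refine ⟨fun p => ?_, ?_⟩
    · rw [Nat.cast_one, one_smul, bc_gram (F.hφ p)]
      exact ((h1 p).conjTranspose.mul (intM_bc_int _ _)).mul (h1 p)
    · rw [bc_gram F.hφ']
      exact hb _ _ h2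
  have h3 := hr _ ⟨g, rfl⟩
  generalize hY : g.1ᴴ * H * g.1 = Y at hX h3
  have e : ∀ (E : Type) [CommRing E] [Algebra ℚ E] (φ : Matrix ι ι (Q a b E)),
      φ * bc (ra E) (g * (r Y)⁻¹).1 = φ * bc (ra E) g.1 * bc (ra E) ((r Y)⁻¹).1 :=
    fun E _ _ φ => by simp only [bc, Units.val_mul, Matrix.map_mul, Matrix.mul_assoc]
  refine ⟨⟨g * (r Y)⁻¹, ?_⟩, fun p => ?_, fun i j => ?_⟩
  · show (g * (r Y)⁻¹).1ᴴ * H * (g * (r Y)⁻¹).1 = H
    calc (g * (r Y)⁻¹).1ᴴ * H * (g * (r Y)⁻¹).1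
        = ((r Y)⁻¹).1ᴴ * (g.1ᴴ * H * g.1) * ((r Y)⁻¹).1 := by
          simp only [Units.val_mul, conjTranspose_mul, Matrix.mul_assoc]
      _ = ((r Y)⁻¹).1ᴴ * ((r Y).1ᴴ * H * (r Y).1) * ((r Y)⁻¹).1 := by rw [hY, h3]
      _ = ((r Y).1 * ((r Y)⁻¹).1)ᴴ * H * ((r Y).1 * ((r Y)⁻¹).1) := by
          simp only [conjTranspose_mul, Matrix.mul_assoc]
      _ = H := by rw [Units.mul_inv, conjTranspose_one, Matrix.one_mul, Matrix.mul_one]
  · obtain ⟨c, hc⟩ := Finset.dvd_prod_of_mem M hX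
    rw [e, hc, mul_comm, Nat.cast_mul, mul_smul, ← Matrix.mul_smul]
    exact ((h1 p).mul (hM' Y p)).smul (by simpa using Padic.norm_int_le_one (c : ℤ))
  · rw [e]
    exact FinAux.BQ.mono ((hD Y _ h2).1 i j) (hD₀ ⟨Y, by simpa using hX, rfl⟩)

end Pool.Agent.P.MP_3c2f8c_gt
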