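import Pool.Agent.P.MP_3c2f8c_gt.Gl.Form1
import Pool.Agent.P.MP_3c2f8c_gt.Gl.Gode

/-! GL-9: cocompactness and properness. -/

namespace Pool.Agent.P.MP_3c2f8c_gt

open Matrix

variable {a b : ℤ} [NeZero a] [NeZero b] {ι : Type} [Fintype ι] [DecidableEq ι]
  {H₀ : Matrix ι ι (Q a b ℤ)} {S : Finset Nat.Primes} {n : ℕ} {K : ∀ p, Subgroup (Ul H₀ p)}

namespace Form2Aux

theorem inv_val {A : Type} [Ring A] [StarRing A] {H G : Matrix ι ι A} (hG : G * H = 1)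
    (c : Un H) : (c⁻¹).1.1 = G * (c.1.1ᴴ * H) := by
  have hc : c.1.1ᴴ * H * c.1.1 = H := c.2
  have h1 : G * (c.1.1ᴴ * H) * c.1.1 = 1 := by rw [Matrix.mul_assoc, hc, hG]
  have h2 : c.1.1 * (c⁻¹).1.1 = 1 := by
    rw [← Units.val_mul, ← Subgroup.coe_mul, mul_inv_cancel]
    rfl
  calc (c⁻¹).1.1 = G * (c.1.1ᴴ * H) * c.1.1 * (c⁻¹).1.1 := by rw [h1, Matrix.one_mul]
    _ = G * (c.1.1ᴴ * H) := by rw [Matrix.mul_assoc _ c.1.1, h2, Matrix.mul_one]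

theorem isom {A : Type} [Ring A] [StarRing A] {H H' : Matrix ι ι A} (φ : (Matrix ι ι A)ˣ)
    (h : φ.1ᴴ * H * φ.1 = H') (u : Un H) : (u.1 * φ).1ᴴ * H * (u.1 * φ).1 = H' := by
  have hu : u.1.1ᴴ * H * u.1.1 = H := u.2
  calc (u.1 * φ).1ᴴ * H * (u.1 * φ).1 = φ.1ᴴ * (u.1.1ᴴ * H * u.1.1) * φ.1 := by
        simp only [Units.val_mul, conjTranspose_mul, Matrix.mul_assoc]
    _ = H' := by rw [hu, h]

omit [NeZero a] [NeZero b] [DecidableEq ι] in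
theorem smul_mul_int {p : ℕ} [Fact p.Prime] {g h : Matrix ι ι (Q a b ℚ_[p])} {c d : ℚ_[p]}
    (hg : IntM (c • g)) (hh : IntM (d • h)) : IntM ((c * d) • (g * h)) := by
  have := hg.mul hh
  rwa [Matrix.smul_mul, Matrix.mul_smul, smul_smul] at this

omit [NeZero a] [NeZero b] [Fintype ι] [DecidableEq ι] in
theorem smul_ct {p : ℕ} [Fact p.Prime] {g : Matrix ι ι (Q a b ℚ_[p])} {c : ℚ_[p]}
    (hg : IntM (c • g)) : IntM (c • gᴴ) := fun i j => by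
  have h := (mem_intQ _).1 (hg j i)
  rw [mem_intQ, Matrix.smul_apply, conjTranspose_apply]
  simpa using h

omit [NeZero a] [NeZero b] [DecidableEq ι] in
theorem of_norm_le {p : ℕ} [Fact p.Prime] {g : Matrix ι ι (Q a b ℚ_[p])} {c d : ℚ_[p]}
    (hg : IntM (c • g)) (hc : c ≠ 0) (h : ‖d‖ ≤ ‖c‖) : IntM (d • g) := by
  have h1 := hg.smul (c := d / c) (by
    rw [norm_div]
    exact div_le_one_of_le₀ h (norm_nonneg _))
  rwa [smul_smul, div_mul_cancel₀ _ hc] at h1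

omit [NeZero a] [NeZero b] in
/-- Integrality of an element of the local group and of its inverse. -/
theorem loc {p : ℕ} [Fact p.Prime] {G : Matrix ι ι (Q a b ℚ_[p])}
    (hG : G * bc (ia ℚ_[p]) H₀ = 1) (φ : (Matrix ι ι (Q a b ℚ_[p]))ˣ) {m e₁ e₂ : ℚ_[p]}
    (h₁ : IntM (e₁ • (φ⁻¹).1)) (h₂ : IntM (e₂ • G)) (he : ‖e₂‖ ≤ 1)
    (c : Un (bc (ia ℚ_[p]) H₀)) (hc : IntM (m • (c.1.1 * φ.1))) :
    IntM ((e₂ * (m * e₁)) • (c⁻¹).1.1) ∧ IntM ((e₂ * (m * e₁)) • (c⁻¹⁻¹).1.1) := by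
  have h3 : IntM ((m * e₁) • c.1.1) := by
    have := smul_mul_int hc h₁
    rwa [Matrix.mul_assoc, Units.mul_inv, Matrix.mul_one] at this
  constructor
  · rw [inv_val hG]
    refine smul_mul_int h₂ ?_
    have := (smul_ct h3).mul (intM_bc_int p H₀)
    rwa [Matrix.smul_mul] at this
  · rw [inv_inv, ← smul_smul]
    exact h3.smul he

omit [NeZero a] [NeZero b] in
theorem inv_bc {G : Matrix ι ι (Q a b ℚ)} (hG : G * bc (ia ℚ) H₀ = 1) (R : Type) [CommRing R]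
    [Algebra ℚ R] : bc (ra R) G * bc (ia R) H₀ = 1 := by
  have h : bc (ia R) H₀ = bc (ra R) (bc (ia ℚ) H₀) := by
    rw [bc_bc, RingHom.ext_int ((ra R).comp (ia ℚ)) (ia R)]
  rw [h, ← Matrix.map_mul, hG]
  exact Matrix.map_one _ (map_zero _) (map_one _)

theorem finite_supp {P : Type} {U : P → Type} [∀ p, One (U p)] {B : Set P} (hB : B.Finite)
    (s : ∀ p, Finset (U p)) :
    {r : ∀ p, U p | (∀ p ∈ B, r p ∈ s p) ∧ ∀ p, p ∉ B → r p = 1}.Finite := by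
  have := hB.to_subtype
  refine Set.Finite.of_finite_image (f := fun r (p : B) => r p.1)
    ((Set.Finite.pi' fun p : B => (s p.1).finite_toSet).subset ?_) ?_
  · rintro _ ⟨r, hr, rfl⟩ p
    exact hr.1 p.1 p.2
  · intro r hr r' hr' h
    funext p
    by_cases hp : p ∈ B
    · exact congrFun h ⟨p, hp⟩
    · rw [hr.2 p hp, hr'.2 p hp]

theorem finite_dvd {M : ℕ} (hM : 0 < M) : {p : Nat.Primes | ‖(M : ℚ_[p])‖ ≠ 1}.Finite := by
  refine ((Set.finite_Iic M).preimage Subtype.val_injective.injOn).subset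
    fun (p : Nat.Primes) hp => ?_
  have h1 : ‖(M : ℚ_[p])‖ ≤ 1 := by simpa using Padic.norm_int_le_one (p := p) (M : ℤ)
  exact Nat.le_of_dvd hM (Padic.norm_natCast_lt_one_iff.1 (lt_of_le_of_ne h1 hp))

theorem norm_pow_le (p : Nat.Primes) (k : ℕ) : ‖(p.1 : ℚ_[p]) ^ k‖ ≤ 1 := by
  rw [norm_pow]
  exact pow_le_one₀ (norm_nonneg _) (Padic.norm_p_lt_one (p := p)).le

theorem pow_ne (p : Nat.Primes) (k : ℕ) : (p.1 : ℚ_[p]) ^ k ≠ 0 :=
  pow_ne_zero _ (Nat.cast_ne_zero.2 p.2.ne_zero)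

theorem compact_shift {G : Type} [Group G] [TopologicalSpace G] [IsTopologicalGroup G]
    {L : Subgroup G} (hL : IsCompact (L : Set G)) (u u' : G) :
    IsCompact {x | u'⁻¹ * x * u ∈ L} := by
  have h := hL.image (f := fun x => u' * x * u⁻¹) (by fun_prop)
  have e : {x | u'⁻¹ * x * u ∈ L} = (fun x => u' * x * u⁻¹) '' (L : Set G) := by
    ext x
    refine ⟨fun hx => ⟨_, hx, by group⟩, ?_⟩
    rintro ⟨y, hy, rfl⟩
    show u'⁻¹ * (u' * y * u⁻¹) * u ∈ L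
    rwa [show u'⁻¹ * (u' * y * u⁻¹) * u = y by group]
  rwa [e]

theorem mem_of_shift {G : Type} [Group G] {L : Subgroup G} {u u' x : G} (hu : u ∈ L)
    (hu' : u' ∈ L) (h : u'⁻¹ * x * u ∈ L) : x ∈ L := by
  have := mul_mem (mul_mem hu' h) (inv_mem hu)
  rwa [show u' * (u'⁻¹ * x * u) * u⁻¹ = x by group] at this

end Form2Aux

open Form2Aux in
theorem Form.Good.cocpt {F : Form H₀} (hG : F.Good S) (hK : Level (Kst H₀) K) :
    ∃ (C : ℝ) (s : Set (∀ p, Ul H₀ p)), s.Finite ∧ (∀ r ∈ s, r ∈ Ad K) ∧ ∀ u ∈ Ad K,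
      ∀ h : Un (bc (ia ℝ) H₀), ∃ g : Un F.H, ∃ r ∈ s,
        (∀ p, (r p)⁻¹ * (F.Φ g p)⁻¹ * u p ∈ K p) ∧ BdR C ((F.real g)⁻¹ * h).1.1 := by
  classical
  obtain ⟨C, M, hM, hgo⟩ := godement hG.ram.div_rat hG.unit₀ hG.aniso
  obtain ⟨G, hG1⟩ := hG.unit₀.exists_left_inv
  have hM0 : ∀ p : Nat.Primes, (M : ℚ_[p]) ≠ 0 := fun p => Nat.cast_ne_zero.2 hM.ne'
  have hs : ∀ p : Nat.Primes, ∃ s : Finset (Ul H₀ p), ∀ c : Ul H₀ p,
      IntM ((M : ℚ_[p]) • (c.1.1 * (F.φ p).1)) → ∃ r ∈ s, r⁻¹ * c⁻¹ ∈ K p := by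
    intro p
    obtain ⟨k₁, h₁⟩ := exists_pow_smul_intM ((F.φ p)⁻¹).1
    obtain ⟨k₂, h₂⟩ := exists_pow_smul_intM (bc (ra ℚ_[p]) G)
    obtain ⟨s, hs⟩ := finite_cosets (isCompact_bounded (bc (ia ℚ_[p]) H₀)
      (mul_ne_zero (pow_ne p k₂) (mul_ne_zero (hM0 p) (pow_ne p k₁)))) (hK.1 p).2
    exact ⟨s, fun c hc => hs c⁻¹ (loc (inv_bc hG1 _) (F.φ p) h₁ h₂ (norm_pow_le p k₂) c hc)⟩
  choose s hs using hs
  set B : Set Nat.Primes := {p | ‖(M : ℚ_[p])‖ ≠ 1} ∪ {p | ¬ IntU (F.φ p)} ∪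
    {p | ¬ IntM (bc (ra ℚ_[p]) G)} ∪ {p | K p ≠ Kst H₀ p} with hBdef
  have hB : B.Finite := (((finite_dvd hM).union F.fin).union (finite_not_intM G)).union hK.2
  have hoff : ∀ p, p ∉ B → ∀ c : Ul H₀ p, IntM ((M : ℚ_[p]) • (c.1.1 * (F.φ p).1)) →
      c⁻¹ ∈ K p := by
    intro p hp c hc
    simp only [hBdef, Set.mem_union, Set.mem_ofPred_eq, not_or, not_not] at hp
    obtain ⟨⟨⟨h1, h2⟩, h3⟩, h4⟩ := hp
    have hc' : IntM ((1 : ℚ_[p]) • (c.1.1 * (F.φ p).1)) :=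
      of_norm_le hc (hM0 p) (by rw [h1, norm_one])
    have h5 := loc (e₁ := 1) (e₂ := 1) (inv_bc hG1 _) (F.φ p) (by rw [one_smul]; exact h2.2)
      (by rw [one_smul]; exact h3) (by rw [norm_one]) c hc'
    rw [h4]
    simp only [mul_one, one_smul] at h5
    exact h5
  obtain ⟨C₁, hC₁⟩ := BdR.mul (C := C) (F.φ'⁻¹).1
  obtain ⟨C₂, hC₂⟩ := BdR.mul (C := C₁) (bc (ia ℝ) H₀)
  obtain ⟨C₃, hC₃⟩ := BdR.mul (C := C₂) (bc (ia ℝ) H₀)
  obtain ⟨C₄, hC₄⟩ := BdR.mul (C := C₃) (bc (ra ℝ) G)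
  refine ⟨C₄, _, finite_supp hB s, fun r hr => hB.subset fun p hp => ?_, fun u hu h => ?_⟩
  · by_contra hpB
    exact hp (by rw [hr.2 p hpB]; exact one_mem _)
  rw [hK.ad_eq] at hu
  let F' : Form H₀ :=
    { H := F.H
      φ := fun p => ((u p)⁻¹).1 * F.φ p
      φ' := (h⁻¹).1 * F.φ'
      hφ := fun p => isom (F.φ p) (F.hφ p) (u p)⁻¹
      fin := (Set.Finite.union hu F.fin).subset fun p hp => by
        by_contra hn
        simp only [Set.mem_union, Set.mem_ofPred_eq, not_or, not_not] at hn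
        have h1 : IntU ((u p)⁻¹).1 := inv_mem hn.1
        refine hp ⟨h1.1.mul hn.2.1, ?_⟩
        rw [_root_.mul_inv_rev]
        exact hn.2.2.mul h1.2
      hφ' := isom F.φ' F.hφ' h⁻¹ }
  obtain ⟨g, hg1, hg2⟩ := hgo F' rfl
  have hc : ∀ p : Nat.Primes, IntM ((M : ℚ_[p]) • (((u p)⁻¹ * F.Φ g p).1.1 * (F.φ p).1)) := by
    intro p
    have e : ((u p)⁻¹ * F.Φ g p).1.1 * (F.φ p).1 = (F'.φ p).1 * bc (ra ℚ_[p]) g.1.1 := by
      rw [Subgroup.coe_mul, Units.val_mul, F.val_Φ]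
      simp only [F', Units.val_mul, Matrix.mul_assoc, Units.inv_mul, Matrix.mul_one]
    rw [e]
    exact hg1 p
  choose r hr hr' using fun p => hs p _ (hc p)
  refine ⟨g, fun p => if p ∈ B then r p else 1, ⟨fun p hp => ?_, fun p hp => ?_⟩,
    fun p => ?_, ?_⟩
  · simpa only [if_pos hp] using hr p
  · simp only [if_neg hp]
  · by_cases hp : p ∈ B
    · have := hr' p
      rw [_root_.mul_inv_rev, inv_inv, ← mul_assoc] at this
      simpa only [if_pos hp] using this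
    · have := hoff p hp _ (hc p)
      rw [_root_.mul_inv_rev, inv_inv] at this
      simpa only [if_neg hp, inv_one, one_mul] using this
  · have e1 : (F.real g)⁻¹ * h = (h⁻¹ * F.real g)⁻¹ := by rw [_root_.mul_inv_rev, inv_inv]
    have e2 : (h⁻¹ * F.real g).1.1 = F'.φ'.1 * bc (ra ℝ) g.1.1 * (F.φ'⁻¹).1 := by
      rw [Subgroup.coe_mul, Units.val_mul, F.val_real]
      simp only [F', Units.val_mul, Matrix.mul_assoc]
    rw [e1, inv_val (inv_bc hG1 ℝ), e2]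
    exact (hC₄ _ (hC₃ _ (hC₂ _ (hC₁ _ hg2).1).2.2).1).2.1

theorem Form.Good.finCl {F : Form H₀} (hG : F.Good S) (hK : Level (Kst H₀) K) :
    FinCl F.Φ K := by
  obtain ⟨C, s, hs, -, h⟩ := hG.cocpt hK
  refine ⟨s, hs, fun u hu => ?_⟩
  obtain ⟨g, r, hr, h1, -⟩ := h u hu 1
  exact ⟨g, r, hr, h1⟩

omit [NeZero a] [NeZero b] in
theorem Form.proper (F : Form H₀) (hK : Level (Kst H₀) K) {u u' : ∀ p, Ul H₀ p} (hu : u ∈ Ad K)
    (hu' : u' ∈ Ad K) (C : ℝ) : {g : Un F.H | (∀ p, (u' p)⁻¹ * F.Φ g p * u p ∈ K p) ∧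
      BdR C (F.real g).1.1}.Finite := by
  have hval : ∀ (g : Un F.H) (p : Nat.Primes), bc (ra ℚ_[p]) g.1.1 =
      ((F.φ p)⁻¹).1 * ((F.Φ g p).1.1 * (F.φ p).1) := by
    intro g p
    rw [F.val_Φ]
    simp only [Matrix.mul_assoc, Units.inv_mul, Matrix.mul_one, Units.inv_mul_cancel_left]
  have hk : ∀ p : Nat.Primes, ∃ k : ℕ, ∀ g : Un F.H, (u' p)⁻¹ * F.Φ g p * u p ∈ K p →
      IntM ((p.1 : ℚ_[p]) ^ k • bc (ra ℚ_[p]) g.1.1) := by
    intro p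
    obtain ⟨k₀, h₀⟩ := bounded_of_isCompact (Form2Aux.compact_shift (hK.1 p).1 (u p) (u' p))
    obtain ⟨k₁, h₁⟩ := exists_pow_smul_intM ((F.φ p)⁻¹).1
    obtain ⟨k₂, h₂⟩ := exists_pow_smul_intM (F.φ p).1
    refine ⟨k₁ + (k₀ + k₂), fun g hg => ?_⟩
    rw [hval, pow_add, pow_add]
    exact Form2Aux.smul_mul_int h₁ (Form2Aux.smul_mul_int (h₀ _ hg) h₂)
  choose k hk using hk
  have hB : ({p | ¬ IntU (F.φ p)} ∪ {p | u p ∉ K p} ∪ {p | u' p ∉ K p} ∪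
      {p | K p ≠ Kst H₀ p}).Finite := ((F.fin.union hu).union hu').union hK.2
  obtain ⟨M, hM, hMk⟩ := exists_denominator hB.toFinset k
  obtain ⟨C₁, hC₁⟩ := BdR.mul (C := C) F.φ'.1
  obtain ⟨C₂, hC₂⟩ := BdR.mul (C := C₁) (F.φ'⁻¹).1
  refine ((finite_of_bounded (a := a) (b := b) (ι := ι) (κ := ι) hM C₂).preimage
    (f := fun g : Un F.H => g.1.1)
    (Units.val_injective.comp Subtype.val_injective).injOn).subset ?_
  rintro g ⟨hg1, hg2⟩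
  refine ⟨fun p => ?_, ?_⟩
  · by_cases hp : p ∈ hB.toFinset
    · exact Form2Aux.of_norm_le (hk p g (hg1 p)) (Form2Aux.pow_ne p _) (hMk p hp)
    · simp only [Set.Finite.mem_toFinset, Set.mem_union, Set.mem_ofPred_eq, not_or, not_not] at hp
      obtain ⟨⟨⟨h1, h2⟩, h3⟩, h4⟩ := hp
      have h5 : F.Φ g p ∈ K p := by
        exact Form2Aux.mem_of_shift h2 h3 (hg1 p)
      rw [h4] at h5
      have h6 : IntU (F.Φ g p).1 := h5
      refine IntM.smul ?_ (by simpa using Padic.norm_int_le_one (p := p) (M : ℤ))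
      rw [hval]
      exact h1.2.mul (h6.1.mul h1.1)
  · have e : bc (ra ℝ) g.1.1 = (F.φ'⁻¹).1 * ((F.real g).1.1 * F.φ'.1) := by
      rw [F.val_real]
      simp only [Matrix.mul_assoc, Units.inv_mul, Matrix.mul_one, Units.inv_mul_cancel_left]
    show BdR C₂ (bc (ra ℝ) g.1.1)
    rw [e]
    exact (hC₂ _ (hC₁ _ hg2).1).2.1

end Pool.Agent.P.MP_3c2f8c_gt
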