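import Pool.Agent.P.MP_3c2f8c_gt.Gl.Form2
import Pool.Agent.P.MP_3c2f8c_gt.Gl.Abs3
import Pool.Agent.P.MP_3c2f8c_gt.Lo.Tan2
import Pool.Agent.P.MP_3c2f8c_gt.An.Comp
import Pool.Agent.P.MP_3c2f8c_gt.An.Centr

/-! GL-10: the action on hyperbolic space times adelic cosets. -/

namespace Pool.Agent.P.MP_3c2f8c_gt

open Matrix

variable {a b : ℤ} [NeZero a] [NeZero b] {ι : Type} [Fintype ι] [DecidableEq ι]
  {H₀ : Matrix ι ι (Q a b ℤ)} {S : Finset Nat.Primes} {n : ℕ} {K : ∀ p, Subgroup (Ul H₀ p)}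

omit [NeZero a] [NeZero b] in
theorem Form3Aux.exists_act (I : RealId H₀ n) (x : Hyp n) :
    ∃ h : Un (bc (ia ℝ) H₀), I.act h • orig n = x := by
  obtain ⟨g, hg⟩ := exists_smul_orig x
  obtain ⟨h, hh, -⟩ := I.exists_act g
  exact ⟨h, by rw [hh, hg]⟩

omit [NeZero a] [NeZero b] in
theorem Form3Aux.inv_smul (F : Form H₀) (I : RealId H₀ n) (g : Un F.H) (h : Un (bc (ia ℝ) H₀)) :
    F.ρ I g⁻¹ • I.act h • orig n = I.act ((F.real g)⁻¹ * h) • orig n := by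
  rw [map_mul, mul_smul, ← map_inv]
  rfl

theorem Form.Good.gam_cocpt {F : Form H₀} (hG : F.Good S) (I : RealId H₀ n)
    (hK : Level (Kst H₀) K) : Cocpt (F.ρ I) (Gam F.Φ K) := by
  obtain ⟨C, s, hs, -, hc⟩ := hG.cocpt hK
  obtain ⟨C', hC'⟩ := I.bdd C
  have h1 : ∀ r : ∀ p, Ul H₀ p, ∃ g₀ : Un F.H,
      ∀ g : Un F.H, (∀ p, (r p)⁻¹ * (F.Φ g p)⁻¹ ∈ K p) →
        ∀ p, (r p)⁻¹ * (F.Φ g₀ p)⁻¹ ∈ K p := fun r => by
    by_cases h : ∃ g : Un F.H, ∀ p, (r p)⁻¹ * (F.Φ g p)⁻¹ ∈ K p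
    · obtain ⟨g, hg⟩ := h
      exact ⟨g, fun _ _ => hg⟩
    · exact ⟨1, fun g hg => absurd ⟨g, hg⟩ h⟩
  choose g₀ hg₀ using h1
  obtain ⟨M, hM⟩ := (hs.image fun r => uu (orig n) (F.ρ I (g₀ r) • orig n)).bddAbove
  refine ⟨2 * M * C', fun x => ?_⟩
  obtain ⟨h, rfl⟩ := Form3Aux.exists_act I x
  obtain ⟨g, r, hr, hg, hb⟩ := hc 1 (one_mem _) h
  simp only [Pi.one_apply, mul_one] at hg
  refine ⟨g₀ r * g⁻¹, (mem_Gam _ _ _).2 fun p => ?_, ?_⟩
  · have := mul_mem (inv_mem (hg₀ r g hg p)) (hg p)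
    rw [_root_.mul_inv_rev, inv_inv, inv_inv, mul_assoc, mul_inv_cancel_left] at this
    rw [map_mul, map_inv]
    exact this
  · rw [map_mul, mul_smul, Form3Aux.inv_smul]
    refine (uu_le_two_mul _ (F.ρ I (g₀ r) • orig n) _).trans ?_
    rw [uu_smul]
    have e1 : uu (orig n) (F.ρ I (g₀ r) • orig n) ≤ M := hM ⟨r, hr, rfl⟩
    have e2 := (hC' _).1 hb
    have e3 := one_le_uu (orig n) (F.ρ I (g₀ r) • orig n)
    have e4 := one_le_uu (orig n) (I.act ((F.real g)⁻¹ * h) • orig n)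
    exact mul_le_mul (by linarith) e2 (by linarith) (by linarith)

theorem Form.Good.isOpen_closure {F : Form H₀} (hG : F.Good S) (I : RealId H₀ n) (hn : 1 ≤ n)
    (hK : Level (Kst H₀) K) {p : Nat.Primes} (hp : p ∉ S) :
    IsOpen (((Gam F.Φ K).map (cmp F.Φ p)).topologicalClosure : Set (Ul H₀ p)) := by
  have hs : IsNm (a : ℚ_[p]) (b : ℚ_[p]) := by
    by_contra h
    exact hp ((hG.ram.div p).2 h)
  have hinf : Infinite (Gam F.Φ K) := infinite_of_cocompact hn (F.ρ I) _ (hG.gam_cocpt I hK)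
  refine open_closure_un hs hG.skew_bc hG.unit_bc hG.card (K := K p) (hK.1 p).1 ?_ ?_
    (𝒢 := Set.range (cmp F.Φ p)) ?_ ?_
  · rintro _ ⟨g, hg, rfl⟩
    exact (mem_Gam _ _ _).1 hg p
  · exact Infinite.of_injective _
      ((Gam F.Φ K).equivMapOfInjective _ (F.cmp_injective p)).injective
  · rintro _ ⟨g, rfl⟩
    obtain ⟨m, hm, h⟩ := hK.exists_pow F.mem_Ad g
    refine ⟨m, hm, ?_⟩
    rintro _ ⟨γ, hγ, rfl⟩
    exact ⟨_, h γ hγ, by rw [map_mul, map_mul, map_pow, map_inv]⟩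
  · intro g hg
    classical
    refine mem_closure_iff_nhds.2 fun V hV => ?_
    obtain ⟨γ, hγ⟩ := hG.wa {p} (Function.update 1 p g) (fun q hq => by
        obtain rfl := Finset.mem_singleton.1 hq
        rw [Function.update_self]
        exact hg) (Function.update (fun _ => Set.univ) p V) (fun q hq => by
        obtain rfl := Finset.mem_singleton.1 hq
        rw [Function.update_self, Function.update_self]
        exact hV)
    have := hγ p (Finset.mem_singleton_self p)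
    rw [Function.update_self] at this
    exact ⟨_, this, γ, rfl⟩

omit [NeZero a] [NeZero b] in
theorem Form3Aux.eq_one (F : Form H₀) {q : Nat.Primes}
    (hq : ∀ g ∈ K q, IsOfFinOrder g → g = 1) {g : Un F.H} (hg : IsOfFinOrder g) (u : Ul H₀ q)
    (hu : u⁻¹ * F.Φ g q * u ∈ K q) : g = 1 := by
  have h1 : IsOfFinOrder (u⁻¹ * F.Φ g q * u) := by
    have := (MulAut.conj u⁻¹).toMonoidHom.isOfFinOrder ((cmp F.Φ q).isOfFinOrder hg)
    simpa [cmp] using this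
  have h2 := hq _ hu h1
  apply F.cmp_injective q
  rw [map_one]
  change F.Φ g q = 1
  calc F.Φ g q = u * (u⁻¹ * F.Φ g q * u) * u⁻¹ := by group
    _ = 1 := by rw [h2, mul_one, mul_inv_cancel]

theorem Form.Good.nice {F : Form H₀} (hG : F.Good S) (I : RealId H₀ n) (hK : Level (Kst H₀) K)
    (h : ∀ g, F.Φ g ∈ Ad K) {q : Nat.Primes} (hq : ∀ g ∈ K q, IsOfFinOrder g → g = 1) :
    letI := F.hAct I
    letI := zAct F.Φ K h
    Nice (Un F.H) (Zs K) (F.ρ I) := by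
  letI := F.hAct I
  letI := zAct F.Φ K h
  have hact : ∀ (g : Un F.H) (x : Hyp n), g • x = F.ρ I g • x := fun _ _ => rfl
  have hpr : ∀ (z z' : Zs K) (R : ℝ),
      {g : Un F.H | g • z = z' ∧ uu (orig n) (g • orig n) ≤ R}.Finite := fun z z' R => by
    obtain ⟨u, rfl⟩ := exists_smul_z0 z
    obtain ⟨u', rfl⟩ := exists_smul_z0 z'
    obtain ⟨C', hC'⟩ := I.bdd R
    exact (F.proper hK u.2 u'.2 C').subset fun g hg =>
      ⟨(zAct_smul_eq_iff F.Φ h g u u').1 hg.1, (hC' _).2 hg.2⟩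
  refine ⟨hact, fun g x z hx hz => ?_, hpr, ?_⟩
  · have hf : IsOfFinOrder g := by
      refine finite_powers.1 ((hpr z z (2 * uu (orig n) x * uu x (orig n))).subset ?_)
      rintro _ ⟨k, rfl⟩
      have h1 : g ^ k • x = x := (MulAction.stabilizer (Un F.H) x).pow_mem hx k
      refine ⟨(MulAction.stabilizer (Un F.H) z).pow_mem hz k, ?_⟩
      refine (uu_le_two_mul _ x _).trans (le_of_eq ?_)
      have h2 := uu_smul (F.ρ I (g ^ k)) x (orig n)
      rw [← hact, ← hact, h1] at h2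
      exact congrArg _ h2
    obtain ⟨u, rfl⟩ := exists_smul_z0 z
    exact Form3Aux.eq_one F hq hf (u.1 q) ((zAct_smul_eq_iff F.Φ h g u u).1 hz q)
  · obtain ⟨C, s, hs, hsA, hc⟩ := hG.cocpt hK
    obtain ⟨C', hC'⟩ := I.bdd C
    have hfin : ((fun r : Ad K => r • z0 K) '' (Subtype.val ⁻¹' s)).Finite :=
      (hs.preimage Subtype.val_injective.injOn).image _
    refine ⟨C', hfin.toFinset, fun x z => ?_⟩
    obtain ⟨u, rfl⟩ := exists_smul_z0 z
    obtain ⟨h', rfl⟩ := Form3Aux.exists_act I x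
    obtain ⟨g, r, hr, hg, hb⟩ := hc u.1 u.2 h'
    refine ⟨g⁻¹, ?_, hfin.mem_toFinset.2 ⟨⟨r, hsA r hr⟩, hr, ?_⟩⟩
    · rw [hact, Form3Aux.inv_smul]
      exact (hC' _).1 hb
    · refine ((zAct_smul_eq_iff F.Φ h g⁻¹ u ⟨r, hsA r hr⟩).2 fun p => ?_).symm
      rw [map_inv]
      exact hg p

theorem Form.Good.isClosedMfd {F : Form H₀} (hG : F.Good S) (I : RealId H₀ n) (hn : Odd n)
    (hK : Level (Kst H₀) K) {q : Nat.Primes} (hq : ∀ g ∈ K q, IsOfFinOrder g → g = 1) :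
    IsClosedMfd ((Gam F.Φ K).map (F.ρ I)) := by
  have h : ∀ g, F.Φ g ∈ Ad K := fun g => by
    rw [hK.ad_eq]
    exact F.mem_Ad g
  letI := F.hAct I
  letI := zAct F.Φ K h
  have N := hG.nice I hK h hq
  have hs := stabilizer_z0 F.Φ h
  rw [← hs]
  refine N.isClosedMfd (z0 K) (fun g hg hf => ?_) fun g => ?_
  · rw [hs] at hg
    refine Form3Aux.eq_one F hq hf 1 ?_
    rw [inv_one, one_mul, mul_one]
    exact (mem_Gam _ _ _).1 hg q
  · have h1 : (I.ψ (F.real g).1.1).det = 1 := by rw [I.det, hG.nrd_real]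
    rcases I.act_val (F.real g) with e | e
    · exact (congrArg Matrix.det e).trans h1
    · refine (congrArg Matrix.det e).trans ?_
      rw [Matrix.det_neg, h1, Fintype.card_fin, hn.add_one.neg_one_pow, mul_one]

end Pool.Agent.P.MP_3c2f8c_gt
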