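import Pool.Agent.P.MP_3c2f8c_gt.Gl.Form1
import Pool.Agent.P.MP_3c2f8c_gt.Gl.Abs3
import Pool.Agent.P.MP_3c2f8c_gt.Qu.Match
import Pool.Agent.P.MP_3c2f8c_gt.Qu.Conj

/-! GL-11: transfer of conjugacy classes. -/

namespace Pool.Agent.P.MP_3c2f8c_gt

open Matrix

namespace Form4Aux

section
variable {A ι : Type} [Ring A] [StarRing A] [Fintype ι] [DecidableEq ι]

theorem mem_un {H₀ H H' : Matrix ι ι A} {φ φ' g : (Matrix ι ι A)ˣ} (h : φ.1ᴴ * H₀ * φ.1 = H)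
    (h' : φ'.1ᴴ * H₀ * φ'.1 = H') (hg : g.1ᴴ * H' * g.1 = H) : φ' * g * φ⁻¹ ∈ Un H₀ := by
  change (φ'.1 * g.1 * (φ⁻¹).1)ᴴ * H₀ * (φ'.1 * g.1 * (φ⁻¹).1) = H₀
  calc (φ'.1 * g.1 * (φ⁻¹).1)ᴴ * H₀ * (φ'.1 * g.1 * (φ⁻¹).1)
      = (φ⁻¹).1ᴴ * (g.1ᴴ * (φ'.1ᴴ * H₀ * φ'.1) * g.1) * (φ⁻¹).1 := by
        simp only [conjTranspose_mul, Matrix.mul_assoc]
    _ = (φ⁻¹).1ᴴ * (φ.1ᴴ * H₀ * φ.1) * (φ⁻¹).1 := by rw [h', hg, h]
    _ = (φ.1 * (φ⁻¹).1)ᴴ * H₀ * (φ.1 * (φ⁻¹).1) := by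
        simp only [conjTranspose_mul, Matrix.mul_assoc]
    _ = H₀ := by rw [← Units.val_mul, mul_inv_cancel]; simp

theorem transp_rel {H₀ H H' : Matrix ι ι A} {φ φ' g : (Matrix ι ι A)ˣ} (h : φ.1ᴴ * H₀ * φ.1 = H)
    (h' : φ'.1ᴴ * H₀ * φ'.1 = H') (hg : g.1ᴴ * H' * g.1 = H) {t : Un H} {t' : Un H'}
    (e : t'.1.1 * g.1 = g.1 * t.1.1) :
    transp φ' h' t' * ⟨_, mem_un h h' hg⟩ = ⟨_, mem_un h h' hg⟩ * transp φ h t := by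
  have e' : t'.1 * g = g * t.1 := Units.ext e
  apply Subtype.ext
  change φ' * t'.1 * φ'⁻¹ * (φ' * g * φ⁻¹) = φ' * g * φ⁻¹ * (φ * t.1 * φ⁻¹)
  calc φ' * t'.1 * φ'⁻¹ * (φ' * g * φ⁻¹) = φ' * (t'.1 * g) * φ⁻¹ := by group
    _ = _ := by rw [e']; group

end

theorem exists_tau {M : Type} [Group M] {A B : Subgroup M} (γ : A) (Θ : M)
    (h : ∀ t, t * γ.1 = γ.1 * t → (t ∈ A ↔ Θ * t * Θ⁻¹ ∈ B)) :
    ∃ (γ' : B) (τ : Subgroup.centralizer {γ} ≃* Subgroup.centralizer {γ'}),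
      γ'.1 = Θ * γ.1 * Θ⁻¹ ∧ ∀ t, (τ t).1.1 = Θ * t.1.1 * Θ⁻¹ := by
  let γ' : B := ⟨Θ * γ.1 * Θ⁻¹, (h _ rfl).1 γ.2⟩
  have c : ∀ t : Subgroup.centralizer {γ}, t.1.1 * γ.1 = γ.1 * t.1.1 := fun t =>
    congrArg Subtype.val (Subgroup.mem_centralizer_singleton_iff.1 t.2)
  have c' : ∀ t : Subgroup.centralizer {γ'}, Θ⁻¹ * t.1.1 * Θ * γ.1 = γ.1 * (Θ⁻¹ * t.1.1 * Θ) := by
    intro t
    have e : t.1.1 * (Θ * γ.1 * Θ⁻¹) = Θ * γ.1 * Θ⁻¹ * t.1.1 :=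
      congrArg Subtype.val (Subgroup.mem_centralizer_singleton_iff.1 t.2)
    calc Θ⁻¹ * t.1.1 * Θ * γ.1 = Θ⁻¹ * (t.1.1 * (Θ * γ.1 * Θ⁻¹)) * Θ := by group
      _ = _ := by rw [e]; group
  refine ⟨γ', ⟨⟨fun t => ⟨⟨Θ * t.1.1 * Θ⁻¹, (h _ (c t)).1 t.1.2⟩,
      Subgroup.mem_centralizer_singleton_iff.2 (Subtype.ext ?_)⟩,
    fun t => ⟨⟨Θ⁻¹ * t.1.1 * Θ, (h _ (c' t)).2 (by simpa [mul_assoc] using t.1.2)⟩,
      Subgroup.mem_centralizer_singleton_iff.2 (Subtype.ext (c' t))⟩, fun t => ?_, fun t => ?_⟩,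
    fun t t' => ?_⟩, rfl, fun _ => rfl⟩
  · change Θ * t.1.1 * Θ⁻¹ * (Θ * γ.1 * Θ⁻¹) = Θ * γ.1 * Θ⁻¹ * (Θ * t.1.1 * Θ⁻¹)
    calc Θ * t.1.1 * Θ⁻¹ * (Θ * γ.1 * Θ⁻¹) = Θ * (t.1.1 * γ.1) * Θ⁻¹ := by group
      _ = _ := by rw [c t]; group
  · exact Subtype.ext (Subtype.ext (by simp [mul_assoc]))
  · exact Subtype.ext (Subtype.ext (by simp [mul_assoc]))
  · exact Subtype.ext (Subtype.ext (by simp [mul_assoc]))

theorem isConj_of_map {M M' : Type} [Group M] [Group M'] {f : M →* M'}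
    (hf : Function.Bijective f) {u v : M} (h : IsConj (f u) (f v)) : IsConj u v := by
  obtain ⟨c, hc⟩ := isConj_iff.1 h
  obtain ⟨c, rfl⟩ := hf.2 c
  exact isConj_iff.2 ⟨c, hf.1 (by simpa using hc)⟩

theorem isConj_of_rel {M : Type} [Group M] {a₁ a₂ b₁ b₂ u₁ u₂ : M} {e : ℤ} (he : e = 1 ∨ e = -1)
    (h₁ : b₁ * u₁ = u₁ * a₁ ^ e) (h₂ : b₂ * u₂ = u₂ * a₂ ^ e) (h : IsConj b₁ b₂) :
    IsConj a₁ a₂ := by
  obtain ⟨c, rfl⟩ := isConj_iff.1 h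
  have k : u₂⁻¹ * c * u₁ * a₁ ^ e * (u₂⁻¹ * c * u₁)⁻¹ = a₂ ^ e := by
    calc u₂⁻¹ * c * u₁ * a₁ ^ e * (u₂⁻¹ * c * u₁)⁻¹
        = u₂⁻¹ * c * (u₁ * a₁ ^ e) * u₁⁻¹ * c⁻¹ * u₂ := by group
      _ = u₂⁻¹ * (c * b₁ * c⁻¹ * u₂) := by rw [← h₁]; group
      _ = _ := by rw [h₂]; group
  refine isConj_iff.2 ⟨u₂⁻¹ * c * u₁, ?_⟩
  rcases he with rfl | rfl
  · simpa using k
  · have := congrArg (·⁻¹) k
    simpa [mul_assoc] using this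

theorem isConj_of_rel' {M : Type} [Group M] {a₁ a₂ b₁ b₂ u₁ u₂ : M}
    (h₁ : b₁ * u₁ = u₁ * a₁) (h₂ : b₂ * u₂ = u₂ * a₂) (h : IsConj b₁ b₂) : IsConj a₁ a₂ :=
  isConj_of_rel (e := 1) (Or.inl rfl) (by rwa [zpow_one]) (by rwa [zpow_one]) h

theorem eps_eq (S' : Finset Nat.Primes) (p : Nat.Primes) : eps S' p = 1 ∨ eps S' p = -1 := by
  unfold eps
  split_ifs
  exacts [Or.inr rfl, Or.inl rfl]

end Form4Aux

open Form4Aux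

variable {a b b' : ℤ} [NeZero a] [NeZero b] {m : ℕ}
  {H₀ : Matrix (Fin (2 * m + 1)) (Fin (2 * m + 1)) (Q a b ℤ)} {S S' : Finset Nat.Primes} {n : ℕ}
  {K : ∀ p, Subgroup (Ul H₀ p)}

theorem Form.exists_match (hR : Ram a b S) (hT : Twist a b b' S') (F F' : Form H₀)
    {x x' : Fin (2 * m + 1) → Q a b ℚ} (hx : LorData x) (hx' : LorData x')
    (hF : F.H = diagonal x) (hF' : F'.H = diagonal x') {c : ℚ}
    (hl : LocIso S S' (diagonal x) (diagonal x') c) (γ : Un F.H) (hr : RegP (rchar γ.1.1)) :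
    ∃ (γ' : Un F'.H) (τ : Subgroup.centralizer {γ} ≃* Subgroup.centralizer {γ'})
      (u : ∀ p, Ul H₀ p) (h : Un (bc (ia ℝ) H₀)),
      (∀ t : Subgroup.centralizer {γ}, (t : Un F.H) = γ → (τ t : Un F'.H) = γ') ∧
      (∀ t t' : Subgroup.centralizer {γ}, t * t' = t' * t) ∧ u ∈ Ad (Kst H₀) ∧
      (∀ p (t : Subgroup.centralizer {γ}), F'.Φ (τ t) p * u p = u p * F.Φ t p ^ eps S' p) ∧
      ∀ t : Subgroup.centralizer {γ}, F'.real (τ t) * h = h * F.real t := by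
  obtain ⟨H, φ, φr, hφ, fin, hφr⟩ := F
  obtain ⟨H', φ', φr', hφ', fin', hφr'⟩ := F'
  dsimp only at hF hF' γ hr
  subst hF hF'
  obtain ⟨Θ, g, g', m1, m2, m3, m4, m5, m6, m7⟩ := matching hR hT hx hx' hl γ hr
  obtain ⟨γ', τ, t1, t2⟩ := exists_tau γ Θ m1
  have c : ∀ t : Subgroup.centralizer {γ}, t.1.1 * γ.1 = γ.1 * t.1.1 := fun t =>
    congrArg Subtype.val (Subgroup.mem_centralizer_singleton_iff.1 t.2)
  refine ⟨γ', τ, fun p => ⟨_, mem_un (hφ p) (hφ' p) (m3 p)⟩, ⟨_, mem_un hφr hφr' m6⟩,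
    fun t ht => Subtype.ext ?_, fun t t' => Subtype.ext (Subtype.ext (m2 _ _ (c t) (c t'))), ?_,
    fun p t => ?_, fun t => ?_⟩
  · rw [t2, t1, ht]
  · refine ((fin.union fin').union m4).subset fun p hp => ?_
    by_contra hn
    simp only [Set.mem_union, Set.mem_ofPred_eq, not_or, not_not] at hn
    refine hp ⟨(hn.1.2.1.mul hn.2.1).mul hn.1.1.2, ?_⟩
    simpa only [_root_.mul_inv_rev, inv_inv, Units.val_mul] using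
      hn.1.1.1.mul (hn.2.2.mul hn.1.2.2)
  · rw [← Pi.pow_apply, ← map_zpow]
    refine transp_rel (hφ p) (hφ' p) (m3 p) ?_
    have := m5 p t.1.1 t.1.2 (c t)
    rwa [← t2] at this
  · refine transp_rel hφr hφr' m6 ?_
    have := m7 t.1.1 t.1.2 (c t)
    rwa [← t2] at this

theorem Form.Good.conj_of_local {F : Form H₀} (hG : F.Good S) {γ₁ γ₂ : Un F.H}
    (hr : RegP (rchar γ₁.1.1)) (hloc : ∀ p, IsConj (F.Φ γ₁ p) (F.Φ γ₂ p))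
    (hre : IsConj (F.real γ₁) (F.real γ₂)) : IsConj γ₁ γ₂ :=
  Pool.Agent.P.MP_3c2f8c_gt.conj_of_local hG.ram hG.skew hG.unit γ₁ γ₂ hr
    (fun p => isConj_of_map (transp_bijective _ (F.hφ p)) (hloc p))
    (isConj_of_map (transp_bijective _ F.hφ') hre)

theorem Form.Good.transfer {F F' : Form H₀} (hG : F.Good S) (hT : Twist a b b' S')
    {x x' : Fin (2 * m + 1) → Q a b ℚ} (hx : LorData x) (hx' : LorData x')
    (hF : F.H = diagonal x) (hF' : F'.H = diagonal x') {c : ℚ}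
    (hl : LocIso S S' (diagonal x) (diagonal x') c) (I : RealId H₀ n) (hK : Level (Kst H₀) K)
    (h : ∀ g, F.Φ g ∈ Ad K) (h' : ∀ g, F'.Φ g ∈ Ad K) {l : Nat.Primes} (hl' : l ∉ S')
    {κ : Ul H₀ l ⧸ K l → Ul H₀ l ⧸ K l → ℕ}
    (hinv : ∀ (g : Ul H₀ l) z z', κ (g • z) (g • z') = κ z z')
    (hreg : ∀ (k : ℕ) (γ : Ul H₀ l) (z : Ul H₀ l ⧸ K l), Chain κ (k + 1) z (γ • z) →
      RegP (rchar γ.1.1)) :
    letI := F.hAct I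
    letI := F'.hAct I
    letI := zAct F.Φ K h
    letI := zAct F'.Φ K h'
    Transfer n (Un F.H) (Un F'.H) (kerAt K l κ) := by
  classical
  choose φ τ u r a1 a2 a3 a4 a5 using
    fun γ hr => Form.exists_match hG.ram hT F F' hx hx' hF hF' hl γ hr
  refine ⟨fun γ => RegP (rchar γ.1.1), fun γ => if hr : RegP (rchar γ.1.1) then φ γ hr else 1,
    fun k γ z hc => (F.regP_iff γ l).1 (hreg k _ _ (chain_kerAt l hc)), fun γ hr => ?_,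
    fun γ₁ γ₂ h₁ h₂ hc => ?_⟩
  · simp only [dif_pos hr]
    refine matched_of F.Φ F'.Φ h h' (F.ρ I) (F'.ρ I) l hinv (τ γ hr) (a1 γ hr) (a2 γ hr)
      (hK.ad_eq ▸ a3 γ hr) (eps S') (eps_eq S') (S'.finite_toSet.subset fun p hp => ?_)
      (if_neg hl') (a4 γ hr) (I.act (r γ hr)) fun t => ?_
    · by_contra hn
      exact hp (if_neg hn)
    · change I.act _ * _ = _ * I.act _
      rw [← map_mul, ← map_mul, a5]
  · simp only [dif_pos h₁, dif_pos h₂] at hc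
    let t : ∀ γ : Un F.H, Subgroup.centralizer {γ} := fun γ =>
      ⟨γ, Subgroup.mem_centralizer_singleton_iff.2 rfl⟩
    refine hG.conj_of_local h₁ (fun p => ?_) ?_
    · have e₁ := a4 γ₁ h₁ p (t γ₁)
      have e₂ := a4 γ₂ h₂ p (t γ₂)
      rw [a1 γ₁ h₁ _ rfl] at e₁
      rw [a1 γ₂ h₂ _ rfl] at e₂
      exact isConj_of_rel (eps_eq S' p) e₁ e₂ ((cmp F'.Φ p).map_isConj hc)
    · have e₁ := a5 γ₁ h₁ (t γ₁)
      have e₂ := a5 γ₂ h₂ (t γ₂)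
      rw [a1 γ₁ h₁ _ rfl] at e₁
      rw [a1 γ₂ h₂ _ rfl] at e₂
      exact isConj_of_rel' e₁ e₂ (F'.real.map_isConj hc)

end Pool.Agent.P.MP_3c2f8c_gt
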