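import Pool.Agent.P.MP_3c2f8c_gt.Gl.Form1

/-! GL-12: arithmeticity. -/

namespace Pool.Agent.P.MP_3c2f8c_gt

open Matrix

variable {a b : ℤ} {ι : Type} [Fintype ι] [DecidableEq ι]
  {H₀ : Matrix ι ι (Q a b ℤ)} {n : ℕ} {K : ∀ p, Subgroup (Ul H₀ p)}

namespace Form5Aux

/-- Conjugation by a unit as an automorphism of algebras. -/
def cj {A : Type} [Ring A] [Algebra ℝ A] (φ : Aˣ) : A ≃ₐ[ℝ] A where
  toFun g := φ.1 * g * (φ⁻¹).1
  invFun g := (φ⁻¹).1 * g * φ.1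
  left_inv g := by simp [mul_assoc]
  right_inv g := by simp [mul_assoc]
  map_mul' g h := by simp [mul_assoc]
  map_add' g h := by simp [mul_add, add_mul]
  commutes' c := by
    rw [← Algebra.commutes, mul_assoc, Units.mul_inv, mul_one]

theorem cj_apply {A : Type} [Ring A] [Algebra ℝ A] (φ : Aˣ) (g : A) :
    cj φ g = φ.1 * g * (φ⁻¹).1 := rfl

theorem un_iff {A : Type} [Ring A] [StarRing A] {H₀ H : Matrix ι ι A} (φ : (Matrix ι ι A)ˣ)
    (h : φ.1ᴴ * H₀ * φ.1 = H) (g : Matrix ι ι A) :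
    gᴴ * H * g = H ↔ (φ.1 * g * (φ⁻¹).1)ᴴ * H₀ * (φ.1 * g * (φ⁻¹).1) = H₀ := by
  constructor
  · intro hg
    calc (φ.1 * g * (φ⁻¹).1)ᴴ * H₀ * (φ.1 * g * (φ⁻¹).1)
        = (φ⁻¹).1ᴴ * (gᴴ * (φ.1ᴴ * H₀ * φ.1) * g) * (φ⁻¹).1 := by
          simp only [conjTranspose_mul, Matrix.mul_assoc]
      _ = (φ⁻¹).1ᴴ * (φ.1ᴴ * H₀ * φ.1) * (φ⁻¹).1 := by rw [h, hg]
      _ = (φ.1 * (φ⁻¹).1)ᴴ * H₀ * (φ.1 * (φ⁻¹).1) := by
          simp only [conjTranspose_mul, Matrix.mul_assoc]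
      _ = H₀ := by rw [Units.mul_inv]; simp
  · intro hg
    have e : φ.1 * g * (φ⁻¹).1 * φ.1 = φ.1 * g := by
      rw [Matrix.mul_assoc, Units.inv_mul, Matrix.mul_one]
    calc gᴴ * H * g = (φ.1 * g)ᴴ * H₀ * (φ.1 * g) := by
          rw [← h]
          simp only [conjTranspose_mul, Matrix.mul_assoc]
      _ = (φ.1 * g * (φ⁻¹).1 * φ.1)ᴴ * H₀ * (φ.1 * g * (φ⁻¹).1 * φ.1) := by rw [e]
      _ = φ.1ᴴ * ((φ.1 * g * (φ⁻¹).1)ᴴ * H₀ * (φ.1 * g * (φ⁻¹).1)) * φ.1 := by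
          simp only [conjTranspose_mul, Matrix.mul_assoc]
      _ = H := by rw [hg, h]

theorem intU_mul {p : ℕ} [Fact p.Prime] {g h : (Matrix ι ι (Q a b ℚ_[p]))ˣ} (hg : IntU g)
    (hh : IntU h) : IntU (g * h) :=
  ⟨hg.1.mul hh.1, by
    simpa only [_root_.mul_inv_rev, Units.val_mul] using hh.2.mul hg.2⟩

theorem intU_inv {p : ℕ} [Fact p.Prime] {g : (Matrix ι ι (Q a b ℚ_[p]))ˣ} (hg : IntU g) :
    IntU g⁻¹ := ⟨hg.2, by simpa only [inv_inv] using hg.1⟩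

theorem exists_level (F : Form H₀) : ∃ K' : ∀ p, Subgroup (Ul H₀ p), Level (Kst H₀) K' ∧
    ∀ g : Un F.H, g ∈ Gam F.Φ K' ↔
      ∀ p : Nat.Primes, IntM (bc (ra ℚ_[p]) g.1.1) ∧ IntM (bc (ra ℚ_[p]) (g⁻¹).1.1) := by
  choose e he using fun p : Nat.Primes => exists_transp_equiv (F.φ p) (F.hφ p)
  refine ⟨fun p => (K0 (bc (ra ℚ_[p]) F.H)).comap (e p).symm.toMulEquiv.toMonoidHom,
    ⟨fun p => CO.comap (e p).symm (co_K0 _), F.fin.subset fun p hp hi => hp ?_⟩, fun g => ?_⟩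
  · ext u
    obtain ⟨v, rfl⟩ := (e p).surjective u
    show IntU ((e p).symm (e p v)).1 ↔ IntU (e p v).1
    rw [ContinuousMulEquiv.symm_apply_apply, he, transp_val]
    refine ⟨fun h => intU_mul (intU_mul hi h) (intU_inv hi), fun h => ?_⟩
    have := intU_mul (intU_mul (intU_inv hi) h) hi
    simpa only [mul_assoc, inv_mul_cancel_left, inv_mul_cancel, mul_one] using this
  · rw [mem_Gam]
    refine forall_congr' fun p => ?_
    have h1 : F.Φ g p = e p (locU (ra ℚ_[p]) F.H g) := (he p _).symm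
    show IntU ((e p).symm (F.Φ g p)).1 ↔ _
    rw [h1, ContinuousMulEquiv.symm_apply_apply]
    rfl

theorem ra_comp (E : Type) [Field E] [CharZero E] : (ra E).comp (ia ℚ) = ia E :=
  RingHom.ext_int _ _

end Form5Aux

theorem Form.arith (F : Form H₀) (I : RealId H₀ n) {H₁ : Matrix ι ι (Q a b ℤ)}
    (h₁ : F.H = bc (ia ℚ) H₁) (hK : Level (Kst H₀) K) :
    ∃ ψ : Matrix ι ι (Q a b ℝ) ≃ₐ[ℝ] Matrix (Fin (n + 1)) (Fin (n + 1)) ℝ,
      (∀ g, gᴴ * H₁.map (qmap a b (Int.castRingHom ℝ)) * g =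
          H₁.map (qmap a b (Int.castRingHom ℝ)) ↔
        ∀ u v, lor (ψ g *ᵥ u) (ψ g *ᵥ v) = lor u v) ∧
      Subgroup.Commensurable ((Gam F.Φ K).map (F.ρ I)) (((Un H₁).map (Units.map
        ((ψ : _ →+* _).comp (qmap a b (Int.castRingHom ℝ)).mapMatrix).toMonoidHom)).subgroupOf
        (Oplus n)) := by
  have hφ : F.φ'.1ᴴ * bc (ia ℝ) H₀ * F.φ'.1 = bc (ia ℝ) H₁ := by
    rw [F.hφ', h₁, bc_bc, Form5Aux.ra_comp]
  refine ⟨(Form5Aux.cj F.φ').trans I.ψ, fun g => ?_, ?_⟩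
  · exact (Form5Aux.un_iff F.φ' hφ g).trans (I.hψ _)
  obtain ⟨K', hK', hmem⟩ := Form5Aux.exists_level F
  have hinj : Function.Injective (bc (ia ℚ) : Matrix ι ι (Q a b ℤ) → Matrix ι ι (Q a b ℚ)) :=
    bc_injective (Int.cast_injective (α := ℚ))
  have hval : ∀ (g : Un F.H) (u : Matrix ι ι (Q a b ℤ)), bc (ia ℚ) u = g.1.1 →
      (F.ρ I g).1.1 = ((Form5Aux.cj F.φ').trans I.ψ) (bc (ia ℝ) u) ∨
      (F.ρ I g).1.1 = -((Form5Aux.cj F.φ').trans I.ψ) (bc (ia ℝ) u) := fun g u hu => by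
    have h := I.act_val (F.real g)
    rw [F.val_real, ← hu, bc_bc, Form5Aux.ra_comp] at h
    exact h
  have heq : (Gam F.Φ K').map (F.ρ I) = (((Un H₁).map (Units.map
        ((((Form5Aux.cj F.φ').trans I.ψ : _ ≃ₐ[ℝ] _) : _ →+* _).comp
          (qmap a b (Int.castRingHom ℝ)).mapMatrix).toMonoidHom)).subgroupOf
        (Oplus n)) := by
    ext x
    rw [Subgroup.mem_subgroupOf, Subgroup.mem_map, Subgroup.mem_map]
    constructor
    · rintro ⟨g, hg, rfl⟩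
      rw [hmem] at hg
      obtain ⟨u, hu⟩ := exists_int g.1.1 fun p => (hg p).1
      obtain ⟨u', hu'⟩ := exists_int (g⁻¹).1.1 fun p => (hg p).2
      have e1 : u * u' = 1 := hinj (by
        rw [RCharAux.bc_mul, RCharAux.bc_one, hu, hu']
        exact g.1.mul_inv)
      have e2 : u' * u = 1 := hinj (by
        rw [RCharAux.bc_mul, RCharAux.bc_one, hu, hu']
        exact g.1.inv_mul)
      have e3 : uᴴ * H₁ * u = H₁ := hinj (by
        rw [RCharAux.bc_mul, RCharAux.bc_mul, bc_conjTranspose, hu, ← h₁]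
        exact g.2)
      rcases hval g u hu with h | h
      · exact ⟨⟨u, u', e1, e2⟩, e3, Units.ext h.symm⟩
      · refine ⟨-⟨u, u', e1, e2⟩, ?_, Units.ext ?_⟩
        · show (-u)ᴴ * H₁ * (-u) = H₁
          rw [conjTranspose_neg, neg_mul, neg_mul_neg, e3]
        · rw [h]
          show ((Form5Aux.cj F.φ').trans I.ψ) ((qmap a b (ia ℝ)).mapMatrix (-u)) = _
          rw [map_neg, map_neg]
          rfl
    · rintro ⟨u, hu, hx⟩
      have hu' : u.1ᴴ * H₁ * u.1 = H₁ := hu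
      have hg : Units.map (qmap a b (ia ℚ)).mapMatrix.toMonoidHom u ∈ Un F.H := by
        show (bc (ia ℚ) u.1)ᴴ * F.H * bc (ia ℚ) u.1 = F.H
        rw [h₁, ← bc_conjTranspose, ← RCharAux.bc_mul, ← RCharAux.bc_mul, hu']
      refine ⟨⟨_, hg⟩, (hmem _).2 fun p => ⟨?_, ?_⟩, ?_⟩
      · show IntM (bc (ra ℚ_[p]) (bc (ia ℚ) u.1))
        rw [bc_bc, Form5Aux.ra_comp]
        exact intM_bc_int p _
      · show IntM (bc (ra ℚ_[p]) (bc (ia ℚ) (u⁻¹).1))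
        rw [bc_bc, Form5Aux.ra_comp]
        exact intM_bc_int p _
      · have hx' : ((Form5Aux.cj F.φ').trans I.ψ) (bc (ia ℝ) u.1) = x.1.1 :=
          congrArg Units.val hx
        rcases hval ⟨_, hg⟩ u.1 rfl with h | h
        · exact Subtype.ext (Units.ext (h.trans hx'))
        · exfalso
          rw [hx'] at h
          have h' : (F.ρ I ⟨_, hg⟩).1 = -x.1 := Units.ext h
          exact neg_notMem_Oplus x (h' ▸ (F.ρ I ⟨_, hg⟩).2)
  rw [← heq]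
  exact commensurable_map _ (hK.commensurable hK' F.Φ)

end Pool.Agent.P.MP_3c2f8c_gt
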