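import Pool.Agent.P.MP_3c2f8c_gt.Gl.Form1
import Pool.Agent.P.MP_3c2f8c_gt.An.Centr

/-! GL-13: commensurable groups come from similar forms. -/

namespace Pool.Agent.P.MP_3c2f8c_gt

open Matrix

variable {a b : ℤ} [NeZero a] [NeZero b] {ι : Type} [Fintype ι] [DecidableEq ι]
  {H₀ : Matrix ι ι (Q a b ℤ)} {n : ℕ}

namespace Form6Aux

omit [NeZero a] [NeZero b]

/-- A rational functional applied to all coordinates. -/
noncomputable def qw (a b : ℤ) (ω : ℝ →ₗ[ℚ] ℚ) : Q a b ℝ →+ Q a b ℚ where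
  toFun z := ⟨ω z.re, ω z.imI, ω z.imJ, ω z.imK⟩
  map_zero' := by ext <;> simp
  map_add' x y := by ext <;> simp

variable (ω : ℝ →ₗ[ℚ] ℚ)

theorem w_rat (c : ℚ) (x : ℝ) : ω (c * x) = c * ω x := by
  rw [← smul_eq_mul c, ← map_smul, Rat.smul_def]

theorem w_rat' (c : ℚ) (x : ℝ) : ω (x * c) = ω x * c := by
  rw [mul_comm, w_rat, mul_comm]

theorem w_int (c : ℤ) (x : ℝ) : ω (c * x) = c * ω x := by
  simpa using w_rat ω c x

theorem qw_left (z : Q a b ℚ) (x : Q a b ℝ) :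
    qw a b ω (qmap a b (ra ℝ) z * x) = z * qw a b ω x := by
  ext <;> simp [qw, qmap, mul_assoc, w_rat, w_int]

theorem qw_right (z : Q a b ℚ) (x : Q a b ℝ) :
    qw a b ω (x * qmap a b (ra ℝ) z) = qw a b ω x * z := by
  ext <;> simp [qw, qmap, w_rat', mul_assoc (a : ℝ) (b : ℝ), mul_assoc (a : ℚ) (b : ℚ), w_int]

omit [DecidableEq ι] in
theorem map_left (g : Matrix ι ι (Q a b ℚ)) (X : Matrix ι ι (Q a b ℝ)) :
    (bc (ra ℝ) g * X).map (qw a b ω) = g * X.map (qw a b ω) := by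
  ext i j : 1
  simp only [map_apply, mul_apply, map_sum, qw_left]

omit [DecidableEq ι] in
theorem map_right (g : Matrix ι ι (Q a b ℚ)) (X : Matrix ι ι (Q a b ℝ)) :
    (X * bc (ra ℝ) g).map (qw a b ω) = X.map (qw a b ω) * g := by
  ext i j : 1
  simp only [map_apply, mul_apply, map_sum, qw_right]

omit [Fintype ι] [DecidableEq ι] in
theorem map_smul_bc (t : ℝ) (g : Matrix ι ι (Q a b ℚ)) :
    (t • bc (ra ℝ) g).map (qw a b ω) = ω t • g := by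
  ext i j <;> simp [qw, qmap, w_rat']

omit [Fintype ι] [DecidableEq ι] in
theorem exists_ne {X : Matrix ι ι (Q a b ℝ)} (hX : X ≠ 0) :
    ∃ ω : ℝ →ₗ[ℚ] ℚ, X.map (qw a b ω) ≠ 0 := by
  by_contra hc
  push Not at hc
  apply hX
  ext i j <;> refine (Module.forall_dual_apply_eq_zero_iff ℚ _).1 fun ω => ?_
  exacts [congrArg (·.re) (congrFun₂ (hc ω) i j), congrArg (·.imI) (congrFun₂ (hc ω) i j),
    congrArg (·.imJ) (congrFun₂ (hc ω) i j), congrArg (·.imK) (congrFun₂ (hc ω) i j)]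

theorem act_eq (I : RealId H₀ n) {u v : Un (bc (ia ℝ) H₀)} (h : I.act u = I.act v) :
    u.1.1 = v.1.1 ∨ u.1.1 = -v.1.1 := by
  have e := I.act_val v
  rw [← h] at e
  rcases I.act_val u with h1 | h1 <;> rcases e with h2 | h2
  · exact .inl (I.ψ.injective (h1.symm.trans h2))
  · exact .inr (I.ψ.injective (by rw [map_neg, ← h1, h2]))
  · exact .inr (I.ψ.injective (by rw [map_neg, ← h2, h1, neg_neg]))
  · exact .inl (I.ψ.injective (neg_injective (h1.symm.trans h2)))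

end Form6Aux

open Form6Aux in
theorem Form.similar_of_wideComm (F F' : Form H₀) (I : RealId H₀ n) (hn : 2 ≤ n) (hH : F.H ≠ 0)
    {Γ : Subgroup (Un F.H)} {Γ' : Subgroup (Un F'.H)} (hc : Cocpt (F'.ρ I) Γ')
    (h : WideComm (Γ.map (F.ρ I)) (Γ'.map (F'.ρ I))) :
    ∃ (g : Matrix ι ι (Q a b ℚ)) (μ : ℚ), IsIsom F'.H (μ • F.H) g := by
  obtain ⟨g, hg⟩ := h
  obtain ⟨u, rfl, -⟩ := I.exists_act g
  have hΛ := cocompact_of_relIndex hg.1 (hc.imp fun R hR x =>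
    (hR x).elim fun γ hγ => ⟨_, ⟨γ, hγ.1, rfl⟩, hγ.2⟩)
  obtain ⟨X, hX⟩ : ∃ X, X = F'.φ'⁻¹ * u.1 * F.φ' := ⟨_, rfl⟩
  have h1 : X.1ᴴ * bc (ra ℝ) F'.H * X.1 = bc (ra ℝ) F.H := by
    have e : F'.φ'.1 * X.1 = u.1.1 * F.φ'.1 := by
      rw [hX, ← Units.val_mul, ← Units.val_mul, mul_assoc, mul_inv_cancel_left]
    have hu : u.1.1ᴴ * _ * u.1.1 = _ := u.2
    calc _ = (F'.φ'.1 * X.1)ᴴ * bc (ia ℝ) H₀ * (F'.φ'.1 * X.1) := by
          simp only [← F'.hφ', conjTranspose_mul, Matrix.mul_assoc]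
      _ = F.φ'.1ᴴ * (u.1.1ᴴ * bc (ia ℝ) H₀ * u.1.1) * F.φ'.1 := by
          simp only [e, conjTranspose_mul, Matrix.mul_assoc]
      _ = _ := by rw [hu, F.hφ']
  have : Nontrivial (Matrix ι ι (Q a b ℝ)) := I.ψ.toEquiv.nontrivial
  obtain ⟨ω, hω⟩ := exists_ne X.ne_zero
  obtain ⟨Y, hY⟩ : ∃ Y, Y = X.1.map (qw a b ω) := ⟨_, rfl⟩
  obtain ⟨t, ht⟩ := scalar_of_comm hn _ hΛ
    (I.ψ (F'.φ'.1 * (bc (ra ℝ) Y * (X⁻¹).1) * (F'.φ'⁻¹).1)) (by
      rintro _ ⟨⟨_, ⟨γ, -, rfl⟩, e⟩, γ', -, rfl⟩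
      have e1 : I.act (F'.real γ') = I.act (u * F.real γ * u⁻¹) := by
        rw [map_mul, map_mul, map_inv]
        exact e.symm
      obtain ⟨δ, e2⟩ : ∃ δ, bc (ra ℝ) γ'.1.1 * X.1 = X.1 * bc (ra ℝ) δ := by
        have e3 : bc (ra ℝ) γ'.1.1 * X.1 = (F'.φ'⁻¹).1 * (F'.real γ').1.1 * (u.1.1 * F.φ'.1) := by
          simp only [hX, Form.val_real, Units.val_mul, Matrix.mul_assoc,
            Units.inv_mul_cancel_left]
        have e4 : X.1 * bc (ra ℝ) γ.1.1 =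
            (F'.φ'⁻¹).1 * (u * F.real γ * u⁻¹).1.1 * (u.1.1 * F.φ'.1) := by
          simp only [hX, Form.val_real, Units.val_mul, Matrix.mul_assoc, Subgroup.coe_mul,
            Subgroup.coe_inv, Units.inv_mul_cancel_left, Units.inv_mul, Matrix.mul_one]
        rcases act_eq I e1 with e5 | e5
        · exact ⟨_, by rw [e3, e5, e4]⟩
        · refine ⟨-γ.1.1, ?_⟩
          rw [e3, e5, Matrix.mul_neg, Matrix.neg_mul, ← e4, ← Matrix.mul_neg]
          exact congrArg _ (map_neg (qmap a b (ra ℝ)).mapMatrix _).symm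
      have e3 : γ'.1.1 * Y = Y * δ := by rw [hY, ← map_left, e2, map_right]
      have e4 : bc (ra ℝ) Y * (X⁻¹).1 * bc (ra ℝ) γ'.1.1 =
          bc (ra ℝ) γ'.1.1 * (bc (ra ℝ) Y * (X⁻¹).1) := by
        rw [← Matrix.mul_assoc, ← Matrix.map_mul, e3, Matrix.map_mul, Matrix.mul_assoc,
          Matrix.mul_assoc, Units.eq_mul_inv_iff_mul_eq _ |>.2 (show (X⁻¹).1 * _ * X.1 = _ from
            (Matrix.mul_assoc ..).trans ((Units.inv_mul_eq_iff_eq_mul X).2 e2))|>.symm]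
      have e5 : Commute (I.ψ (F'.φ'.1 * (bc (ra ℝ) Y * (X⁻¹).1) * (F'.φ'⁻¹).1))
          (I.ψ (F'.real γ').1.1) := by
        refine Commute.map ?_ _
        show _ = _
        simp only [Form.val_real, Matrix.mul_assoc, Units.inv_mul_cancel_left] at e4 ⊢
        rw [← Matrix.mul_assoc _ _ (F'.φ'⁻¹).1, ← Matrix.mul_assoc _ _ (F'.φ'⁻¹).1, e4]
        simp only [Matrix.mul_assoc]
      rcases I.act_val (F'.real γ') with e6 | e6
      · exact (e6 ▸ e5 :)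
      · exact (e6 ▸ e5.neg_right :))
  have h2 : bc (ra ℝ) Y = t • X.1 := by
    have e : F'.φ'.1 * (bc (ra ℝ) Y * (X⁻¹).1) * (F'.φ'⁻¹).1 = t • 1 :=
      I.ψ.injective (by rw [ht, map_smul, map_one])
    rw [Units.mul_inv_eq_iff_eq_mul, smul_mul_assoc, one_mul, ← mul_one F'.φ'.1, ← mul_smul_comm,
      mul_one, Units.mul_right_inj, Units.mul_inv_eq_iff_eq_mul, smul_mul_assoc, one_mul] at e
    exact e
  have h3 : t ≠ 0 := by
    rintro rfl
    rw [zero_smul] at h2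
    exact hω (hY ▸ bc_injective (ra ℝ).injective (h2.trans (Matrix.map_zero _ (map_zero _)).symm))
  obtain ⟨ω', hω'⟩ := Module.Projective.exists_dual_eq_one ℚ (one_ne_zero (α := ℝ))
  refine ⟨Y, ω' (t * t), (isUnit_iff_nrd Y).2 fun e => ?_, ?_⟩
  · have e1 := nrd_bc (ra ℝ) Y
    rw [e, map_zero, h2, nrd_smul] at e1
    exact mul_ne_zero (pow_ne_zero _ h3) ((isUnit_iff_nrd _).1 X.isUnit) e1
  · have e : (1 : ℝ) • bc (ra ℝ) (Yᴴ * F'.H * Y) = (t * t) • bc (ra ℝ) F.H := by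
      rw [one_smul, bc, Matrix.map_mul, Matrix.map_mul, ← h1]
      change bc (ra ℝ) Yᴴ * _ * bc (ra ℝ) Y = _
      have e0 : (t • X.1)ᴴ = t • X.1ᴴ := by ext <;> simp
      rw [bc_conjTranspose, h2, e0, smul_mul_assoc, smul_mul_assoc, mul_smul_comm, smul_smul]
    rw [← map_smul_bc ω', ← e, map_smul_bc, hω', one_smul]

end Pool.Agent.P.MP_3c2f8c_gt
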