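import Pool.Agent.P.MP_3c2f8c_gt.Gl.Form3
import Pool.Agent.P.MP_3c2f8c_gt.Gl.Form4
import Pool.Agent.P.MP_3c2f8c_gt.Gl.Form5
import Pool.Agent.P.MP_3c2f8c_gt.Gl.Form6
import Pool.Agent.P.MP_3c2f8c_gt.Gl.Abs2
import Pool.Agent.P.MP_3c2f8c_gt.Lo.Eich3
import Pool.Agent.P.MP_3c2f8c_gt.Lo.Hk8
import Pool.Agent.P.MP_3c2f8c_gt.Qu.Data
import Pool.Agent.P.MP_3c2f8c_gt.Qu.NonSim
import Pool.Agent.P.MP_3c2f8c_gt.An.Main

/-! GL-14: the main theorem. -/

namespace Pool.Agent.P.MP_3c2f8c_gt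

open Matrix

variable {a b b' : ℤ} [NeZero a] [NeZero b] {m : ℕ} {S S' : Finset Nat.Primes}

/-- Two forms in the same genus, with opposite local invariants on `S'`, give isospectral
manifolds. -/
theorem exists_isospectral {H₀ : Matrix (Fin (2 * m + 1)) (Fin (2 * m + 1)) (Q a b ℤ)}
    {F F' : Form H₀} (hG : F.Good S) (hG' : F'.Good S) (hT : Twist a b b' S')
    {x x' : Fin (2 * m + 1) → Q a b ℚ} (hx : LorData x) (hx' : LorData x')
    (hF : F.H = diagonal x) (hF' : F'.H = diagonal x') {c : ℚ}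
    (hl : LocIso S S' (diagonal x) (diagonal x') c) {n : ℕ} (I : RealId H₀ n) (hn : Odd n)
    {l q : Nat.Primes} (hl2 : l.1 ≠ 2) (hlS : l ∉ S') (hq : q ∉ insert l S)
    {y : Fin (2 * m + 1) → Q a b ℚ_[l]}
    (hy : ∀ j, (y j).re = 0 ∧ sqp (y j) ≠ 0 ∧ IsSquare (sqp (y j)))
    (hy' : bc (ia ℚ_[l]) H₀ = diagonal y) :
    ∃ K, Level (Kst H₀) K ∧ IsClosedMfd ((Gam F.Φ K).map (F.ρ I)) ∧
      IsClosedMfd ((Gam F'.Φ K).map (F'.ρ I)) ∧
      Isospectral ((Gam F.Φ K).map (F.ρ I)) ((Gam F'.Φ K).map (F'.ρ I)) := by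
  classical
  obtain ⟨L, κ, w, hL, hκ, hinv, hreg, hw, hw'⟩ := hecke_un hl2 (Nat.succ_pos _) hy hy'
  have h₁ : Level (Kst H₀) (Function.update (Kst H₀) l L) := level_Kst.update l hL
  have hw₁ : w ∈ Subgroup.normalizer ((Function.update (Kst H₀) l L) l : Set (Ul H₀ l)) := by
    rwa [Function.update_self]
  obtain ⟨K, hK, hKT, hKq, o, o'⟩ := exists_good_level h₁ F.Φ F'.Φ F.mem_Ad F'.mem_Ad
    (insert l S) hq (fun K hK => hG.finCl hK) (fun K hK => hG'.finCl hK)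
    (fun K hK p hp => hG.isOpen_closure I hn.pos hK fun h => hp (Finset.mem_insert_of_mem h))
    (fun K hK p hp => hG'.isOpen_closure I hn.pos hK fun h => hp (Finset.mem_insert_of_mem h))
    (fun p hp => exists_level_un
      (not_not.1 fun h => hp (Finset.mem_insert_of_mem ((hG.ram.div p).2 h)))
      hG.skew_bc hG.unit_bc hG.card)
    (hG.wa_normalizer h₁.1 hw₁ hw') (hG'.wa_normalizer h₁.1 hw₁ hw')
  have hKl : K l = L := by rw [hKT l (Finset.mem_insert_self _ _), Function.update_self]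
  subst hKl
  have h : ∀ g, F.Φ g ∈ Ad K := fun g => hK.ad_eq ▸ F.mem_Ad g
  have h' : ∀ g, F'.Φ g ∈ Ad K := fun g => hK.ad_eq ▸ F'.mem_Ad g
  refine ⟨K, hK, hG.isClosedMfd I hn hK hKq, hG'.isClosedMfd I hn hK hKq, ?_⟩
  have := F.countable
  have := F'.countable
  let _ := F.hAct I
  let _ := F'.hAct I
  let _ := zAct F.Φ K h
  let _ := zAct F'.Φ K h'
  rw [← stabilizer_z0 F.Φ h, ← stabilizer_z0 F'.Φ h']
  exact isospectral_of_transfer (hG.nice I hK h hKq) (hG'.nice I hK h' hKq) (hk_kerAt l hκ)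
    (fun g => kerAt_smul l hinv ⟨_, h g⟩) (fun g => kerAt_smul l hinv ⟨_, h' g⟩)
    (hG.transfer hT hx hx' hF hF' hl I hK h h' hlS hinv hreg)
    (hG'.transfer hT hx' hx hF' hF hl.symm I hK h' h hlS hinv hreg) (z0 K)
    (o.stabilizer h) (o'.stabilizer h')

omit [NeZero a] [NeZero b] in
theorem bc_int_int {R : Type} [CommRing R] [Algebra ℚ R] {ι : Type}
    (H : Matrix ι ι (Q a b ℤ)) : bc (ra R) (bc (ia ℚ) H) = bc (ia R) H := by
  rw [bc_bc, RingHom.ext_int ((ra R).comp (ia ℚ)) (ia R)]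

theorem isArithOuter_of {H₀ : Matrix (Fin (2 * m + 1)) (Fin (2 * m + 1)) (Q a b ℤ)} (F : Form H₀)
    (I : RealId H₀ (4 * m + 1)) {x : Fin (2 * m + 1) → Q a b ℤ}
    (hx : LorData fun j => qmap a b (ia ℚ) (x j)) (hs : ¬ IsSquare ((∏ j, sqp (x j) : ℤ) : ℚ))
    (hF : F.H = bc (ia ℚ) (diagonal x)) {K : ∀ p, Subgroup (Ul H₀ p)} (hK : Level (Kst H₀) K) :
    IsArithOuter m ((Gam F.Φ K).map (F.ρ I)) := by
  obtain ⟨ψ, h1, h2⟩ := F.arith I hF hK
  refine ⟨a, b, x, ψ, NeZero.ne a, NeZero.ne b, fun j => ⟨?_, fun h0 => ?_⟩, hs, h1, h2⟩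
  · have := hx.1 j
    simpa [qmap] using this
  · have e : sqp (qmap a b (ia ℚ) (x j)) = 0 := by
      rw [sqp_qmap, show sqp (x j) = 0 from h0, map_zero]
    by_cases hj : j = Fin.last _
    · subst hj
      exact hx.2.1.ne' e
    · exact (hx.2.2 j hj).1.ne e

theorem main (m : ℕ) (hm : 1 ≤ m) : ∃ Γ₁ Γ₂ : Subgroup (Oplus (4 * m + 1)),
    IsClosedMfd Γ₁ ∧ IsClosedMfd Γ₂ ∧ IsArithOuter m Γ₁ ∧ IsArithOuter m Γ₂ ∧
      Isospectral Γ₁ Γ₂ ∧ ¬ WideComm Γ₁ Γ₂ := by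
  have : NeZero (17 : ℤ) := ⟨by norm_num⟩
  have : NeZero (1155 : ℤ) := ⟨by norm_num⟩
  obtain ⟨x, hx, hs, s3, s7, s19⟩ := exists_first hm
  obtain ⟨α, φ, φ', hα, hx', hφ, hfin, hφ'⟩ := exists_second (by norm_num) twist_B x hx
  obtain ⟨r, hr⟩ : ∃ r, 2 * m = r + 1 := ⟨2 * m - 1, by omega⟩
  have aniso : ∀ {z : Fin (2 * m + 1) → Q 17 1155 ℚ}, LorData z →
      ∀ v, v ≠ 0 → hf (diagonal z) v v ≠ 0 := by
    rw [hr]
    exact fun hz => hz.aniso ram_B
  let F : Form (diagonal x) :=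
    { H := bc (ia ℚ) (diagonal x)
      φ := fun _ => 1
      φ' := 1
      hφ := fun p => by
        rw [bc_int_int, Units.val_one, conjTranspose_one, Matrix.one_mul, Matrix.mul_one]
      fin := Set.Finite.subset Set.finite_empty fun p hp => hp ⟨intM_one, by simpa using intM_one⟩
      hφ' := by
        rw [bc_int_int, Units.val_one, conjTranspose_one, Matrix.one_mul, Matrix.mul_one] }
  let F' : Form (diagonal x) :=
    { H := bc (ia ℚ) (diagonal fun j => α j • x j)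
      φ := φ
      φ' := φ'
      hφ := fun p => by rw [bc_int_int]; exact (hφ p).1
      fin := hfin
      hφ' := by rw [bc_int_int]; exact hφ' }
  have hF : F.H = diagonal fun j => qmap 17 1155 (ia ℚ) (x j) := bc_diagonal _ _
  have hF' : F'.H = diagonal fun j => qmap 17 1155 (ia ℚ) (α j • x j) := bc_diagonal _ _
  have hsk : (diagonal x)ᴴ = -diagonal x := by
    apply bc_injective (φ := ia ℚ) Int.cast_injective
    rw [bc_conjTranspose, bc_diagonal, hx.skew.1, ← bc_diagonal]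
    exact (Matrix.map_neg _ (map_neg _) _).symm
  have hu : IsUnit (bc (ia ℚ) (diagonal x)) := by rw [bc_diagonal]; exact hx.skew.2
  have hc : 3 ≤ Fintype.card (Fin (2 * m + 1)) := by rw [Fintype.card_fin]; omega
  have hG : F.Good {p3, p5, p7, p11} := ⟨ram_B, hsk, hu, hF ▸ aniso hx, hc⟩
  have hG' : F'.Good {p3, p5, p7, p11} := ⟨ram_B, hsk, hu, hF' ▸ aniso hx', hc⟩
  have hl : LocIso {p3, p5, p7, p11} {p3, p5} (diagonal fun j => qmap 17 1155 (ia ℚ) (x j))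
      (diagonal fun j => qmap 17 1155 (ia ℚ) (α j • x j)) ((∏ j, α j : ℤ) : ℚ) := by
    rw [← bc_diagonal, ← bc_diagonal]
    refine ⟨fun p => ⟨(φ p).1, ⟨(φ p).isUnit, ?_⟩, fun _ => ?_⟩, φ'.1, φ'.isUnit, ?_⟩
    · rw [bc_int_int, bc_int_int]
      exact (hφ p).1
    · rw [(hφ p).2, Rat.cast_intCast]
    · rw [bc_int_int, bc_int_int]
      exact hφ'
  obtain ⟨ψ, hψ, hdet⟩ := exists_psi (a := 17) (b := 1155) (by norm_num) (by norm_num)
    (fun j => qmap 17 1155 (ia ℝ) (x j)) (by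
      have := hx.map (ra ℝ) Rat.cast_strictMono
      simpa only [qmap_qmap, RingHom.ext_int ((ra ℝ).comp (Int.castRingHom ℚ)) (ia ℝ)] using this)
  obtain ⟨tp, htp⟩ := exists_toPlus (n := 4 * m + 1)
  let I : RealId (diagonal x) (4 * m + 1) := ⟨ψ, by rw [bc_diagonal]; exact hψ, hdet, tp, htp⟩
  have hx0 : ∀ j, sqp (x j) ≠ 0 := fun j h0 => hs (by
    rw [Finset.prod_eq_zero (Finset.mem_univ j) h0]
    exact ⟨0, by simp⟩)
  have hre : ∀ j, (x j).re = 0 := fun j => by simpa [qmap] using hx.1 j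
  obtain ⟨K, hK, c1, c2, iso⟩ := exists_isospectral hG hG' twist_B hx hx' hF hF' hl I
    ⟨2 * m, by ring⟩ (l := p19) (q := ⟨13, by norm_num⟩) (by decide) (by decide) (by decide)
    (y := fun j => qmap 17 1155 (ia ℚ_[p19]) (x j))
    (fun j => ⟨by simp [qmap, hre j], by
      rw [sqp_qmap]
      exact Int.cast_ne_zero.2 (hx0 j), by
      rw [sqp_qmap]
      exact s19 j⟩) (bc_diagonal _ _)
  refine ⟨_, _, c1, c2, isArithOuter_of F I hx hs rfl hK, isArithOuter_of F' I hx' ?_ rfl hK,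
    iso, fun hw => ?_⟩
  · intro h
    apply hs
    have e : ((∏ j, sqp (α j • x j) : ℤ) : ℚ) =
        ((∏ j, α j : ℤ) : ℚ) ^ 2 * ((∏ j, sqp (x j) : ℤ) : ℚ) := by
      have : ∀ j, sqp (α j • x j) = α j ^ 2 * sqp (x j) := fun j => sqp_smul _ _
      simp only [this, Finset.prod_mul_distrib, Finset.prod_pow]
      push_cast
      rfl
    have h0 : ((∏ j, α j : ℤ) : ℚ) ≠ 0 :=
      Int.cast_ne_zero.2 (Finset.prod_ne_zero_iff.2 fun j _ => hα j)
    obtain ⟨t, ht⟩ := h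
    refine ⟨t / ((∏ j, α j : ℤ) : ℚ), ?_⟩
    rw [e] at ht
    field_simp
    linear_combination ht
  · obtain ⟨g, μ, hg⟩ := Form.similar_of_wideComm F F' I (by omega) hu.ne_zero
      (hG'.gam_cocpt I hK) hw
    rw [hF, hF'] at hg
    have e : ∀ p : Nat.Primes, ((∏ j, sqp (qmap 17 1155 (ia ℚ) (x j)) : ℚ) : ℚ_[p]) =
        ((∏ j, sqp (x j) : ℤ) : ℚ_[p]) := fun p => by
      simp only [sqp_qmap]
      push_cast
      simp
    refine not_similar ram_B (fun j => ⟨hx.1 j, fun h0 => hx0 j ?_⟩) hl (p₁ := p3) (p₂ := p7)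
      (by decide) (by decide) (by decide) (by decide) (e _ ▸ s3) (e _ ▸ s7) g μ hg
    have := congrArg sqp h0
    rw [sqp_qmap, show sqp (0 : Q 17 1155 ℚ) = 0 by simp [sqp]] at this
    exact Int.cast_eq_zero.1 this

end Pool.Agent.P.MP_3c2f8c_gt
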